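import Pool.Agent.Lib.MP_fed171_al.FD.Stm

/-!
# Project FD (MP_fed171_al): the overgroup `A * ℤ`
-/

namespace Pool.Agent.Lib.MP_fed171_al.FD

open Monoid

theorem a1_tfZ : TorsionFree (Multiplicative ℤ) := by
  intro x n hn hx
  have h : n • (Multiplicative.toAdd x) = 0 := by
    have h1 := congrArg Multiplicative.toAdd hx
    rwa [toAdd_pow, toAdd_one] at h1
  have h2 : Multiplicative.toAdd x = 0 := by
    rcases smul_eq_zero.mp h with h3 | h3
    · omega
    · exact h3
  exact Multiplicative.toAdd.injective (by rw [h2]; rfl)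

theorem a1_gen {A : Type} [Group A] (K : Subgroup (CoprodI (Fam A)))
    (h1 : (inA : A →* CoprodI (Fam A)).range ≤ K)
    (h2 : (inS (Multiplicative.ofAdd 1) : CoprodI (Fam A)) ∈ K) : K = ⊤ := by
  rw [eq_top_iff]
  intro x _
  induction x using CoprodI.induction_on with
  | one => exact K.one_mem
  | of i m =>
    cases i with
    | true => exact h1 ⟨m, rfl⟩
    | false =>
      have h3 : ∀ z : ℤ, (inS (Multiplicative.ofAdd z) : CoprodI (Fam A)) ∈ K := by
        intro z
        have h4 : (inS (Multiplicative.ofAdd z) : CoprodI (Fam A)) =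
            (inS (Multiplicative.ofAdd 1) : CoprodI (Fam A)) ^ z := by
          rw [← map_zpow, ← ofAdd_zsmul]
          simp
        rw [h4]
        exact K.zpow_mem h2 z
      exact h3 (Multiplicative.toAdd m)
  | mul x y hx hy => exact K.mul_mem (hx trivial) (hy trivial)

/-- The zeros of a cocycle form a subgroup. -/
def a1_ker {A Q : Type} [Group A] [Group Q] (ψ : A →* Q) (c : A → L2 Q)
    (hc : IsCocycleVia ψ c) : Subgroup A where
  carrier := {x | c x = 0}
  mul_mem' := by
    intro x y hx hy
    have hx' : c x = 0 := hx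
    have hy' : c y = 0 := hy
    show c (x * y) = 0
    rw [hc x y, hx', hy', map_zero, add_zero]
  one_mem' := by
    show c 1 = 0
    have h := hc 1 1
    rw [mul_one, map_one] at h
    have h2 : lam (1 : Q) (c 1) = c 1 := by
      ext x
      show (c 1 : L2 Q) ((1 : Q)⁻¹ * x) = (c 1 : L2 Q) x
      rw [inv_one, one_mul]
    rw [h2] at h
    exact left_eq_add.mp h
  inv_mem' := by
    intro x hx
    have hx' : c x = 0 := hx
    show c x⁻¹ = 0
    have h1 : c 1 = 0 := by
      have h := hc 1 1
      rw [mul_one, map_one] at h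
      have h2 : lam (1 : Q) (c 1) = c 1 := by
        ext x
        show (c 1 : L2 Q) ((1 : Q)⁻¹ * x) = (c 1 : L2 Q) x
        rw [inv_one, one_mul]
      rw [h2] at h
      exact left_eq_add.mp h
    have h := hc x⁻¹ x
    rw [inv_mul_cancel, h1, hx', map_zero, add_zero] at h
    exact h.symm

theorem a1_mem_ker {A Q : Type} [Group A] [Group Q] (ψ : A →* Q) (c : A → L2 Q)
    (hc : IsCocycleVia ψ c) (x : A) : x ∈ a1_ker ψ c hc ↔ c x = 0 := Iff.rfl

theorem p_A1 : S_pp → S_tfC → S_glueC → S_A1 := by
  intro hpp htf hgl A _ hA k g hg hN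
  have hs : ∀ K : Subgroup (CoprodI (Fam A)), (inS (Multiplicative.ofAdd 1)) ∈ K → ∀ z : ℤ,
      (inS (Multiplicative.ofAdd z) : CoprodI (Fam A)) ∈ K := by
    intro K h2 z
    have h4 : (inS (Multiplicative.ofAdd z) : CoprodI (Fam A)) =
        (inS (Multiplicative.ofAdd 1) : CoprodI (Fam A)) ^ z := by
      rw [← map_zpow, ← ofAdd_zsmul]
      simp
    rw [h4]
    exact K.zpow_mem h2 z
  refine ⟨CoprodI (Fam A), inferInstance, inA, inS (Multiplicative.ofAdd 1),
    FreeGroup.lift (uu g), ?_, hpp A hA k g hg, ?_, ?_, ?_, ?_⟩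
  · exact CoprodI.of_injective (M := Fam A) true
  · refine htf Bool (Fam A) (fun i => ?_)
    cases i with
    | true => exact hA
    | false => exact a1_tfZ
  · intro K h1 h2
    exact a1_gen K h1 h2
  · set N : Subgroup (CoprodI (Fam A)) :=
      Subgroup.normalClosure (Set.range (FreeGroup.lift (uu g))) with hNd
    have hmem : ∀ o, uu g o ∈ N := by
      intro o
      apply Subgroup.subset_normalClosure
      exact ⟨FreeGroup.of o, by rw [FreeGroup.lift_apply_of]⟩
    have hconj : ∀ a b : CoprodI (Fam A), a * b * a⁻¹ ∈ N → b ∈ N := by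
      intro a b h
      have h2 := Subgroup.normalClosure_normal.conj_mem (H := N) _ h a⁻¹
      have h3 : a⁻¹ * (a * b * a⁻¹) * a⁻¹⁻¹ = b := by group
      rwa [h3] at h2
    have hsN : (inS (Multiplicative.ofAdd 1) : CoprodI (Fam A)) ∈ N := hconj _ _ (hmem none)
    have hgN : ∀ l, (inA (g l) : CoprodI (Fam A)) ∈ N := fun l => hconj _ _ (hmem (some l))
    refine a1_gen N ?_ hsN
    have hle : Subgroup.normalClosure (Set.range g) ≤ N.comap inA := by
      have : (N.comap (inA : A →* CoprodI (Fam A))).Normal :=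
        Subgroup.Normal.comap Subgroup.normalClosure_normal _
      apply Subgroup.normalClosure_le_normal
      rintro _ ⟨l, rfl⟩
      exact hgN l
    rintro _ ⟨a, rfl⟩
    have ha : a ∈ Subgroup.normalClosure (Set.range g) := by rw [hN]; trivial
    exact hle ha
  · intro Q _ ψ b hb hbg
    obtain ⟨c, hc, hcb⟩ := hgl Bool (Fam A) Q ψ
      (fun i => match i with
        | true => b
        | false => fun _ => 0)
      (fun i => by
        cases i with
        | true => exact hb
        | false =>
          intro x y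
          show (0 : L2 Q) = 0 + lam _ 0
          rw [map_zero, add_zero])
    have hcA : ∀ x : A, c (inA x) = b x := fun x => hcb true x
    have hcS : ∀ x : Multiplicative ℤ, c (inS x) = 0 := fun x => hcb false x
    refine ⟨c, hc, hcA, hcS _, ?_⟩
    intro w
    rw [← a1_mem_ker ψ c hc]
    have hin : ∀ o, uu g o ∈ a1_ker ψ c hc := by
      intro o
      have hA' : ∀ l, (inA (g l) : CoprodI (Fam A)) ∈ a1_ker ψ c hc := fun l =>
        (hcA (g l)).trans (hbg l)
      have hS' : ∀ z, (inS z : CoprodI (Fam A)) ∈ a1_ker ψ c hc := fun z => hcS z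
      cases o with
      | none =>
        exact Subgroup.mul_mem _ (Subgroup.mul_mem _ (hA' 0) (hS' _)) (Subgroup.inv_mem _ (hA' 0))
      | some l =>
        exact Subgroup.mul_mem _ (Subgroup.mul_mem _ (hS' _) (hA' l)) (Subgroup.inv_mem _ (hS' _))
    induction w using FreeGroup.induction_on with
    | C1 => rw [map_one]; exact Subgroup.one_mem _
    | of x => rw [FreeGroup.lift_apply_of]; exact hin x
    | inv_of x _ => rw [map_inv, FreeGroup.lift_apply_of]; exact Subgroup.inv_mem _ (hin x)
    | mul x y hx hy => rw [map_mul]; exact Subgroup.mul_mem _ hx hy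

end Pool.Agent.Lib.MP_fed171_al.FD
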