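import Pool.Agent.Lib.MP_fed171_al.FD.Stm

/-!
# Project FD: adjoints and projections are equivariant
-/

set_option autoImplicit false

namespace Pool.Agent.Lib.MP_fed171_al.FD

open scoped InnerProductSpace

theorem adj_inner {Γ : Type} [Group Γ] {ι : Type} (γ : Γ) (ξ η : L2 (ι × Γ)) :
    ⟪rho γ ξ, η⟫_ℂ = ⟪ξ, rho γ⁻¹ η⟫_ℂ := by
  rw [lp.inner_eq_tsum, lp.inner_eq_tsum]
  rw [← ((Equiv.refl ι).prodCongr (Equiv.mulRight γ)).tsum_eq
    (fun p : ι × Γ => ⟪ξ p, rho γ⁻¹ η p⟫_ℂ)]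
  refine tsum_congr fun p => ?_
  have h1 : rho γ ξ p = ξ (p.1, p.2 * γ) := rfl
  have h2 : rho γ⁻¹ η (((Equiv.refl ι).prodCongr (Equiv.mulRight γ)) p) = η p := by
    show η (p.1, p.2 * γ * γ⁻¹) = η p
    rw [mul_inv_cancel_right]
  rw [h1, h2]
  rfl

theorem adj_inner' {Γ : Type} [Group Γ] {ι : Type} (γ : Γ) (ξ η : L2 (ι × Γ)) :
    ⟪ξ, rho γ η⟫_ℂ = ⟪rho γ⁻¹ ξ, η⟫_ℂ := by
  rw [adj_inner, inv_inv]

theorem p_adj : S_adj := by
  intro Γ _ ι κ T hT γ ξ
  refine ext_inner_left ℂ fun v => ?_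
  rw [ContinuousLinearMap.adjoint_inner_right, adj_inner', ← hT, adj_inner',
    ContinuousLinearMap.adjoint_inner_right]

theorem p_proj : S_proj := by
  intro Γ _ ι V hV γ ξ
  have hW : ∀ (γ : Γ), ∀ ξ ∈ V.topologicalClosure, rho γ ξ ∈ V.topologicalClosure := by
    intro γ ξ hξ
    exact map_mem_closure (rho γ).continuous hξ (fun x hx => hV γ x hx)
  have hW' : ∀ ξ ∈ V.topologicalClosureᗮ, rho γ ξ ∈ V.topologicalClosureᗮ := by
    intro ξ hξ w hw
    rw [adj_inner']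
    exact hξ _ (hW _ _ hw)
  have h1 : rho γ (V.topologicalClosure.starProjection ξ) ∈ V.topologicalClosure :=
    hW _ _ (Submodule.starProjection_apply_mem _ _)
  have h2 : rho γ ξ - rho γ (V.topologicalClosure.starProjection ξ) ∈
      V.topologicalClosureᗮ := by
    rw [← map_sub]
    exact hW' _ (Submodule.sub_starProjection_mem_orthogonal _)
  exact Submodule.eq_starProjection_of_mem_of_inner_eq_zero h1 (fun w hw => by
    have := h2 w hw
    rwa [inner_eq_zero_symm])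

end Pool.Agent.Lib.MP_fed171_al.FD
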