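import Mathlib
import Pool.Agent.Lib.MP_fed171_al.FD.Stm

/-!
# Project FD (MP_fed171_al): inner cocycles have dimension one
-/

namespace Pool.Agent.Lib.MP_fed171_al.FD

open scoped InnerProductSpace

private theorem bdim_adj_single {X Y : Type} (f : X → Y) (hf : Function.Injective f) (ξ : L2 X)
    (y : Y) : (ContinuousLinearMap.adjoint (pull f hf) ξ) y =
      inner ℂ (pull f hf (delta y)) ξ := by
  classical
  have h1 := lp.inner_single_left (𝕜 := ℂ) (G := fun _ : Y => ℂ) y (1 : ℂ)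
    (ContinuousLinearMap.adjoint (pull f hf) ξ)
  have h2 : (delta y : L2 Y) = lp.single 2 y (1 : ℂ) := by
    unfold delta
    congr
  rw [← h2, ContinuousLinearMap.adjoint_inner_right] at h1
  rw [h1]
  simp

private theorem bdim_adj_mem {X Y : Type} (f : X → Y) (hf : Function.Injective f) (ξ : L2 X)
    (x : X) : (ContinuousLinearMap.adjoint (pull f hf) ξ) (f x) = ξ x := by
  classical
  rw [bdim_adj_single]
  have h : pull f hf (delta (f x)) = lp.single 2 x (1 : ℂ) := by
    ext z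
    rw [pull_apply]
    unfold delta
    rw [lp.single_apply, lp.single_apply, Pi.single_apply, Pi.single_apply]
    by_cases hz : z = x
    · subst hz
      simp
    · have hz' : f z ≠ f x := fun h => hz (hf h)
      simp [hz, hz']
  rw [h, lp.inner_single_left]
  simp

private theorem bdim_adj_not {X Y : Type} (f : X → Y) (hf : Function.Injective f) (ξ : L2 X)
    (y : Y) (hy : ∀ x, f x ≠ y) : (ContinuousLinearMap.adjoint (pull f hf) ξ) y = 0 := by
  classical
  rw [bdim_adj_single]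
  have h : pull f hf (delta y) = 0 := by
    ext z
    rw [pull_apply]
    unfold delta
    rw [lp.single_apply, Pi.single_apply]
    simp [hy z]
  rw [h, inner_zero_left]

/-- the operator -/
private noncomputable def bdim_T {Γ : Type} [Group Γ] {ι : Type} [Fintype ι] (S : ι → Γ) :
    L2 (Unit × Γ) →L[ℂ] L2 (ι × Γ) :=
  ∑ i : ι, (ContinuousLinearMap.adjoint (coord i)).comp
    ((lam (S i) - ContinuousLinearMap.id ℂ (L2 Γ)).comp (coord ()))

private theorem bdim_T_apply {Γ : Type} [Group Γ] {ι : Type} [Fintype ι] (S : ι → Γ)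
    (ξ : L2 (Unit × Γ)) (i : ι) (x : Γ) :
    (bdim_T S ξ) (i, x) = ξ ((), (S i)⁻¹ * x) - ξ ((), x) := by
  classical
  have h1 : ∀ j : ι, (((ContinuousLinearMap.adjoint (coord j)).comp
      ((lam (S j) - ContinuousLinearMap.id ℂ (L2 Γ)).comp (coord ()))) ξ) (i, x) =
      if j = i then ξ ((), (S i)⁻¹ * x) - ξ ((), x) else 0 := by
    intro j
    rw [ContinuousLinearMap.comp_apply, ContinuousLinearMap.comp_apply]
    by_cases hj : j = i
    · subst hj
      rw [if_pos rfl]
      exact bdim_adj_mem (fun x => (j, x)) (fun _ _ h => (Prod.mk.inj h).2) _ x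
    · rw [if_neg hj]
      exact bdim_adj_not (fun x => (j, x)) (fun _ _ h => (Prod.mk.inj h).2) _ (i, x)
        fun z h => hj (Prod.mk.inj h).1
  rw [bdim_T, sum_apply]
  have h2 : ∀ (s : Finset ι) (g : ι → L2 (ι × Γ)) (p : ι × Γ),
      (∑ j ∈ s, g j) p = ∑ j ∈ s, (g j) p := by
    intro s g p
    rw [lp.coeFn_sum, Finset.sum_apply]
  rw [h2, Finset.sum_congr rfl fun j _ => h1 j, Finset.sum_ite_eq' Finset.univ i,
    if_pos (Finset.mem_univ i)]

private theorem bdim_equi {Γ : Type} [Group Γ] {ι : Type} [Fintype ι] (S : ι → Γ) :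
    Equi (bdim_T S) := by
  intro γ ξ
  ext p
  obtain ⟨i, x⟩ := p
  have h1 : (rho γ (bdim_T S ξ)) (i, x) = (bdim_T S ξ) (i, x * γ) := rfl
  rw [h1, bdim_T_apply, bdim_T_apply]
  have h2 : ∀ y : Γ, (rho γ ξ) ((), y) = ξ ((), y * γ) := fun y => rfl
  rw [h2, h2, mul_assoc]

private theorem bdim_coord {Γ : Type} [Group Γ] {ι : Type} [Fintype ι] (S : ι → Γ)
    (ξ : L2 (Unit × Γ)) (i : ι) :
    coord i (bdim_T S ξ) = lam (S i) (coord () ξ) - coord () ξ := by
  ext x
  exact bdim_T_apply S ξ i x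

private theorem bdim_range {Γ : Type} [Group Γ] {ι : Type} [Fintype ι] (S : ι → Γ) :
    LinearMap.range (bdim_T S).toLinearMap = B S := by
  ext η
  constructor
  · rintro ⟨ξ, rfl⟩
    exact ⟨coord () ξ, fun i => bdim_coord S ξ i⟩
  · rintro ⟨c, hc⟩
    have hsnd : Function.Injective (fun p : Unit × Γ => p.2) :=
      fun p q h => Prod.ext (Subsingleton.elim _ _) h
    refine ⟨pull (fun p : Unit × Γ => p.2) hsnd c, ?_⟩
    have h1 : coord () (pull (fun p : Unit × Γ => p.2) hsnd c) = c := by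
      ext x
      rfl
    ext p
    obtain ⟨i, x⟩ := p
    have h2 := bdim_coord S (pull (fun p : Unit × Γ => p.2) hsnd c) i
    rw [h1, ← hc i] at h2
    exact congrFun (congrArg (fun f : L2 Γ => (f : Γ → ℂ)) h2) x

private theorem bdim_ker {Γ : Type} [Group Γ] [Infinite Γ] {ι : Type} [Fintype ι] (S : ι → Γ)
    (hS : Subgroup.closure (Set.range S) = ⊤) (ξ : L2 (Unit × Γ)) (h : bdim_T S ξ = 0) :
    ξ = 0 := by
  have h1 : ∀ (i : ι) (x : Γ), ξ ((), (S i)⁻¹ * x) = ξ ((), x) := by
    intro i x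
    have h2 := bdim_T_apply S ξ i x
    rw [h] at h2
    exact (sub_eq_zero.1 h2.symm)
  have h2 : ∀ g : Γ, ∀ x : Γ, ξ ((), g * x) = ξ ((), x) := by
    intro g
    have hg : g ∈ Subgroup.closure (Set.range S) := by rw [hS]; exact Subgroup.mem_top g
    induction hg using Subgroup.closure_induction with
    | mem g hg =>
      obtain ⟨i, rfl⟩ := hg
      intro x
      rw [← h1 i (S i * x), inv_mul_cancel_left]
    | one => intro x; rw [one_mul]
    | mul a b _ _ ha hb => intro x; rw [mul_assoc, ha, hb]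
    | inv a _ ha => intro x; rw [← ha (a⁻¹ * x), mul_inv_cancel_left]
  have h3 : ∀ g : Γ, ξ ((), g) = ξ ((), 1) := by
    intro g
    have := h2 g 1
    rwa [mul_one] at this
  have h4 : Summable fun x : Γ => ‖(ξ ((), x) : ℂ)‖ ^ (2 : ENNReal).toReal := by
    have h5 := lp.memℓp (coord () ξ)
    rw [memℓp_gen_iff (by norm_num)] at h5
    exact h5
  have h5 : ‖(ξ ((), 1) : ℂ)‖ ^ (2 : ENNReal).toReal = 0 := by
    rw [← summable_const_iff (β := Γ)]
    refine h4.congr fun x => ?_
    rw [h3 x]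
  have h6 : ξ ((), (1 : Γ)) = 0 := by
    have h7 : (2 : ENNReal).toReal ≠ 0 := by norm_num
    have h8 := (Real.rpow_eq_zero (norm_nonneg _) h7).1 h5
    exact norm_eq_zero.1 h8
  ext p
  obtain ⟨⟨⟩, x⟩ := p
  rw [h3 x, h6]
  rfl

theorem p_Bdim : S_rn → S_Bdim := by
  intro hrn Γ _ _ ι _ S hS
  have h := hrn Γ Unit ι (bdim_T S) (bdim_equi S)
  have hk : LinearMap.ker (bdim_T S).toLinearMap = ⊥ := by
    rw [LinearMap.ker_eq_bot']
    intro ξ hξ
    exact bdim_ker S hS ξ hξ
  have h0 : vdim (⊥ : Submodule ℂ (L2 (Unit × Γ))) = 0 := by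
    unfold vdim
    refine Finset.sum_eq_zero fun i _ => ?_
    have h1 : (⊥ : Submodule ℂ (L2 (Unit × Γ))).topologicalClosure.starProjection
        (delta (i, (1 : Γ))) ∈ (⊥ : Submodule ℂ (L2 (Unit × Γ))).topologicalClosure :=
      Submodule.starProjection_apply_mem _ _
    have h2 : (⊥ : Submodule ℂ (L2 (Unit × Γ))).topologicalClosure ≤ ⊥ := by
      refine Submodule.topologicalClosure_minimal _ le_rfl ?_
      rw [Submodule.bot_coe]
      exact isClosed_singleton
    have h3 := h2 h1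
    rw [Submodule.mem_bot] at h3
    rw [h3, norm_zero]
    norm_num
  rw [hk, h0, bdim_range, zero_add] at h
  rw [h]
  simp

end Pool.Agent.Lib.MP_fed171_al.FD
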