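import Pool.Agent.Lib.MP_fed171_al.FD.Stm

/-!
# Project FD: the dimension of the reduced cohomology in terms of the cocycles
-/

namespace Pool.Agent.Lib.MP_fed171_al.FD

theorem p_bettiOf (hadd : S_add) (hB : S_Bdim) (hZ : S_Zclosed) (hZB : S_ZBinv) :
    S_bettiOf := by
  intro Γ _ _ ι _ S hS
  have h1 := hadd Γ ι (B S) (Z S ∅) (hZB Γ ι S ∅).2.2 (hZ Γ ι S ∅ hS)
  have h2 := hB Γ ι S hS
  have h3 : bettiOf S = vdim (Z S ∅ ⊓ (B S)ᗮ) := rfl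
  rw [h3]
  linarith

end Pool.Agent.Lib.MP_fed171_al.FD
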