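import Pool.Agent.Lib.MP_fed171_al.FD.Stm2

/-!
# Project FD (MP_fed171_al): the group of the affine maps generated by translation and doubling
-/

namespace Pool.Agent.Lib.MP_fed171_al.FD

/-- The unit `2` of `ℚ`. -/
private def bs_u : ℚˣ := Units.mk0 2 two_ne_zero

/-- The map `z ↦ z + 1`. -/
private def bs_x : Equiv.Perm ℚ := Equiv.addRight (1 : ℚ)

/-- The map `z ↦ 2 z`. -/
private def bs_y : Equiv.Perm ℚ := MulAction.toPermHom ℚˣ ℚ bs_u

private theorem bs_x_apply (z : ℚ) : bs_x z = z + 1 := rfl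

private theorem bs_y_apply (z : ℚ) : bs_y z = 2 * z := rfl

private theorem bs_x_pow (m : ℕ) : ∀ z : ℚ, (bs_x ^ m) z = z + m := by
  induction m with
  | zero => intro z; simp
  | succ m ih =>
    intro z
    rw [pow_succ, Equiv.Perm.mul_apply, ih, bs_x_apply]
    push_cast
    ring

private theorem bs_x_zpow (m : ℤ) (z : ℚ) : (bs_x ^ m) z = z + m := by
  obtain ⟨n, rfl | rfl⟩ := m.eq_nat_or_neg
  · rw [zpow_natCast, bs_x_pow]
    simp
  · rw [zpow_neg, zpow_natCast, Equiv.Perm.inv_eq_iff_eq, bs_x_pow]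
    push_cast
    ring

private theorem bs_y_zpow (n : ℤ) (z : ℚ) : (bs_y ^ n) z = 2 ^ n * z := by
  unfold bs_y
  rw [← map_zpow, MulAction.toPermHom_apply, MulAction.toPerm_apply, Units.smul_def, smul_eq_mul]
  congr 1
  rw [Units.val_zpow_eq_zpow_val]
  rfl

private theorem bs_rel : bs_y * bs_x * bs_y⁻¹ = bs_x ^ 2 := by
  rw [mul_inv_eq_iff_eq_mul]
  ext z
  rw [Equiv.Perm.mul_apply, Equiv.Perm.mul_apply, pow_two, Equiv.Perm.mul_apply, bs_x_apply,
    bs_y_apply, bs_y_apply, bs_x_apply, bs_x_apply]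
  ring

private theorem bs_aff (f : Equiv.Perm ℚ) (hf : f ∈ Subgroup.closure {bs_x, bs_y}) :
    ∃ (n : ℤ) (q : ℚ), ∀ z, f z = 2 ^ n * z + q := by
  have h2 : (2 : ℚ) ≠ 0 := two_ne_zero
  induction hf using Subgroup.closure_induction with
  | mem f hf =>
    rcases hf with rfl | hf
    · exact ⟨0, 1, fun z => by rw [bs_x_apply]; simp⟩
    · rw [Set.mem_singleton_iff] at hf
      subst hf
      exact ⟨1, 0, fun z => by rw [bs_y_apply]; simp⟩
  | one => exact ⟨0, 0, fun z => by simp⟩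
  | mul f g _ _ ihf ihg =>
    obtain ⟨n, q, h⟩ := ihf
    obtain ⟨m, r, h'⟩ := ihg
    refine ⟨n + m, 2 ^ n * r + q, fun z => ?_⟩
    rw [Equiv.Perm.mul_apply, h, h', zpow_add₀ h2]
    ring
  | inv f _ ih =>
    obtain ⟨n, q, h⟩ := ih
    refine ⟨-n, -(2 ^ (-n) * q), fun z => ?_⟩
    rw [Equiv.Perm.inv_eq_iff_eq, h]
    have h3 : (2 : ℚ) ^ n * 2 ^ (-n) = 1 := by
      rw [← zpow_add₀ h2, add_neg_cancel, zpow_zero]
    linear_combination (q - z) * h3

private theorem bs_pow_sub (f : Equiv.Perm ℚ) (a q : ℚ) (h : ∀ z, f z = a * z + q) (k : ℕ) :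
    ∀ z w, (f ^ k) z - (f ^ k) w = a ^ k * (z - w) := by
  induction k with
  | zero => intro z w; simp
  | succ k ih =>
    intro z w
    rw [pow_succ, Equiv.Perm.mul_apply, Equiv.Perm.mul_apply, ih, h, h]
    ring

private theorem bs_pow_one (f : Equiv.Perm ℚ) (q : ℚ) (h : ∀ z, f z = z + q) (k : ℕ) :
    ∀ z, (f ^ k) z = z + k * q := by
  induction k with
  | zero => intro z; simp
  | succ k ih =>
    intro z
    rw [pow_succ, Equiv.Perm.mul_apply, ih, h]
    push_cast
    ring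

private theorem bs_tf (f : Equiv.Perm ℚ) (hf : f ∈ Subgroup.closure {bs_x, bs_y}) (k : ℕ)
    (hk : 0 < k) (h : f ^ k = 1) : f = 1 := by
  obtain ⟨n, q, hn⟩ := bs_aff f hf
  have h1 := bs_pow_sub f (2 ^ n) q hn k 1 0
  rw [h] at h1
  simp only [Equiv.Perm.coe_one, id_eq, sub_zero, mul_one] at h1
  have h2 : ((2 : ℚ) ^ n) = 1 :=
    (pow_eq_one_iff_of_nonneg (by positivity) hk.ne').1 h1.symm
  have h3 : ∀ z, f z = z + q := fun z => by rw [hn, h2, one_mul]
  have h4 := bs_pow_one f q h3 k 0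
  rw [h] at h4
  simp only [Equiv.Perm.coe_one, id_eq, zero_add] at h4
  have h5 : q = 0 := by
    rcases mul_eq_zero.1 h4.symm with h6 | h6
    · exact absurd (by exact_mod_cast h6) hk.ne'
    · exact h6
  ext z
  rw [h3, h5, add_zero]
  rfl

/-- The group `⟨x, y | y x y⁻¹ = x²⟩`, concretely. -/
theorem p_BS : S_BS := by
  refine ⟨↥(Subgroup.closure {bs_x, bs_y}), inferInstance,
    ⟨bs_x, Subgroup.subset_closure (by simp)⟩, ⟨bs_y, Subgroup.subset_closure (by simp)⟩,
    ?_, ?_, ?_, ?_⟩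
  · intro f k hk h
    exact Subtype.ext (bs_tf f.1 f.2 k hk (congrArg Subtype.val h))
  · exact Subtype.ext bs_rel
  · have h := Subgroup.closure_closure_coe_preimage (k := ({bs_x, bs_y} : Set (Equiv.Perm ℚ)))
    rw [← h]
    congr 1
    ext f
    simp only [Set.mem_insert_iff, Set.mem_singleton_iff, Set.mem_preimage]
    constructor
    · rintro (rfl | rfl)
      · exact Or.inl rfl
      · exact Or.inr rfl
    · rintro (h | h)
      · exact Or.inl (Subtype.ext h)
      · exact Or.inr (Subtype.ext h)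
  · intro m n h
    have h1 : bs_x ^ m = bs_y ^ n := by
      have := congrArg Subtype.val h
      simpa using this
    have h2 := congrArg (fun f : Equiv.Perm ℚ => f 0) h1
    simp only [bs_x_zpow, bs_y_zpow, mul_zero, zero_add] at h2
    have hm : m = 0 := by exact_mod_cast h2
    subst hm
    have h3 := congrArg (fun f : Equiv.Perm ℚ => f 1) h1
    simp only [bs_x_zpow, bs_y_zpow, mul_one, Int.cast_zero, add_zero] at h3
    refine ⟨rfl, ?_⟩
    exact (zpow_eq_one_iff_right₀ (by norm_num) (by norm_num)).1 h3.symm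

end Pool.Agent.Lib.MP_fed171_al.FD
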