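import Pool.Agent.Lib.MP_fed171_al.FD.Stm2

/-!
# Project FD, piece `E` (half of the group of Higman), helper18
-/

namespace Pool.Agent.Lib.MP_fed171_al.FD

open Monoid

section General

variable {K : Type} [Group K] (φ : Bool → Multiplicative ℤ →* K) (g : Bool → K)

/-- The powers of `g i`. -/
private def e_f (i : Bool) : FreeGroup Unit →* K := FreeGroup.lift (fun _ => g i)

private theorem e_f_eq (i : Bool) (h : FreeGroup Unit) (hh : h ≠ 1) :
    ∃ n : ℤ, n ≠ 0 ∧ e_f g i h = g i ^ n := by
  obtain ⟨n, rfl⟩ : ∃ n : ℤ, h = FreeGroup.of () ^ n :=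
    ⟨FreeGroup.freeGroupUnitEquivInt h, (FreeGroup.freeGroupUnitEquivInt.symm_apply_apply h).symm⟩
  refine ⟨n, ?_, ?_⟩
  · rintro rfl
    exact hh (zpow_zero _)
  · unfold e_f
    rw [map_zpow, FreeGroup.lift_apply_of]

/-- The word with the letters replaced by their images. -/
private def e_word (hg : ∀ i (n : ℤ), n ≠ 0 → g i ^ n ∉ (φ i).range)
    (w : CoprodI.Word (fun _ : Bool => FreeGroup Unit)) : CoprodI.Word (fun _ : Bool => K) where
  toList := w.toList.map (fun l => ⟨l.1, e_f g l.1 l.2⟩)
  ne_one := by
    intro l hl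
    obtain ⟨l', hl', rfl⟩ := List.mem_map.mp hl
    obtain ⟨n, hn, h⟩ := e_f_eq g l'.1 l'.2 (w.ne_one l' hl')
    intro h1
    apply hg l'.1 n hn
    rw [← h]
    change e_f g l'.1 l'.2 = 1 at h1
    rw [h1]
    exact Subgroup.one_mem _
  chain_ne := by
    rw [List.isChain_map]
    exact w.chain_ne

private theorem e_reduced (hg : ∀ i (n : ℤ), n ≠ 0 → g i ^ n ∉ (φ i).range)
    (w : CoprodI.Word (fun _ : Bool => FreeGroup Unit)) :
    PushoutI.Reduced (G := fun _ : Bool => K) φ (e_word φ g hg w) := by
  intro l hl
  obtain ⟨l', hl', rfl⟩ := List.mem_map.mp hl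
  obtain ⟨n, hn, h⟩ := e_f_eq g l'.1 l'.2 (w.ne_one l' hl')
  intro h1
  apply hg l'.1 n hn
  rw [← h]
  exact h1

private theorem e_free (hφ : ∀ i, Function.Injective (φ i))
    (hg : ∀ i (n : ℤ), n ≠ 0 → g i ^ n ∉ (φ i).range) :
    Function.Injective (FreeGroup.lift
      (fun i : Bool => PushoutI.of (G := fun _ : Bool => K) (φ := φ) i (g i))) := by
  set a : Bool → PushoutI (G := fun _ : Bool => K) φ :=
    fun i : Bool => PushoutI.of (G := fun _ : Bool => K) (φ := φ) i (g i) with ha
  have h1 : FreeGroup.lift a =
      (CoprodI.lift fun i => FreeGroup.lift fun _ => a i).comp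
        (@freeGroupEquivCoprodI Bool).toMonoidHom := by
    ext i
    simp
  rw [h1, MonoidHom.coe_comp]
  refine Function.Injective.comp ?_ (MulEquiv.injective freeGroupEquivCoprodI)
  rw [injective_iff_map_eq_one]
  intro x hx
  set w := CoprodI.Word.equiv x with hw
  have hwx : w.prod = x := CoprodI.Word.equiv.symm_apply_apply x
  have h2 : PushoutI.ofCoprodI (φ := φ) (e_word φ g hg w).prod = 1 := by
    rw [← hx, ← hwx]
    unfold CoprodI.Word.prod
    rw [map_list_prod, map_list_prod]
    congr 1
    unfold e_word
    simp only [List.map_map]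
    apply List.map_congr_left
    intro l _
    simp only [Function.comp_apply]
    rw [PushoutI.ofCoprodI_of, CoprodI.lift_of]
    unfold e_f
    have h3 : (PushoutI.of (G := fun _ : Bool => K) (φ := φ) l.1).comp
        (FreeGroup.lift (fun _ : Unit => g l.1)) = FreeGroup.lift fun _ => a l.1 := by
      ext
      simp [ha]
    exact DFunLike.congr_fun h3 l.2
  have h4 : e_word φ g hg w = CoprodI.Word.empty := by
    apply PushoutI.Reduced.eq_empty_of_mem_range hφ (e_reduced φ g hg w)
    rw [h2]
    exact Subgroup.one_mem _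
  have h5 : w.toList = [] := by
    have h6 := congrArg CoprodI.Word.toList h4
    change w.toList.map _ = [] at h6
    exact List.map_eq_nil_iff.mp h6
  rw [← hwx]
  unfold CoprodI.Word.prod
  rw [h5]
  rfl

end General

theorem p_E : S_BS → S_tf → S_E := by
  rintro ⟨K, hK, x, y, htor, hrel, hgen, hind⟩ htf
  let φ : Bool → Multiplicative ℤ →* K := fun i => zpowersHom K (if i then y else x)
  have hφt : ∀ n : ℤ, φ true (Multiplicative.ofAdd n) = y ^ n := fun n => rfl
  have hφf : ∀ n : ℤ, φ false (Multiplicative.ofAdd n) = x ^ n := fun n => rfl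
  have hy : ∀ n : ℤ, y ^ n = 1 → n = 0 := fun n hn => (hind 0 n (by rw [zpow_zero, hn])).2
  have hx : ∀ n : ℤ, x ^ n = 1 → n = 0 := fun n hn => (hind n 0 (by rw [zpow_zero, hn])).1
  have hφ : ∀ i, Function.Injective (φ i) := by
    intro i
    rw [injective_iff_map_eq_one]
    intro n hn
    cases i
    · exact hx n.toAdd hn
    · exact hy n.toAdd hn
  let g : Bool → K := fun i => if i then x else y
  have hg : ∀ i (n : ℤ), n ≠ 0 → g i ^ n ∉ (φ i).range := by
    rintro i n hn ⟨m, hm⟩
    cases i
    · have h : x ^ m.toAdd = y ^ n := hm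
      exact hn (hind _ _ h).2
    · have h : y ^ m.toAdd = x ^ n := hm
      exact hn (hind _ _ h.symm).1
  let E := PushoutI (G := fun _ : Bool => K) φ
  let o : Bool → K →* E := fun i => PushoutI.of (G := fun _ : Bool => K) (φ := φ) i
  have hb : o true y = o false x := by
    have h1 : o true (φ true (Multiplicative.ofAdd 1)) = PushoutI.base φ (Multiplicative.ofAdd 1) :=
      PushoutI.of_apply_eq_base φ true _
    have h2 : o false (φ false (Multiplicative.ofAdd 1)) =
        PushoutI.base φ (Multiplicative.ofAdd 1) :=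
      PushoutI.of_apply_eq_base φ false _
    rw [hφt, zpow_one] at h1
    rw [hφf, zpow_one] at h2
    exact h1.trans h2.symm
  refine ⟨E, inferInstance, o true x, o true y, o false y, ?_, ?_, ?_, ?_, ?_⟩
  · exact htf Bool (fun _ => K) (Multiplicative ℤ) φ hφ (fun _ => htor)
  · rw [← map_mul, ← map_inv, ← map_mul, hrel, map_pow]
  · rw [hb, ← map_mul, ← map_inv, ← map_mul, hrel, map_pow]
  · rw [eq_top_iff]
    intro z _
    set C := Subgroup.closure {o true x, o true y, o false y} with hC
    have ha : o true x ∈ C := Subgroup.subset_closure (by simp)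
    have hb' : o true y ∈ C := Subgroup.subset_closure (by simp)
    have hc : o false y ∈ C := Subgroup.subset_closure (by simp)
    have hof : ∀ i (k : K), o i k ∈ C := by
      intro i k
      have h1 : Subgroup.closure {x, y} ≤ C.comap (o i) := by
        rw [Subgroup.closure_le]
        rintro u (rfl | rfl)
        · cases i
          · change o false u ∈ C
            rw [← hb]
            exact hb'
          · exact ha
        · cases i
          · exact hc
          · exact hb'
      rw [hgen] at h1
      exact h1 (Subgroup.mem_top k)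
    refine PushoutI.induction_on (motive := fun z => z ∈ C) z ?_ ?_ ?_
    · intro i k
      exact hof i k
    · intro h
      rw [← PushoutI.of_apply_eq_base φ true]
      exact hof true _
    · intro u v hu hv
      exact C.mul_mem hu hv
  · have h := e_free φ g hφ hg
    have h2 : (fun i : Bool => if i then o true x else o false y) =
        fun i : Bool => PushoutI.of (G := fun _ : Bool => K) (φ := φ) i (g i) := by
      funext i
      cases i <;> rfl
    rw [h2]
    exact h

end Pool.Agent.Lib.MP_fed171_al.FD
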