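import Pool.Agent.Lib.MP_fed171_al.FD.Stm

/-!
# Piece EVAL: the values of a cocycle are continuous equivariant functions of its values on `S`
-/

namespace Pool.Agent.Lib.MP_fed171_al.FD

section eval

variable {Γ : Type} [Group Γ] {ι κ : Type}

/-- right translation on `L2 Γ` -/
noncomputable def eval_rr (γ : Γ) : L2 Γ →L[ℂ] L2 Γ :=
  pull (fun x => x * γ) (fun _ _ h => mul_right_cancel h)

theorem eval_coord_rho (i : ι) (γ : Γ) (ξ : L2 (ι × Γ)) :
    coord i (rho γ ξ) = eval_rr γ (coord i ξ) := by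
  apply lp.ext
  funext x
  rfl

theorem eval_lam_rr (x γ : Γ) (v : L2 Γ) : lam x (eval_rr γ v) = eval_rr γ (lam x v) := by
  apply lp.ext
  funext y
  change v (x⁻¹ * y * γ) = v (x⁻¹ * (y * γ))
  rw [mul_assoc]

theorem eval_ext {ξ η : L2 (κ × Γ)} (h : ∀ k, coord k ξ = coord k η) : ξ = η := by
  apply lp.ext
  funext p
  have h1 : (coord p.1 ξ : L2 Γ) p.2 = (coord p.1 η : L2 Γ) p.2 := by rw [h p.1]
  exact h1

theorem eval_inner_delta {X : Type} (x : X) (v : L2 X) : inner ℂ (delta x) v = v x := by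
  classical
  unfold delta
  rw [lp.inner_single_left]
  simp

theorem eval_delta_apply {X : Type} (x y : X) [Decidable (y = x)] :
    (delta x : L2 X) y = if y = x then 1 else 0 := by
  letI := Classical.decEq X
  unfold delta
  by_cases h : y = x
  · subst h
    rw [if_pos rfl]
    exact lp.single_apply_self _ _ _
  · rw [if_neg h]
    exact lp.single_apply_ne _ _ _ h

/-- extension by zero -/
noncomputable def eval_push (j : κ) : L2 Γ →L[ℂ] L2 (κ × Γ) :=
  ContinuousLinearMap.adjoint (coord j)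

theorem eval_coord_push_self (j : κ) (v : L2 Γ) : coord j (eval_push j v) = v := by
  classical
  apply lp.ext
  funext x
  change (eval_push j v) (j, x) = v x
  rw [← eval_inner_delta (j, x), eval_push, ContinuousLinearMap.adjoint_inner_right,
    ← eval_inner_delta x v]
  congr 1
  apply lp.ext
  funext y
  change (delta (j, x) : L2 (κ × Γ)) (j, y) = (delta x : L2 Γ) y
  rw [eval_delta_apply, eval_delta_apply]
  by_cases h : y = x
  · subst h
    simp
  · rw [if_neg h, if_neg (fun h' => h (Prod.mk.inj h').2)]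

theorem eval_coord_push_ne (j k : κ) (h : k ≠ j) (v : L2 Γ) : coord k (eval_push j v) = 0 := by
  classical
  apply lp.ext
  funext x
  change (eval_push j v) (k, x) = 0
  rw [← eval_inner_delta (k, x), eval_push, ContinuousLinearMap.adjoint_inner_right]
  have h1 : (coord j (delta (k, x)) : L2 Γ) = 0 := by
    apply lp.ext
    funext y
    change (delta (k, x) : L2 (κ × Γ)) (j, y) = 0
    rw [eval_delta_apply, if_neg (fun h' => h (Prod.mk.inj h').1.symm)]
  rw [h1, inner_zero_left]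

theorem eval_push_rho (j : κ) (γ : Γ) (v : L2 Γ) :
    eval_push j (eval_rr γ v) = rho γ (eval_push (κ := κ) j v) := by
  refine eval_ext fun k => ?_
  rw [eval_coord_rho]
  by_cases h : k = j
  · subst h
    rw [eval_coord_push_self, eval_coord_push_self]
  · rw [eval_coord_push_ne j k h, eval_coord_push_ne j k h, map_zero]

theorem eval_one {b : Γ → L2 Γ} (hb : IsCocycle b) : b 1 = 0 := by
  have h := hb 1 1
  have h1 : lam (1 : Γ) (b 1) = b 1 := by
    apply lp.ext
    funext y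
    change (b 1) ((1 : Γ)⁻¹ * y) = (b 1) y
    rw [inv_one, one_mul]
  rw [mul_one, h1] at h
  exact (left_eq_add.1 h)

theorem eval_inv {b : Γ → L2 Γ} (hb : IsCocycle b) (x : Γ) : b x⁻¹ = - lam x⁻¹ (b x) := by
  have h := hb x⁻¹ x
  rw [inv_mul_cancel, eval_one hb] at h
  exact eq_neg_of_add_eq_zero_left h.symm

theorem eval_exists (S : ι → Γ) (x : Γ) (hx : x ∈ Subgroup.closure (Set.range S)) :
    ∃ E : L2 (ι × Γ) →L[ℂ] L2 Γ, (∀ γ ξ, E (rho γ ξ) = eval_rr γ (E ξ)) ∧
      ∀ (ξ : L2 (ι × Γ)) (b : Γ → L2 Γ), IsCocycle b → (∀ i, coord i ξ = b (S i)) → E ξ = b x := by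
  induction hx using Subgroup.closure_induction with
  | mem x hx =>
    obtain ⟨i, rfl⟩ := hx
    exact ⟨coord i, fun γ ξ => eval_coord_rho i γ ξ, fun ξ b _ h => h i⟩
  | one =>
    refine ⟨0, fun γ ξ => by simp, fun ξ b hb _ => ?_⟩
    rw [eval_one hb]
    rfl
  | mul x y _ _ hx hy =>
    obtain ⟨E, hE, hE'⟩ := hx
    obtain ⟨F, hF, hF'⟩ := hy
    refine ⟨E + (lam x).comp F, fun γ ξ => ?_, fun ξ b hb h => ?_⟩
    · change E (rho γ ξ) + lam x (F (rho γ ξ)) = eval_rr γ (E ξ + lam x (F ξ))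
      rw [hE, hF, eval_lam_rr, map_add]
    · change E ξ + lam x (F ξ) = b (x * y)
      rw [hE' ξ b hb h, hF' ξ b hb h, hb x y]
  | inv x _ hx =>
    obtain ⟨E, hE, hE'⟩ := hx
    refine ⟨-((lam x⁻¹).comp E), fun γ ξ => ?_, fun ξ b hb h => ?_⟩
    · change -(lam x⁻¹ (E (rho γ ξ))) = eval_rr γ (-(lam x⁻¹ (E ξ)))
      rw [hE, eval_lam_rr, map_neg]
    · change -(lam x⁻¹ (E ξ)) = b x⁻¹
      rw [hE' ξ b hb h, eval_inv hb]

end eval

theorem p_eval : S_eval := by
  intro Γ _ ι κ _ _ S g hg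
  classical
  choose E hE hE' using fun j => eval_exists S (g j) (hg j)
  have hT : ∀ (ξ : L2 (ι × Γ)) (k : κ),
      coord k ((∑ j, (eval_push (Γ := Γ) (κ := κ) j).comp (E j)) ξ) = E k ξ := by
    intro ξ k
    rw [_root_.sum_apply, map_sum, Finset.sum_eq_single k]
    · exact eval_coord_push_self k (E k ξ)
    · intro j _ hj
      exact eval_coord_push_ne j k (Ne.symm hj) (E j ξ)
    · intro h
      exact absurd (Finset.mem_univ k) h
  refine ⟨∑ j, (eval_push (Γ := Γ) (κ := κ) j).comp (E j), fun γ ξ => ?_, fun ξ b hb h j => ?_⟩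
  · refine eval_ext fun k => ?_
    rw [eval_coord_rho, hT, hT, hE]
  · rw [hT]
    exact hE' j ξ b hb h

end Pool.Agent.Lib.MP_fed171_al.FD
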