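import Mathlib
import Pool.Agent.Lib.MP_fed171_al.FD.Stm

/-!
# Project FD (MP_fed171_al): piece facts
-/

set_option autoImplicit false

namespace Pool.Agent.Lib.MP_fed171_al.FD

private theorem facts_normal {Γ : Type} [Group Γ] {s : Set Γ} (h : Subgroup.closure s = ⊤) :
    Subgroup.normalClosure s = ⊤ := by
  rw [eq_top_iff, ← h]
  exact Subgroup.closure_le_normalClosure

private theorem facts_fin {Γ : Type} [Group Γ] {ι : Type} [Fintype ι] {S : ι → Γ}
    (h : Subgroup.closure (Set.range S) = ⊤) : FinGen Γ := by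
  refine ⟨Fintype.card ι, S ∘ (Fintype.equivFin ι).symm, ?_⟩
  rw [Set.range_comp, Equiv.range_eq_univ, Set.image_univ, h]

private theorem facts_rank {Γ : Type} [Group Γ] (m n : ℕ) (g : Fin m → Γ)
    (χ : Γ →* Multiplicative (Fin n → ℤ))
    (hg : Subgroup.normalClosure (Set.range g) = ⊤) (hχ : Function.Surjective χ) : n ≤ m := by
  -- the span of the images is everything
  let v : Fin m → (Fin n → ℤ) := fun i => Multiplicative.toAdd (χ (g i))
  have hspan : Submodule.span ℤ (Set.range v) = ⊤ := by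
    let A : AddSubgroup (Fin n → ℤ) := (Submodule.span ℤ (Set.range v)).toAddSubgroup
    let N : Subgroup Γ := (AddSubgroup.toSubgroup A).comap χ
    have hN : N.Normal := inferInstance
    have h1 : Set.range g ⊆ N := by
      rintro _ ⟨i, rfl⟩
      exact Submodule.subset_span ⟨i, rfl⟩
    have h2 : N = ⊤ := by
      rw [eq_top_iff, ← hg]
      exact Subgroup.normalClosure_le_normal h1
    rw [eq_top_iff]
    intro x _
    obtain ⟨y, hy⟩ := hχ (Multiplicative.ofAdd x)
    have h3 : y ∈ N := h2 ▸ Subgroup.mem_top y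
    have h4 : Multiplicative.toAdd (χ y) ∈ Submodule.span ℤ (Set.range v) := h3
    rwa [hy] at h4
  have h5 := finrank_range_le_card (R := ℤ) v
  rw [Set.finrank, hspan, finrank_top, Module.finrank_fin_fun, Fintype.card_fin] at h5
  exact h5

theorem p_facts : S_indep → S_facts := by
  intro hind
  refine ⟨?_, ?_, ?_, ?_⟩
  · intro Γ _ h
    have hne : {n : ℕ | ∃ g : Fin n → Γ, Subgroup.normalClosure (Set.range g) = ⊤}.Nonempty := by
      obtain ⟨n, S, hS⟩ := h
      exact ⟨n, S, facts_normal hS⟩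
    exact Nat.sInf_mem hne
  · intro Γ _ n T χ hT hχ
    have h1 : n ∈ {n : ℕ | ∃ g : Fin n → Γ,
        Subgroup.normalClosure (Set.range g) = ⊤} := ⟨T, hT⟩
    refine le_antisymm (Nat.sInf_le h1) ?_
    obtain ⟨g, hg⟩ : nrk Γ ∈ {n : ℕ | ∃ g : Fin n → Γ,
        Subgroup.normalClosure (Set.range g) = ⊤} := Nat.sInf_mem ⟨n, h1⟩
    exact facts_rank (nrk Γ) n g χ hg hχ
  · intro Γ _ _ ι _ S hS
    have hf : FinGen Γ := facts_fin hS
    unfold betti
    rw [dif_pos hf]
    exact hind Γ _ ι _ S hf.choose_spec.choose_spec hS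
  · intro Γ _ _ htf
    by_contra hinf
    rw [not_infinite_iff_finite] at hinf
    obtain ⟨x, hx⟩ := exists_ne (1 : Γ)
    exact hx (htf x (Nat.card Γ) Nat.card_pos pow_card_eq_one')

end Pool.Agent.Lib.MP_fed171_al.FD
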