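import Pool.Agent.Lib.MP_fed171_al.FD.Stm

/-!
# Project FD (MP_fed171_al): faithfulness of the dimension
-/

set_option autoImplicit false

namespace Pool.Agent.Lib.MP_fed171_al.FD

open scoped InnerProductSpace

theorem faith_delta_apply_self {X : Type} (x : X) : (delta x : L2 X) x = 1 := by
  classical
  unfold delta
  rw [lp.single_apply_self]

theorem faith_delta_apply_ne {X : Type} {x y : X} (h : y ≠ x) : (delta x : L2 X) y = 0 := by
  classical
  unfold delta
  rw [lp.single_apply_ne _ _ _ h]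

theorem faith_delta_inner {X : Type} (x : X) (ξ : L2 X) : ⟪(delta x : L2 X), ξ⟫_ℂ = ξ x := by
  classical
  unfold delta
  rw [lp.inner_single_left]
  simp

theorem faith_delta_rho {Γ : Type} [Group Γ] {ι : Type} (i : ι) (γ : Γ) :
    (delta (i, γ) : L2 (ι × Γ)) = rho γ⁻¹ (delta (i, (1 : Γ))) := by
  ext p
  obtain ⟨j, x⟩ := p
  have h : (rho γ⁻¹ (delta (i, (1 : Γ))) : L2 (ι × Γ)) (j, x) =
      (delta (i, (1 : Γ)) : L2 (ι × Γ)) (j, x * γ⁻¹) := rfl
  rw [h]
  by_cases hj : (j, x) = (i, γ)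
  · obtain ⟨rfl, rfl⟩ := Prod.mk.inj hj
    rw [faith_delta_apply_self, mul_inv_cancel, faith_delta_apply_self]
  · rw [faith_delta_apply_ne hj, faith_delta_apply_ne]
    intro h2
    apply hj
    obtain ⟨h3, h4⟩ := Prod.mk.inj h2
    rw [h3, mul_inv_eq_one.1 h4]

theorem p_faith : S_proj → S_faith := by
  intro hproj Γ _ ι _ V hV h0
  have hP := hproj Γ ι V hV
  have h1 : ∀ i : ι, V.topologicalClosure.starProjection (delta (i, (1 : Γ))) = 0 := by
    intro i
    have h2 := (Finset.sum_eq_zero_iff_of_nonneg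
      (fun (i : ι) _ => sq_nonneg ‖V.topologicalClosure.starProjection (delta (i, (1 : Γ)))‖)).1 h0 i
      (Finset.mem_univ i)
    have h3 : ‖V.topologicalClosure.starProjection (delta (i, (1 : Γ)))‖ = 0 := by
      exact pow_eq_zero_iff (two_ne_zero) |>.1 h2
    exact norm_eq_zero.1 h3
  rw [Submodule.eq_bot_iff]
  intro ξ hξ
  ext p
  obtain ⟨i, γ⟩ := p
  have h4 : V.topologicalClosure.starProjection ξ = ξ :=
    Submodule.starProjection_eq_self_iff.2 (V.le_topologicalClosure hξ)
  rw [← faith_delta_inner, ← h4, ← Submodule.inner_starProjection_left_eq_right, faith_delta_rho,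
    hP γ⁻¹ (delta (i, (1 : Γ))), h1 i, map_zero, inner_zero_left]
  rfl

end Pool.Agent.Lib.MP_fed171_al.FD
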