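import Pool.Agent.Lib.MP_fed171_al.FD.Stm2

/-!
# Project FD (MP_fed171_al): Higman relations in a finite group
-/

namespace Pool.Agent.Lib.MP_fed171_al.FD

theorem fq_conj {Q : Type} [Group Q] (x y : Q) (h : y * x * y⁻¹ = x ^ 2) (k : ℕ) :
    y ^ k * x * (y ^ k)⁻¹ = x ^ (2 ^ k) := by
  induction k with
  | zero => simp
  | succ k ih =>
    have h1 : y ^ (k + 1) * x * (y ^ (k + 1))⁻¹ = y * (y ^ k * x * (y ^ k)⁻¹) * y⁻¹ := by
      rw [pow_succ']
      group
    rw [h1, ih, ← conj_pow, h, ← pow_mul, pow_succ']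

theorem fq_dvd {Q : Type} [Group Q] [Finite Q] (x y : Q) (h : y * x * y⁻¹ = x ^ 2) :
    orderOf x ∣ 2 ^ orderOf y - 1 := by
  have h1 := fq_conj x y h (orderOf y)
  rw [pow_orderOf_eq_one, one_mul, inv_one, mul_one] at h1
  apply orderOf_dvd_of_pow_eq_one
  have h2 : 1 ≤ 2 ^ orderOf y := Nat.one_le_two_pow
  have h3 : x ^ (2 ^ orderOf y - 1) * x = 1 * x := by
    rw [← pow_succ, Nat.sub_add_cancel h2, ← h1, one_mul]
  exact mul_right_cancel h3

theorem fq_prime (p n m : ℕ) (hm : m ≠ 0) (hp : p.Prime) (hpn : p ∣ n) (hn : n ∣ 2 ^ m - 1) :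
    ∃ q : ℕ, q.Prime ∧ q < p ∧ q ∣ m := by
  have hfact : Fact p.Prime := ⟨hp⟩
  have h1 : p ∣ 2 ^ m - 1 := hpn.trans hn
  have h2 : (2 : ZMod p) ^ m = 1 := by
    have h3 : ((2 ^ m - 1 : ℕ) : ZMod p) = 0 := (ZMod.natCast_eq_zero_iff _ _).mpr h1
    rw [Nat.cast_sub Nat.one_le_two_pow] at h3
    push_cast at h3
    exact sub_eq_zero.mp h3
  have h4 : orderOf (2 : ZMod p) ∣ m := orderOf_dvd_of_pow_eq_one h2
  have h20 : (2 : ZMod p) ≠ 0 := by
    intro h0
    rw [h0, zero_pow hm] at h2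
    exact zero_ne_one h2
  have h5 : orderOf (2 : ZMod p) ∣ p - 1 := orderOf_dvd_of_pow_eq_one (ZMod.pow_card_sub_one_eq_one h20)
  have h6 : orderOf (2 : ZMod p) ≠ 1 := by
    intro h0
    rw [orderOf_eq_one_iff] at h0
    have h7 : (1 : ZMod p) = 0 := by linear_combination h0
    exact one_ne_zero h7
  have hp1 : 0 < p - 1 := by have := hp.two_le; omega
  refine ⟨(orderOf (2 : ZMod p)).minFac, Nat.minFac_prime h6, ?_,
    (Nat.minFac_dvd _).trans h4⟩
  have h8 : (orderOf (2 : ZMod p)).minFac ≤ orderOf (2 : ZMod p) :=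
    Nat.minFac_le (Nat.pos_of_dvd_of_pos h5 hp1)
  have h9 := Nat.le_of_dvd hp1 h5
  omega

/-- Four elements of a finite group with Higman's relations are trivial. -/
theorem p_fq : S_fq := by
  intro Q _ _ a b c d h1 h2 h3 h4
  have ha := fq_dvd a b h1
  have hb := fq_dvd b c h2
  have hc := fq_dvd c d h3
  have hd := fq_dvd d a h4
  have pa := (orderOf_pos a).ne'
  have pb := (orderOf_pos b).ne'
  have pc := (orderOf_pos c).ne'
  have pd := (orderOf_pos d).ne'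
  have key : ∀ p : ℕ, p.Prime →
      ¬ (p ∣ orderOf a ∨ p ∣ orderOf b ∨ p ∣ orderOf c ∨ p ∣ orderOf d) := by
    intro p
    induction p using Nat.strong_induction_on with
    | _ p ih =>
      intro hp h
      rcases h with h | h | h | h
      · obtain ⟨q, hq, hlt, hdvd⟩ := fq_prime p _ _ pb hp h ha
        exact ih q hlt hq (Or.inr (Or.inl hdvd))
      · obtain ⟨q, hq, hlt, hdvd⟩ := fq_prime p _ _ pc hp h hb
        exact ih q hlt hq (Or.inr (Or.inr (Or.inl hdvd)))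
      · obtain ⟨q, hq, hlt, hdvd⟩ := fq_prime p _ _ pd hp h hc
        exact ih q hlt hq (Or.inr (Or.inr (Or.inr hdvd)))
      · obtain ⟨q, hq, hlt, hdvd⟩ := fq_prime p _ _ pa hp h hd
        exact ih q hlt hq (Or.inl hdvd)
  refine ⟨?_, ?_, ?_, ?_⟩
  · by_contra h
    have h5 : orderOf a ≠ 1 := fun h6 => h (orderOf_eq_one_iff.mp h6)
    exact key _ (Nat.minFac_prime h5) (Or.inl (Nat.minFac_dvd _))
  · by_contra h
    have h5 : orderOf b ≠ 1 := fun h6 => h (orderOf_eq_one_iff.mp h6)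
    exact key _ (Nat.minFac_prime h5) (Or.inr (Or.inl (Nat.minFac_dvd _)))
  · by_contra h
    have h5 : orderOf c ≠ 1 := fun h6 => h (orderOf_eq_one_iff.mp h6)
    exact key _ (Nat.minFac_prime h5) (Or.inr (Or.inr (Or.inl (Nat.minFac_dvd _))))
  · by_contra h
    have h5 : orderOf d ≠ 1 := fun h6 => h (orderOf_eq_one_iff.mp h6)
    exact key _ (Nat.minFac_prime h5) (Or.inr (Or.inr (Or.inr (Nat.minFac_dvd _))))

end Pool.Agent.Lib.MP_fed171_al.FD
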