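import Pool.Agent.Lib.MP_fed171_al.FD.Stm

/-!
# Project FD (MP_fed171_al): gluing cocycles over pushouts and free products
-/

namespace Pool.Agent.Lib.MP_fed171_al.FD

open Monoid

theorem glue_lam_mul {Γ : Type} [Group Γ] (x y : Γ) (v : L2 Γ) :
    lam (x * y) v = lam x (lam y v) := by
  apply lp.ext
  funext z
  show v ((x * y)⁻¹ * z) = v (y⁻¹ * (x⁻¹ * z))
  rw [mul_inv_rev, mul_assoc]

theorem glue_lam_one {Γ : Type} [Group Γ] (v : L2 Γ) : lam (1 : Γ) v = v := by
  apply lp.ext
  funext z
  show v ((1 : Γ)⁻¹ * z) = v z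
  rw [inv_one, one_mul]

theorem glue_one {A Γ : Type} [Group A] [Group Γ] (φ : A →* Γ) (b : A → L2 Γ)
    (hb : IsCocycleVia φ b) : b 1 = 0 := by
  have h := hb 1 1
  rw [map_one, glue_lam_one, mul_one] at h
  exact left_eq_add.mp h

/-- The affine action given by a cocycle. -/
noncomputable def glue_aff {A Γ : Type} [Group A] [Group Γ] (φ : A →* Γ) (b : A → L2 Γ)
    (hb : IsCocycleVia φ b) : A →* Function.End (L2 Γ) where
  toFun x := fun v => lam (φ x) v + b x
  map_one' := by
    funext v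
    show lam (φ 1) v + b 1 = v
    rw [map_one, glue_lam_one, glue_one φ b hb, add_zero]
  map_mul' x y := by
    funext v
    show lam (φ (x * y)) v + b (x * y) = lam (φ x) (lam (φ y) v + b y) + b x
    rw [map_mul, glue_lam_mul, hb x y, map_add]
    abel

theorem glue_aff_apply {A Γ : Type} [Group A] [Group Γ] (φ : A →* Γ) (b : A → L2 Γ)
    (hb : IsCocycleVia φ b) (x : A) (v : L2 Γ) :
    glue_aff φ b hb x v = lam (φ x) v + b x := rfl

/-- A homomorphism to the affine maps gives a cocycle. -/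
theorem glue_coc {A Γ : Type} [Group A] [Group Γ] (ψ : A →* Γ) (F : A →* Function.End (L2 Γ))
    (hF : ∀ x v, F x v = lam (ψ x) v + F x 0) : IsCocycleVia ψ (fun x => F x 0) := by
  intro x y
  show F (x * y) 0 = F x 0 + lam (ψ x) (F y 0)
  rw [map_mul]
  show F x (F y 0) = _
  rw [hF x (F y 0), add_comm]

theorem glue_step {A Γ : Type} [Group A] [Group Γ] (ψ : A →* Γ) (F : A →* Function.End (L2 Γ))
    (x y : A) (hx : ∀ v, F x v = lam (ψ x) v + F x 0) (hy : ∀ v, F y v = lam (ψ y) v + F y 0)
    (v : L2 Γ) : F (x * y) v = lam (ψ (x * y)) v + F (x * y) 0 := by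
  rw [map_mul]
  show F x (F y v) = lam (ψ (x * y)) v + F x (F y 0)
  rw [hx (F y v), hx (F y 0), hy v, map_add, map_mul, glue_lam_mul]
  abel

theorem p_glueP : S_glueP := by
  intro ι _ G H Q _ _ _ φ ψ b hb hag
  obtain ⟨i₀⟩ := (inferInstance : Nonempty ι)
  have hag2 : ∀ i, (glue_aff (ψ.comp (PushoutI.of i)) (b i) (hb i)).comp (φ i) =
      (glue_aff (ψ.comp (PushoutI.of i₀)) (b i₀) (hb i₀)).comp (φ i₀) := by
    intro i
    refine MonoidHom.ext fun h => ?_
    funext v
    show lam (ψ (PushoutI.of i (φ i h))) v + b i (φ i h) =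
      lam (ψ (PushoutI.of i₀ (φ i₀ h))) v + b i₀ (φ i₀ h)
    rw [PushoutI.of_apply_eq_base, PushoutI.of_apply_eq_base, hag i i₀ h]
  set F : PushoutI φ →* Function.End (L2 Q) :=
    PushoutI.lift (fun i => glue_aff (ψ.comp (PushoutI.of i)) (b i) (hb i))
      ((glue_aff (ψ.comp (PushoutI.of i₀)) (b i₀) (hb i₀)).comp (φ i₀)) hag2 with hFdef
  have hof : ∀ i x v, F (PushoutI.of i x) v = lam (ψ (PushoutI.of i x)) v + b i x := by
    intro i x v
    rw [hFdef, PushoutI.lift_of]
    rfl
  have hof0 : ∀ i x, F (PushoutI.of i x) 0 = b i x := by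
    intro i x
    rw [hof, map_zero, zero_add]
  have hF : ∀ x v, F x v = lam (ψ x) v + F x 0 := by
    intro x
    induction x using PushoutI.induction_on with
    | of i g =>
      intro v
      rw [hof0, hof]
    | base h =>
      intro v
      rw [← PushoutI.of_apply_eq_base φ i₀ h, hof0, hof]
    | mul x y hx hy =>
      intro v
      exact glue_step ψ F x y hx hy v
  exact ⟨fun x => F x 0, glue_coc ψ F hF, hof0⟩

theorem p_glueC : S_glueC := by
  intro ι G Q _ _ ψ b hb
  set F : CoprodI G →* Function.End (L2 Q) :=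
    CoprodI.lift (fun i => glue_aff (ψ.comp CoprodI.of) (b i) (hb i)) with hFdef
  have hof : ∀ i (x : G i) v, F (CoprodI.of x) v = lam (ψ (CoprodI.of x)) v + b i x := by
    intro i x v
    rw [hFdef, CoprodI.lift_of]
    rfl
  have hof0 : ∀ i (x : G i), F (CoprodI.of x) 0 = b i x := by
    intro i x
    rw [hof, map_zero, zero_add]
  have hF : ∀ x v, F x v = lam (ψ x) v + F x 0 := by
    intro x
    induction x using CoprodI.induction_on with
    | one =>
      intro v
      rw [map_one, map_one, glue_lam_one]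
      show v = v + 0
      rw [add_zero]
    | of i g =>
      intro v
      rw [hof0, hof]
    | mul x y hx hy =>
      intro v
      exact glue_step ψ F x y hx hy v
  exact ⟨fun x => F x 0, glue_coc ψ F hF, hof0⟩

end Pool.Agent.Lib.MP_fed171_al.FD
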