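import Pool.Agent.Lib.MP_fed171_al.FD.Stm

set_option autoImplicit false

/-!
# Project FD (MP_fed171_al): the construction
-/

namespace Pool.Agent.Lib.MP_fed171_al.FD

open Monoid

section Family

variable {M : ℕ} (H A : Type) [Group H] [Group A] {F : Type} [Group F]

/-- The factors: `H` and `M` copies of `A`. -/
private def group_fam : Option (Fin M) → Type
  | none => H
  | some _ => A

private instance group_inst : ∀ i : Option (Fin M), Group (group_fam H A i)
  | none => inferInstanceAs (Group H)
  | some _ => inferInstanceAs (Group A)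

variable {H A}

private def group_map (jH : F →* H) (jA : F →* A) : ∀ i : Option (Fin M), F →* group_fam H A i
  | none => jH
  | some _ => jA

private theorem group_map_inj {jH : F →* H} {jA : F →* A} (hH : Function.Injective jH)
    (hA : Function.Injective jA) :
    ∀ i : Option (Fin M), Function.Injective (group_map jH jA i)
  | none => hH
  | some _ => hA

/-- The pushout. -/
private abbrev group_G (M : ℕ) (jH : F →* H) (jA : F →* A) : Type :=
  PushoutI (group_map (M := M) jH jA)

private def group_ofH (jH : F →* H) (jA : F →* A) : H →* group_G M jH jA :=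
  PushoutI.of (φ := group_map (M := M) jH jA) none

private def group_ofA (jH : F →* H) (jA : F →* A) (m : Fin M) : A →* group_G M jH jA :=
  PushoutI.of (φ := group_map (M := M) jH jA) (some m)

private theorem group_ofH_j (jH : F →* H) (jA : F →* A) (w : F) :
    group_ofH (M := M) jH jA (jH w) = PushoutI.base (group_map (M := M) jH jA) w :=
  PushoutI.of_apply_eq_base (group_map (M := M) jH jA) none w

private theorem group_ofA_j (jH : F →* H) (jA : F →* A) (m : Fin M) (w : F) :
    group_ofA jH jA m (jA w) = PushoutI.base (group_map (M := M) jH jA) w :=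
  PushoutI.of_apply_eq_base (group_map (M := M) jH jA) (some m) w

private theorem group_top (jH : F →* H) (jA : F →* A) (K : Subgroup (group_G M jH jA))
    (h1 : ∀ x, group_ofH (M := M) jH jA x ∈ K) (h2 : ∀ m x, group_ofA jH jA m x ∈ K) : K = ⊤ := by
  refine (Subgroup.eq_top_iff' K).2 fun x => ?_
  induction x using PushoutI.induction_on with
  | of i g =>
    match i, g with
    | none, g => exact h1 g
    | some m, g => exact h2 m g
  | base h =>
    rw [← group_ofH_j]
    exact h1 _
  | mul x y hx hy => exact K.mul_mem hx hy

end Family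

private theorem group_disc {A : Type} [Group A] [Nontrivial A] {k : ℕ} (g : Fin k → A)
    (hg : Subgroup.normalClosure (Set.range g) = ⊤) :
    ∃ (k' : ℕ) (g' : Fin (k' + 1) → A), (∀ l, g' l ≠ 1) ∧ (∀ l, ∃ l', g' l = g l') ∧
      Subgroup.normalClosure (Set.range g') = ⊤ := by
  classical
  have hex : ∃ l, g l ≠ 1 := by
    by_contra hcon
    push Not at hcon
    have h1 : Subgroup.normalClosure (Set.range g) ≤ ⊥ := by
      refine Subgroup.normalClosure_le_normal ?_
      rintro _ ⟨l, rfl⟩
      exact hcon l
    rw [hg] at h1
    obtain ⟨x, hx⟩ := exists_ne (1 : A)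
    exact hx (h1 (Subgroup.mem_top x))
  obtain ⟨P, hP⟩ : ∃ P : Finset (Fin k), P = Finset.univ.filter (fun l => g l ≠ 1) := ⟨_, rfl⟩
  have hne : P.Nonempty := by
    obtain ⟨l, hl⟩ := hex
    exact ⟨l, by rw [hP, Finset.mem_filter]; exact ⟨Finset.mem_univ _, hl⟩⟩
  have hmem : ∀ l, l ∈ P → g l ≠ 1 := fun l hl => by
    rw [hP, Finset.mem_filter] at hl
    exact hl.2
  obtain ⟨k', hk'⟩ : ∃ k', P.card = k' + 1 :=
    ⟨P.card - 1, by have := hne.card_pos; omega⟩
  obtain ⟨e⟩ : Nonempty (Fin (k' + 1) ≃ P) := ⟨(P.equivFinOfCardEq hk').symm⟩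
  refine ⟨k', fun l => g (e l), fun l => ?_, fun l => ⟨_, rfl⟩, ?_⟩
  · exact hmem _ (e l).2
  · rw [eq_top_iff, ← hg]
    refine Subgroup.normalClosure_le_normal ?_
    rintro _ ⟨l, rfl⟩
    by_cases h : g l = 1
    · rw [h]
      exact Subgroup.one_mem _
    · refine Subgroup.subset_normalClosure ⟨e.symm ⟨l, ?_⟩, ?_⟩
      · rw [hP, Finset.mem_filter]
        exact ⟨Finset.mem_univ _, h⟩
      · simp

private theorem group_zero {A Q : Type} [Group A] [Group Q] (φ : A →* Q) :
    IsCocycleVia φ (fun _ => (0 : L2 Q)) := by
  intro x y
  simp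

section Char

variable {M : ℕ} {H A F Q : Type} [Group H] [Group A] [Group F] [Group Q]

/-- The character `χ` on `H`, trivial on the copies of `A`. -/
private def group_chi (χ : H →* Q) : ∀ i : Option (Fin M), group_fam H A i →* Q
  | none => χ
  | some _ => (1 : A →* Q)

private theorem group_chi_comp (jH : F →* H) (jA : F →* A) (χ : H →* Q)
    (h : ∀ w, χ (jH w) = 1) : ∀ i : Option (Fin M),
    (group_chi (A := A) χ i).comp (group_map jH jA i) = 1
  | none => MonoidHom.ext h
  | some _ => MonoidHom.ext fun _ => rfl

private theorem group_char (jH : F →* H) (jA : F →* A) (χ : H →* Q)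
    (h : ∀ w, χ (jH w) = 1) :
    ∃ X : group_G M jH jA →* Q, ∀ x, X (group_ofH jH jA x) = χ x :=
  ⟨PushoutI.lift (φ := group_map (M := M) jH jA) (group_chi χ) 1
    (group_chi_comp jH jA χ h), fun x =>
      PushoutI.lift_of (φ := group_map (M := M) jH jA) (group_chi χ) 1
        (group_chi_comp jH jA χ h) (i := none) x⟩

end Char

section Coc

variable {M : ℕ} {H A Q : Type} [Group H] [Group A] [Group Q]

/-- The cocycle `c` on the copy `m` of `A`, zero on the other factors. -/
private noncomputable def group_coc (m : Fin M) (c : A → L2 Q) :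
    ∀ i : Option (Fin M), group_fam H A i → L2 Q
  | none => fun _ => 0
  | some m' => fun x => if m' = m then c x else 0

omit [Group H] [Group A] [Group Q] in
private theorem group_coc_self (m : Fin M) (c : A → L2 Q) :
    group_coc (H := H) m c (some m) = c := by
  funext x
  exact if_pos rfl

omit [Group H] [Group A] [Group Q] in
private theorem group_coc_ne {m m' : Fin M} (c : A → L2 Q) (h : m' ≠ m) :
    group_coc (H := H) m c (some m') = fun _ => 0 := by
  funext x
  exact if_neg h

omit [Group Q] in
private theorem group_coc_base {F : Type} [Group F] (jH : F →* H) (jA : F →* A) {m : Fin M}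
    {c : A → L2 Q} (hc : ∀ w, c (jA w) = 0) :
    ∀ (i : Option (Fin M)) (w : F), group_coc m c i (group_map jH jA i w) = 0
  | none, _ => rfl
  | some m', w => by
    by_cases h : m' = m
    · subst h
      rw [group_coc_self]
      exact hc w
    · rw [group_coc_ne c h]

end Coc

theorem p_group : S_A1 → S_Hn → S_tf → S_glueP → S_group := by
  intro hA1 hHn htf hglue A _ _ hA n S hS k g hg N M
  classical
  obtain ⟨k', g', hg'1, hg'2, hg'3⟩ := group_disc g hg
  obtain ⟨A₁, _, ia, s, jA, hia, hjA, hA₁, hgen, hncl, hext⟩ := hA1 A hA k' g' hg'1 hg'3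
  obtain ⟨H, _, jH, T, χ, hjH, hHtf, ⟨nH, SH, hSH⟩, hT, hχ, hχj⟩ :=
    hHn (Option (Fin (k' + 1))) N
  have hinj := group_map_inj (M := M) hjH hjA
  have hGtf : TorsionFree (group_G M jH jA) := by
    refine htf (Option (Fin M)) (group_fam H A₁) (FreeGroup (Option (Fin (k' + 1))))
      (group_map (M := M) jH jA) hinj ?_
    intro i
    match i with
    | none => exact hHtf
    | some _ => exact hA₁
  obtain ⟨X, hX⟩ : ∃ X : group_G M jH jA →* Multiplicative (Fin (N + 1) → ℤ),
      ∀ h, X (group_ofH jH jA h) = χ h := group_char jH jA χ hχj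
  refine ⟨group_G M jH jA, inferInstance, fun m => (group_ofA jH jA m).comp ia, nH + M,
    Fin.append (fun i => group_ofH jH jA (SH i)) (fun m => group_ofA jH jA m s),
    fun i => group_ofH jH jA (T i), X, ?_, hGtf, ?_, ?_, ?_, ?_⟩
  · intro m
    have h1 : Function.Injective (group_ofA (M := M) jH jA m) :=
      PushoutI.of_injective hinj (some m)
    exact h1.comp hia
  · -- generation
    refine group_top jH jA _ ?_ ?_
    · intro x
      have h1 : Subgroup.closure (Set.range SH) ≤ Subgroup.comap (group_ofH (M := M) jH jA)
          (Subgroup.closure (Set.range (Sum.elim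
            (fun p : Fin M × Fin n => ((group_ofA jH jA p.1).comp ia) (S p.2))
            (Fin.append (fun i => group_ofH jH jA (SH i))
              (fun m => group_ofA jH jA m s))))) := by
        rw [Subgroup.closure_le]
        rintro _ ⟨i, rfl⟩
        refine Subgroup.subset_closure ⟨Sum.inr (Fin.castAdd M i), ?_⟩
        simp
      rw [hSH] at h1
      exact h1 (Subgroup.mem_top x)
    · intro m x
      have h2 := hgen (Subgroup.comap (group_ofA (M := M) jH jA m)
          (Subgroup.closure (Set.range (Sum.elim
            (fun p : Fin M × Fin n => ((group_ofA jH jA p.1).comp ia) (S p.2))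
            (Fin.append (fun i => group_ofH jH jA (SH i))
              (fun m => group_ofA jH jA m s)))))) ?_ ?_
      · have h3 : x ∈ (⊤ : Subgroup A₁) := Subgroup.mem_top x
        rw [← h2] at h3
        exact h3
      · rintro _ ⟨a, rfl⟩
        have h1 : Subgroup.closure (Set.range S) ≤
            Subgroup.comap ((group_ofA (M := M) jH jA m).comp ia)
            (Subgroup.closure (Set.range (Sum.elim
              (fun p : Fin M × Fin n => ((group_ofA jH jA p.1).comp ia) (S p.2))
              (Fin.append (fun i => group_ofH jH jA (SH i))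
                (fun m => group_ofA jH jA m s))))) := by
          rw [Subgroup.closure_le]
          rintro _ ⟨i, rfl⟩
          exact Subgroup.subset_closure ⟨Sum.inl (m, i), rfl⟩
        rw [hS] at h1
        exact h1 (Subgroup.mem_top a)
      · refine Subgroup.subset_closure ⟨Sum.inr (Fin.natAdd nH m), ?_⟩
        simp
  · -- normal generation
    have h0 : ∀ x, group_ofH (M := M) jH jA x ∈
        Subgroup.normalClosure (Set.range (fun i => group_ofH (M := M) jH jA (T i))) := by
      intro x
      have h1 : Subgroup.normalClosure (Set.range T) ≤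
          Subgroup.comap (group_ofH (M := M) jH jA)
            (Subgroup.normalClosure (Set.range (fun i => group_ofH (M := M) jH jA (T i)))) := by
        refine Subgroup.normalClosure_le_normal ?_
        rintro _ ⟨i, rfl⟩
        exact Subgroup.subset_normalClosure ⟨i, rfl⟩
      rw [hT] at h1
      exact h1 (Subgroup.mem_top x)
    refine group_top jH jA _ h0 ?_
    intro m x
    have h1 : Subgroup.normalClosure (Set.range jA) ≤
        Subgroup.comap (group_ofA (M := M) jH jA m)
          (Subgroup.normalClosure (Set.range (fun i => group_ofH (M := M) jH jA (T i)))) := by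
      refine Subgroup.normalClosure_le_normal ?_
      rintro _ ⟨w, rfl⟩
      have h2 := h0 (jH w)
      rw [group_ofH_j] at h2
      refine Subgroup.mem_comap.2 ?_
      rw [group_ofA_j]
      exact h2
    rw [hncl] at h1
    exact h1 (Subgroup.mem_top x)
  · -- the character
    intro y
    obtain ⟨h, rfl⟩ := hχ y
    exact ⟨_, hX h⟩
  · -- cocycles
    intro m b hb hbg
    obtain ⟨c₁, hc₁, hc₂, hc₃, hc₄⟩ := hext (group_G M jH jA) (group_ofA jH jA m) b hb
      (fun l => by obtain ⟨l', hl'⟩ := hg'2 l; rw [hl']; exact hbg l')
    obtain ⟨c, hc, hc'⟩ := hglue (Option (Fin M)) (group_fam H A₁)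
      (FreeGroup (Option (Fin (k' + 1)))) (group_G M jH jA) (group_map (M := M) jH jA)
      (MonoidHom.id _) (group_coc m c₁)
      (fun i => by
        match i with
        | none => exact group_zero _
        | some m' =>
          by_cases h : m' = m
          · subst h
            rw [group_coc_self]
            exact hc₁
          · rw [group_coc_ne _ h]
            exact group_zero _)
      (fun i j w => (group_coc_base jH jA hc₄ i w).trans (group_coc_base jH jA hc₄ j w).symm)
    refine ⟨c, fun x y => hc x y, fun a => ?_, fun m' hm' a => ?_, fun i => ?_, fun i => ?_⟩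
    · refine (hc' (some m) (ia a)).trans ?_
      rw [group_coc_self]
      exact hc₂ a
    · refine (hc' (some m') (ia a)).trans ?_
      rw [group_coc_ne _ hm']
    · refine Fin.addCases (fun i => ?_) (fun m' => ?_) i
      · rw [Fin.append_left]
        exact hc' none (SH i)
      · rw [Fin.append_right]
        refine (hc' (some m') s).trans ?_
        by_cases h : m' = m
        · rw [h, group_coc_self]
          exact hc₃
        · rw [group_coc_ne _ h]
    · exact hc' none (T i)

end Pool.Agent.Lib.MP_fed171_al.FD
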