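import Pool.Agent.Lib.MP_fed171_al.FD.Stm

/-!
# Project FD (MP_fed171_al): the group `H`
-/

namespace Pool.Agent.Lib.MP_fed171_al.FD



/-- The endomorphism `a ↦ b`, `b ↦ b a`. -/
private def h_fwd (L : Type) : FreeGroup (L × Bool) →* FreeGroup (L × Bool) :=
  FreeGroup.lift (fun p : L × Bool =>
    match p with
    | (l, false) => FreeGroup.of (l, true)
    | (l, true) => FreeGroup.of (l, true) * FreeGroup.of (l, false))

/-- The endomorphism `a ↦ a⁻¹ b`, `b ↦ a`. -/
private def h_bwd (L : Type) : FreeGroup (L × Bool) →* FreeGroup (L × Bool) :=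
  FreeGroup.lift (fun p : L × Bool =>
    match p with
    | (l, false) => (FreeGroup.of (l, false))⁻¹ * FreeGroup.of (l, true)
    | (l, true) => FreeGroup.of (l, false))

private theorem h_fwd_a (L : Type) (l : L) :
    h_fwd L (FreeGroup.of (l, false)) = FreeGroup.of (l, true) := by
  simp [h_fwd]

private theorem h_fwd_b (L : Type) (l : L) :
    h_fwd L (FreeGroup.of (l, true)) = FreeGroup.of (l, true) * FreeGroup.of (l, false) := by
  simp [h_fwd]

private theorem h_bwd_a (L : Type) (l : L) :
    h_bwd L (FreeGroup.of (l, false)) = (FreeGroup.of (l, false))⁻¹ * FreeGroup.of (l, true) := by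
  simp [h_bwd]

private theorem h_bwd_b (L : Type) (l : L) :
    h_bwd L (FreeGroup.of (l, true)) = FreeGroup.of (l, false) := by
  simp [h_bwd]

private theorem h_bf (L : Type) : (h_bwd L).comp (h_fwd L) = MonoidHom.id _ := by
  ext p
  obtain ⟨l, b⟩ := p
  cases b
  · rw [MonoidHom.comp_apply, h_fwd_a, h_bwd_b, MonoidHom.id_apply]
  · rw [MonoidHom.comp_apply, h_fwd_b, map_mul, h_bwd_b, h_bwd_a, MonoidHom.id_apply,
      mul_inv_cancel_left]

private theorem h_fb (L : Type) : (h_fwd L).comp (h_bwd L) = MonoidHom.id _ := by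
  ext p
  obtain ⟨l, b⟩ := p
  cases b
  · rw [MonoidHom.comp_apply, h_bwd_a, map_mul, map_inv, h_fwd_a, h_fwd_b, MonoidHom.id_apply,
      inv_mul_cancel_left]
  · rw [MonoidHom.comp_apply, h_bwd_b, h_fwd_a, MonoidHom.id_apply]

/-- The automorphism. -/
private def h_aut (L : Type) : MulAut (FreeGroup (L × Bool)) :=
  MonoidHom.toMulEquiv (h_fwd L) (h_bwd L) (h_bf L) (h_fb L)

private theorem h_aut_apply (L : Type) (x : FreeGroup (L × Bool)) : h_aut L x = h_fwd L x := rfl

/-- The action of `ℤ`. -/
private def h_act (L : Type) : Multiplicative ℤ →* MulAut (FreeGroup (L × Bool)) :=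
  zpowersHom _ (h_aut L)

private theorem h_act_one (L : Type) : h_act L (Multiplicative.ofAdd 1) = h_aut L := by
  simp [h_act]

/-- The group `H`. -/
private abbrev h_H (L : Type) : Type := SemidirectProduct (FreeGroup (L × Bool)) (Multiplicative ℤ) (h_act L)

private theorem h_tf (L : Type) : TorsionFree (h_H L) := by
  intro x n hn hx
  have h1 : (SemidirectProduct.rightHom x : Multiplicative ℤ) ^ n = 1 := by
    rw [← map_pow, hx, map_one]
  have h2 : (SemidirectProduct.rightHom x : Multiplicative ℤ) = 1 :=
    (pow_eq_one_iff_left hn.ne').1 h1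
  have h3 : x = SemidirectProduct.inl x.left := by
    have h := SemidirectProduct.inl_left_mul_inr_right x
    have h2' : x.right = 1 := h2
    rw [h2', map_one, mul_one] at h
    exact h.symm
  rw [h3, ← map_pow] at hx
  have h4 : x.left ^ n = 1 := by
    apply SemidirectProduct.inl_injective (φ := h_act L)
    rw [hx, map_one]
  have h5 : x.left = 1 := (pow_eq_one_iff_left hn.ne').1 h4
  rw [h3, h5, map_one]

private theorem h_nc (L : Type) :
    Subgroup.normalClosure {(SemidirectProduct.inr (Multiplicative.ofAdd 1) : h_H L)} = ⊤ := by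
  set t : h_H L := SemidirectProduct.inr (Multiplicative.ofAdd 1) with ht
  set N := Subgroup.normalClosure {t} with hN
  have hNn : N.Normal := Subgroup.normalClosure_normal
  have htN : t ∈ N := Subgroup.subset_normalClosure rfl
  have hcomm : ∀ x : FreeGroup (L × Bool),
      (SemidirectProduct.inl (h_fwd L x * x⁻¹) : h_H L) ∈ N := by
    intro x
    have h1 : (SemidirectProduct.inl (h_fwd L x) : h_H L) =
        t * SemidirectProduct.inl x * t⁻¹ := by
      rw [← h_aut_apply, ← h_act_one, SemidirectProduct.inl_aut, map_inv]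
    rw [map_mul, map_inv, h1, mul_assoc, mul_assoc]
    refine N.mul_mem htN ?_
    rw [← mul_assoc]
    exact hNn.conj_mem _ (N.inv_mem htN) _
  have ha : ∀ l : L, (SemidirectProduct.inl (FreeGroup.of (l, false)) : h_H L) ∈ N := by
    intro l
    have h := hcomm (FreeGroup.of (l, true))
    rw [h_fwd_b, map_mul, map_mul, map_inv] at h
    have h' := hNn.conj_mem _ h (SemidirectProduct.inl (FreeGroup.of (l, true)) : h_H L)⁻¹
    rw [inv_inv] at h'
    have e : ∀ b a : h_H L, b⁻¹ * (b * a * b⁻¹) * b = a := by
      intro b a; group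
    rwa [e] at h'
  have hb : ∀ l : L, (SemidirectProduct.inl (FreeGroup.of (l, true)) : h_H L) ∈ N := by
    intro l
    have h := hcomm (FreeGroup.of (l, false))
    rw [h_fwd_a, map_mul, map_inv] at h
    have h' := N.mul_mem h (ha l)
    rwa [inv_mul_cancel_right] at h'
  have hinl : ∀ x : FreeGroup (L × Bool), (SemidirectProduct.inl x : h_H L) ∈ N := by
    intro x
    have : x ∈ N.comap (SemidirectProduct.inl : FreeGroup (L × Bool) →* h_H L) := by
      have hcl : (⊤ : Subgroup (FreeGroup (L × Bool))) ≤
          N.comap (SemidirectProduct.inl : FreeGroup (L × Bool) →* h_H L) := by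
        rw [← FreeGroup.closure_range_of, Subgroup.closure_le]
        rintro _ ⟨⟨l, b⟩, rfl⟩
        cases b
        · exact ha l
        · exact hb l
      exact hcl (Subgroup.mem_top x)
    exact this
  have hinr : ∀ g : Multiplicative ℤ, (SemidirectProduct.inr g : h_H L) ∈ N := by
    intro g
    have e : g = (Multiplicative.ofAdd (1 : ℤ)) ^ (Multiplicative.toAdd g) := by
      rw [← ofAdd_zsmul]; simp
    rw [e, map_zpow]
    exact N.zpow_mem htN _
  rw [eq_top_iff]
  intro x _
  rw [← SemidirectProduct.inl_left_mul_inr_right x]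
  exact N.mul_mem (hinl _) (hinr _)

private theorem h_fg (L : Type) [Fintype L] : FinGen (h_H L) := by
  classical
  let e := Fintype.equivFin (Option (L × Bool))
  let f : Option (L × Bool) → h_H L := fun o =>
    match o with
    | none => SemidirectProduct.inr (Multiplicative.ofAdd 1)
    | some p => SemidirectProduct.inl (FreeGroup.of p)
  refine ⟨_, f ∘ e.symm, ?_⟩
  rw [Set.range_comp, e.symm.surjective.range_eq, Set.image_univ]
  set N := Subgroup.closure (Set.range f) with hN
  have htN : (SemidirectProduct.inr (Multiplicative.ofAdd 1) : h_H L) ∈ N :=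
    Subgroup.subset_closure ⟨none, rfl⟩
  have hinl : ∀ x : FreeGroup (L × Bool), (SemidirectProduct.inl x : h_H L) ∈ N := by
    intro x
    have : x ∈ N.comap (SemidirectProduct.inl : FreeGroup (L × Bool) →* h_H L) := by
      have hcl : (⊤ : Subgroup (FreeGroup (L × Bool))) ≤
          N.comap (SemidirectProduct.inl : FreeGroup (L × Bool) →* h_H L) := by
        rw [← FreeGroup.closure_range_of, Subgroup.closure_le]
        rintro _ ⟨p, rfl⟩
        exact Subgroup.subset_closure ⟨some p, rfl⟩
      exact hcl (Subgroup.mem_top x)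
    exact this
  have hinr : ∀ g : Multiplicative ℤ, (SemidirectProduct.inr g : h_H L) ∈ N := by
    intro g
    have e : g = (Multiplicative.ofAdd (1 : ℤ)) ^ (Multiplicative.toAdd g) := by
      rw [← ofAdd_zsmul]; simp
    rw [e, map_zpow]
    exact N.zpow_mem htN _
  rw [eq_top_iff]
  intro x _
  rw [← SemidirectProduct.inl_left_mul_inr_right x]
  exact N.mul_mem (hinl _) (hinr _)

/-- The group `H`. -/
theorem p_H : S_H := by
  intro L _
  refine ⟨h_H L, inferInstance,
    (SemidirectProduct.inl : FreeGroup (L × Bool) →* h_H L).comp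
      (FreeGroup.map (fun l : L => (l, false))),
    SemidirectProduct.inr (Multiplicative.ofAdd 1),
    SemidirectProduct.rightHom, ?_, h_tf L, h_fg L, h_nc L, ?_, ?_⟩
  · rw [MonoidHom.coe_comp]
    exact SemidirectProduct.inl_injective.comp
      (FreeGroup.map_injective (fun a b h => (Prod.mk.inj h).1))
  · exact SemidirectProduct.rightHom_inr _
  · intro w
    exact SemidirectProduct.rightHom_inl _

end Pool.Agent.Lib.MP_fed171_al.FD
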