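import Pool.Agent.Lib.MP_fed171_al.FD.Stm2

/-!
# Project FD (MP_fed171_al): the group of Higman
-/

namespace Pool.Agent.Lib.MP_fed171_al.FD

open Monoid

/-- The two base maps. -/
private def hig_phi {E : Type} [Group E] (a c : E) :
    ∀ i : Bool, FreeGroup Bool →* (fun _ : Bool => E) i
  | true => FreeGroup.lift (fun i : Bool => if i then a else c)
  | false => FreeGroup.lift (fun i : Bool => if i then c else a)

private theorem hig_phi_inj {E : Type} [Group E] (a c : E)
    (hinj : Function.Injective (FreeGroup.lift (fun i : Bool => if i then a else c))) :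
    ∀ i, Function.Injective (hig_phi a c i)
  | true => hinj
  | false => by
    have h : (FreeGroup.lift (fun i : Bool => if i then c else a) : FreeGroup Bool →* E) =
        (FreeGroup.lift (fun i : Bool => if i then a else c)).comp (FreeGroup.map not) := by
      ext i
      cases i <;> simp
    show Function.Injective (FreeGroup.lift (fun i : Bool => if i then c else a))
    rw [h]
    exact hinj.comp (FreeGroup.map_injective Bool.not_injective)

private theorem hig_mem {H : Type} [Group H] (N : Subgroup H) (hN : N.Normal) {x y : H}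
    (h : y * x * y⁻¹ = x ^ 2) (hy : y ∈ N) : x ∈ N := by
  have h1 : x = y * (x * y⁻¹ * x⁻¹) := by
    have h2 : y * x * y⁻¹ * x⁻¹ = x := by
      rw [h, pow_two, mul_inv_cancel_right]
    rw [← mul_assoc, ← mul_assoc]
    exact h2.symm
  rw [h1]
  exact N.mul_mem hy (hN.conj_mem _ (N.inv_mem hy) x)

/-- Higman's relations. -/
private theorem hig_core {H : Type} [Group H] (a₁ a₂ a₃ a₄ : H)
    (h1 : a₂ * a₁ * a₂⁻¹ = a₁ ^ 2) (h2 : a₃ * a₂ * a₃⁻¹ = a₂ ^ 2)
    (h3 : a₄ * a₃ * a₄⁻¹ = a₃ ^ 2) (h4 : a₁ * a₄ * a₁⁻¹ = a₄ ^ 2)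
    (hg : ∀ K : Subgroup H, a₁ ∈ K → a₂ ∈ K → a₃ ∈ K → a₄ ∈ K → K = ⊤) (hfq : S_fq) :
    FinGen H ∧ Subgroup.normalClosure {a₁} = ⊤ ∧ NoFin H := by
  refine ⟨⟨4, ![a₁, a₂, a₃, a₄], ?_⟩, ?_, ?_⟩
  · apply hg
    · exact Subgroup.subset_closure ⟨0, rfl⟩
    · exact Subgroup.subset_closure ⟨1, rfl⟩
    · exact Subgroup.subset_closure ⟨2, rfl⟩
    · exact Subgroup.subset_closure ⟨3, rfl⟩
  · have hn : (Subgroup.normalClosure {a₁}).Normal := Subgroup.normalClosure_normal
    have m1 : a₁ ∈ Subgroup.normalClosure {a₁} := Subgroup.subset_normalClosure rfl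
    have m4 := hig_mem _ hn h4 m1
    have m3 := hig_mem _ hn h3 m4
    have m2 := hig_mem _ hn h2 m3
    exact hg _ m1 m2 m3 m4
  · intro N hN
    have hfin : N.normalCore.FiniteIndex := inferInstance
    have hfinite : Finite (H ⧸ N.normalCore) := inferInstance
    have key := hfq (H ⧸ N.normalCore) (a₁ : H ⧸ N.normalCore) (a₂ : H ⧸ N.normalCore)
      (a₃ : H ⧸ N.normalCore) (a₄ : H ⧸ N.normalCore)
      (congrArg (QuotientGroup.mk : H → H ⧸ N.normalCore) h1)
      (congrArg (QuotientGroup.mk : H → H ⧸ N.normalCore) h2)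
      (congrArg (QuotientGroup.mk : H → H ⧸ N.normalCore) h3)
      (congrArg (QuotientGroup.mk : H → H ⧸ N.normalCore) h4)
    obtain ⟨k1, k2, k3, k4⟩ := key
    exact hg N (N.normalCore_le ((QuotientGroup.eq_one_iff _).1 k1))
      (N.normalCore_le ((QuotientGroup.eq_one_iff _).1 k2))
      (N.normalCore_le ((QuotientGroup.eq_one_iff _).1 k3))
      (N.normalCore_le ((QuotientGroup.eq_one_iff _).1 k4))

theorem p_Hig : S_E → S_tf → S_fq → S_Hig := by
  intro hE htf hfq
  obtain ⟨E, instE, a, b, c, hEtf, hba, hcb, hgen, hinj⟩ := hE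
  have hφ := hig_phi_inj a c hinj
  have e1 : (PushoutI.of (φ := hig_phi a c) true a) =
      PushoutI.of (φ := hig_phi a c) false c := by
    have t1 := PushoutI.of_apply_eq_base (hig_phi a c) true (FreeGroup.of true)
    have t2 := PushoutI.of_apply_eq_base (hig_phi a c) false (FreeGroup.of true)
    have s1 : hig_phi a c true (FreeGroup.of true) = a := by
      simp [hig_phi]
    have s2 : hig_phi a c false (FreeGroup.of true) = c := by
      simp [hig_phi]
    rw [s1] at t1
    rw [s2] at t2
    exact t1.trans t2.symm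
  have e3 : (PushoutI.of (φ := hig_phi a c) true c) =
      PushoutI.of (φ := hig_phi a c) false a := by
    have t1 := PushoutI.of_apply_eq_base (hig_phi a c) true (FreeGroup.of false)
    have t2 := PushoutI.of_apply_eq_base (hig_phi a c) false (FreeGroup.of false)
    have s1 : hig_phi a c true (FreeGroup.of false) = c := by
      simp [hig_phi]
    have s2 : hig_phi a c false (FreeGroup.of false) = a := by
      simp [hig_phi]
    rw [s1] at t1
    rw [s2] at t2
    exact t1.trans t2.symm
  have hcore := hig_core (PushoutI.of (φ := hig_phi a c) true a)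
    (PushoutI.of (φ := hig_phi a c) true b) (PushoutI.of (φ := hig_phi a c) true c)
    (PushoutI.of (φ := hig_phi a c) false b)
    (by rw [← map_mul, ← map_inv, ← map_mul, ← map_pow]; exact congrArg _ hba)
    (by rw [← map_mul, ← map_inv, ← map_mul, ← map_pow]; exact congrArg _ hcb)
    (by rw [e3, ← map_mul, ← map_inv, ← map_mul, ← map_pow]; exact congrArg _ hba)
    (by rw [e1, ← map_mul, ← map_inv, ← map_mul, ← map_pow]; exact congrArg _ hcb)
    (by
      intro K k1 k2 k3 k4
      have c1 : K.comap (PushoutI.of (φ := hig_phi a c) true) = ⊤ := by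
        rw [eq_top_iff, ← hgen, Subgroup.closure_le]
        intro x hx
        rcases hx with rfl | rfl | rfl
        · exact k1
        · exact k2
        · exact k3
      have c2 : K.comap (PushoutI.of (φ := hig_phi a c) false) = ⊤ := by
        rw [eq_top_iff, ← hgen, Subgroup.closure_le]
        intro x hx
        rcases hx with rfl | rfl | rfl
        · show _ ∈ K
          rw [← e3]
          exact k3
        · exact k4
        · show _ ∈ K
          rw [← e1]
          exact k1
      have c3 : ∀ i x, PushoutI.of (φ := hig_phi a c) i x ∈ K := by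
        intro i x
        cases i with
        | true => exact (Subgroup.mem_top x |> (c1.symm ▸ ·) : x ∈ K.comap _)
        | false => exact (Subgroup.mem_top x |> (c2.symm ▸ ·) : x ∈ K.comap _)
      rw [eq_top_iff]
      intro x _
      induction x using PushoutI.induction_on with
      | of i g => exact c3 i g
      | base h =>
        rw [← PushoutI.of_apply_eq_base (hig_phi a c) true h]
        exact c3 _ _
      | mul x y hx hy => exact K.mul_mem (hx trivial) (hy trivial))
    hfq
  exact ⟨PushoutI (hig_phi a c), inferInstance, PushoutI.base (hig_phi a c), _,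
    PushoutI.base_injective hφ,
    htf Bool (fun _ => E) (FreeGroup Bool) (hig_phi a c) hφ (fun _ => hEtf), hcore.1, hcore.2.1,
    hcore.2.2⟩

end Pool.Agent.Lib.MP_fed171_al.FD
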