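import Pool.Agent.Lib.MP_fed171_al.FD.Stm

/-!
# Project FD (MP_fed171_al): independence of the generating family
-/

set_option autoImplicit false

namespace Pool.Agent.Lib.MP_fed171_al.FD

theorem indep_lam_one {Γ : Type} [Group Γ] (v : L2 Γ) : lam (1 : Γ) v = v := by
  apply lp.ext
  funext x
  have h : (lam (1 : Γ) v) x = v ((1 : Γ)⁻¹ * x) := pull_apply _ _ v x
  rw [h]
  simp

theorem indep_cocycle_one {Γ : Type} [Group Γ] {b : Γ → L2 Γ} (hb : IsCocycle b) : b 1 = 0 := by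
  have h := hb 1 1
  rw [mul_one, indep_lam_one] at h
  exact left_eq_add.mp h

theorem indep_vanish {Γ : Type} [Group Γ] {b : Γ → L2 Γ} (hb : IsCocycle b) {κ : Type}
    (S : κ → Γ) (hS : Subgroup.closure (Set.range S) = ⊤) (h0 : ∀ j, b (S j) = 0) (x : Γ) :
    b x = 0 := by
  have hx : x ∈ Subgroup.closure (Set.range S) := by rw [hS]; trivial
  refine Subgroup.closure_induction (p := fun y _ => b y = 0) ?_ ?_ ?_ ?_ hx
  · rintro y ⟨j, rfl⟩
    exact h0 j
  · exact indep_cocycle_one hb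
  · intro y z _ _ hy hz
    rw [hb y z, hy, hz, map_zero, add_zero]
  · intro y _ hy
    have h := hb y⁻¹ y
    rw [inv_mul_cancel, indep_cocycle_one hb, hy, map_zero, add_zero] at h
    exact h.symm

theorem indep_ext {Γ : Type} [Group Γ] {ι : Type} {ξ η : L2 (ι × Γ)}
    (h : ∀ i, coord i ξ = coord i η) : ξ = η := by
  apply lp.ext
  funext p
  obtain ⟨i, x⟩ := p
  have h1 : (coord i ξ) x = ξ (i, x) := pull_apply _ _ ξ x
  have h2 : (coord i η) x = η (i, x) := pull_apply _ _ η x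
  rw [← h1, ← h2, h i]

theorem p_indep : S_eval → S_inj → S_Zclosed → S_ZBinv → S_bettiOf → S_indep := by
  intro hev hinj hcl hinv hbet Γ _ _ ι κ _ _ S S' hS hS'
  rw [hbet Γ ι S hS, hbet Γ κ S' hS']
  obtain ⟨T, hT, hTb⟩ := hev Γ ι κ S S' (fun j => by rw [hS]; trivial)
  obtain ⟨T', -, hTb'⟩ := hev Γ κ ι S' S (fun j => by rw [hS']; trivial)
  have h1 : vdim ((Z S ∅).map T.toLinearMap) = vdim (Z S ∅) := by
    refine hinj Γ ι κ T (Z S ∅) hT (hinv Γ ι S ∅).1 (hcl Γ ι S ∅ hS) ?_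
    rintro ξ ⟨b, hb, hc, -⟩ hz
    have h0 : ∀ j, b (S' j) = 0 := by
      intro j
      rw [← hTb ξ b hb hc j, hz, map_zero]
    have hall := indep_vanish hb S' hS' h0
    apply indep_ext
    intro i
    rw [hc i, hall, map_zero]
  have h2 : (Z S ∅).map T.toLinearMap = Z S' ∅ := by
    apply le_antisymm
    · rintro η ⟨ξ, ⟨b, hb, hc, -⟩, rfl⟩
      exact ⟨b, hb, fun j => hTb ξ b hb hc j, fun x hx => hx.elim⟩
    · rintro η ⟨b, hb, hc, -⟩
      refine ⟨T' η, ⟨b, hb, fun i => hTb' η b hb hc i, fun x hx => hx.elim⟩, ?_⟩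
      apply indep_ext
      intro j
      have h3 := hTb (T' η) b hb (fun i => hTb' η b hb hc i) j
      rw [hc j]
      exact h3
  rw [← h1, h2]

end Pool.Agent.Lib.MP_fed171_al.FD
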