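import Pool.Agent.Lib.MP_fed171_al.FD.Stm

/-!
# Project FD (MP_fed171_al): injective equivariant operators preserve the dimension
-/

set_option autoImplicit false

namespace Pool.Agent.Lib.MP_fed171_al.FD

theorem p_inj : S_proj → S_rn → S_compl → S_inj := by
  intro hproj hrn hcompl Γ _ ι κ _ _ T V hT hV hc hinj
  have hP := hproj Γ ι V hV
  have hcl : V.topologicalClosure = V := hc.submodule_topologicalClosure_eq
  have hmem : ∀ ξ, V.topologicalClosure.starProjection ξ ∈ V := by
    intro ξ
    exact hcl.le (Submodule.starProjection_apply_mem V.topologicalClosure ξ)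
  have horth : V.topologicalClosureᗮ = Vᗮ := by rw [hcl]
  have hself : ∀ ξ ∈ V, V.topologicalClosure.starProjection ξ = ξ := fun ξ hξ =>
    Submodule.starProjection_eq_self_iff.2 (V.le_topologicalClosure hξ)
  have hE : Equi (T ∘L V.topologicalClosure.starProjection) := by
    intro γ ξ
    rw [ContinuousLinearMap.comp_apply, ContinuousLinearMap.comp_apply, hP γ ξ, hT]
  have h1 := hrn Γ ι κ _ hE
  have hker : LinearMap.ker (T ∘L V.topologicalClosure.starProjection).toLinearMap = Vᗮ := by
    ext ξ
    rw [LinearMap.mem_ker]
    have h2 : (T ∘L V.topologicalClosure.starProjection).toLinearMap ξ =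
      T (V.topologicalClosure.starProjection ξ) := rfl
    rw [h2]
    constructor
    · intro h3
      have h4 := hinj _ (hmem ξ) h3
      have h5 := (Submodule.starProjection_apply_eq_zero_iff
        (K := V.topologicalClosure) (v := ξ)).1 h4
      exact horth.le h5
    · intro h3
      have h4 : V.topologicalClosure.starProjection ξ = 0 := by
        rw [Submodule.starProjection_apply_eq_zero_iff]
        exact horth.ge h3
      rw [h4, map_zero]
  have hran : LinearMap.range (T ∘L V.topologicalClosure.starProjection).toLinearMap =
      V.map T.toLinearMap := by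
    ext η
    constructor
    · rintro ⟨ξ, rfl⟩
      exact ⟨_, hmem ξ, rfl⟩
    · rintro ⟨ξ, hξ, rfl⟩
      refine ⟨ξ, ?_⟩
      show T (V.topologicalClosure.starProjection ξ) = T ξ
      rw [hself ξ hξ]
  rw [hker, hran, hcompl] at h1
  linarith

end Pool.Agent.Lib.MP_fed171_al.FD
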