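import Pool.Agent.Lib.MP_fed171_al.FD.Stm

set_option autoImplicit false

/-!
# Project FD, piece isom: isometries do not decrease the length of projections
-/

namespace Pool.Agent.Lib.MP_fed171_al.FD

private theorem isom_norm {E : Type} [NormedAddCommGroup E]
    [InnerProductSpace ℂ E] (x : E) : ‖inner ℂ x x‖ = ‖x‖ * ‖x‖ := by
  rw [inner_self_eq_norm_sq_to_K, norm_pow]
  simp [sq]

theorem p_isom : S_isom := by
  intro X Y Θ V W e h
  have hP : V.topologicalClosure.starProjection e ∈ V.topologicalClosure :=
    Submodule.starProjection_apply_mem _ _
  have hmem : Θ (V.topologicalClosure.starProjection e) ∈ W.topologicalClosure := by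
    have h1 : V.topologicalClosure ≤ (W.topologicalClosure).comap Θ.toLinearMap := by
      refine Submodule.topologicalClosure_minimal _ (fun v hv => ?_) ?_
      · exact W.le_topologicalClosure (h v hv)
      · exact W.isClosed_topologicalClosure.preimage Θ.continuous
    exact h1 hP
  have h2 : inner ℂ (V.topologicalClosure.starProjection e)
      (V.topologicalClosure.starProjection e) =
      inner ℂ (W.topologicalClosure.starProjection (Θ e))
        (Θ (V.topologicalClosure.starProjection e)) := by
    rw [Submodule.inner_starProjection_left_eq_right, Submodule.inner_starProjection_left_eq_right,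
      Submodule.starProjection_eq_self_iff.2 hP, Submodule.starProjection_eq_self_iff.2 hmem,
      Θ.inner_map_map]
  have h3 : ‖V.topologicalClosure.starProjection e‖ * ‖V.topologicalClosure.starProjection e‖ ≤
      ‖W.topologicalClosure.starProjection (Θ e)‖ *
        ‖V.topologicalClosure.starProjection e‖ := by
    have h4 := norm_inner_le_norm (𝕜 := ℂ) (W.topologicalClosure.starProjection (Θ e))
      (Θ (V.topologicalClosure.starProjection e))
    rw [← h2, Θ.norm_map] at h4
    have h5 := isom_norm (V.topologicalClosure.starProjection e)
    rw [h5] at h4
    exact h4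
  rcases (norm_nonneg (V.topologicalClosure.starProjection e)).eq_or_lt with h6 | h6
  · rw [← h6]
    exact norm_nonneg _
  · exact le_of_mul_le_mul_right h3 h6

end Pool.Agent.Lib.MP_fed171_al.FD
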