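import Pool.Agent.Lib.MP_fed171_al.FD.Stm

set_option autoImplicit false

/-!
# Project FD (MP_fed171_al): complement, monotonicity, additivity of the dimension
-/

namespace Pool.Agent.Lib.MP_fed171_al.FD

open Submodule

private theorem lin_congr {E : Type*} [NormedAddCommGroup E] [InnerProductSpace ℂ E]
    {K K' : Submodule ℂ E} [K.HasOrthogonalProjection] [K'.HasOrthogonalProjection]
    (h : K = K') (x : E) : K.starProjection x = K'.starProjection x := by
  subst h
  rfl

private theorem lin_delta {X : Type} (x : X) : ‖delta x‖ = 1 := by
  classical
  have h : delta x = lp.single 2 x (1 : ℂ) := by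
    unfold delta
    congr
  rw [h, lp.norm_single (by norm_num)]
  simp

theorem p_compl : S_compl := by
  intro Γ _ ι _ V
  unfold vdim
  have h : ∀ i : ι, ‖Vᗮ.topologicalClosure.starProjection (delta (i, (1 : Γ)))‖ ^ 2 =
      1 - ‖V.topologicalClosure.starProjection (delta (i, (1 : Γ)))‖ ^ 2 := by
    intro i
    have h1 := Submodule.norm_sq_eq_add_norm_sq_starProjection (𝕜 := ℂ) (delta (i, (1 : Γ)))
      V.topologicalClosure
    have h2 : Vᗮ.topologicalClosure = V.topologicalClosureᗮ := by
      rw [Submodule.orthogonal_closure]
      exact IsClosed.submodule_topologicalClosure_eq (Submodule.isClosed_orthogonal V)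
    rw [lin_congr h2]
    rw [lin_delta] at h1
    linarith
  rw [Finset.sum_congr rfl (fun i _ => h i), Finset.sum_sub_distrib]
  simp

theorem p_mono : S_mono := by
  intro Γ _ ι _ V W hVW
  unfold vdim
  refine Finset.sum_le_sum fun i _ => ?_
  refine pow_le_pow_left₀ (norm_nonneg _) ?_ 2
  have h1 : V.topologicalClosure ≤ W.topologicalClosure := Submodule.topologicalClosure_mono hVW
  have h2 := Submodule.starProjection_comp_starProjection_of_le h1
  have h3 : V.topologicalClosure.starProjection (delta (i, (1 : Γ))) =
      V.topologicalClosure.starProjection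
        (W.topologicalClosure.starProjection (delta (i, (1 : Γ)))) := by
    exact (DFunLike.congr_fun h2 _).symm
  rw [h3]
  exact Submodule.norm_starProjection_apply_le _ _

theorem p_add : S_add := by
  intro Γ _ ι _ V W hVW hW
  unfold vdim
  rw [← Finset.sum_add_distrib]
  refine Finset.sum_congr rfl fun i _ => ?_
  obtain ⟨e, he⟩ : ∃ e, e = delta (i, (1 : Γ)) := ⟨_, rfl⟩
  rw [← he]
  have hVW' : V.topologicalClosure ≤ W.topologicalClosure := Submodule.topologicalClosure_mono hVW
  have hWc : W.topologicalClosure = W := IsClosed.submodule_topologicalClosure_eq hW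
  have hUc : (W ⊓ Vᗮ).topologicalClosure = W ⊓ Vᗮ := by
    refine IsClosed.submodule_topologicalClosure_eq ?_
    exact hW.inter (Submodule.isClosed_orthogonal V)
  have hV1 : ∀ x ∈ V, inner ℂ x (e - V.topologicalClosure.starProjection e) = 0 := by
    intro x hx
    have h := Submodule.sub_starProjection_mem_orthogonal (K := V.topologicalClosure) e
    exact (Submodule.mem_orthogonal _ _).1 h x (Submodule.le_topologicalClosure _ hx)
  have hW1 : ∀ x ∈ W, inner ℂ x (e - W.topologicalClosure.starProjection e) = 0 := by
    intro x hx
    have h := Submodule.sub_starProjection_mem_orthogonal (K := W.topologicalClosure) e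
    exact (Submodule.mem_orthogonal _ _).1 h x (Submodule.le_topologicalClosure _ hx)
  have hPV : V.topologicalClosure.starProjection e ∈ V.topologicalClosure :=
    Submodule.starProjection_apply_mem _ _
  have hPW : W.topologicalClosure.starProjection e ∈ W.topologicalClosure :=
    Submodule.starProjection_apply_mem _ _
  have hU : (W ⊓ Vᗮ).topologicalClosure.starProjection e =
      W.topologicalClosure.starProjection e - V.topologicalClosure.starProjection e := by
    refine Submodule.eq_starProjection_of_mem_orthogonal ?_ ?_
    · rw [hUc]
      refine ⟨?_, ?_⟩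
      · have h1 := Submodule.sub_mem _ hPW (hVW' hPV)
        exact hWc.le h1
      · refine (Submodule.mem_orthogonal _ _).2 fun x hx => ?_
        have h1 := hV1 x hx
        have h2 := hW1 x (hVW hx)
        have h3 : W.topologicalClosure.starProjection e - V.topologicalClosure.starProjection e =
            (e - V.topologicalClosure.starProjection e) -
              (e - W.topologicalClosure.starProjection e) := by abel
        rw [h3, inner_sub_right, h1, h2, sub_zero]
    · rw [hUc]
      refine (Submodule.mem_orthogonal _ _).2 fun y hy => ?_
      have h1 := hW1 y hy.1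
      have h2 : inner ℂ y (V.topologicalClosure.starProjection e) = 0 := by
        have h3 : y ∈ V.topologicalClosureᗮ := by
          rw [Submodule.orthogonal_closure]
          exact hy.2
        exact (Submodule.mem_orthogonal' _ _).1 h3 _ hPV
      have h3 : e - (W.topologicalClosure.starProjection e -
          V.topologicalClosure.starProjection e) =
          (e - W.topologicalClosure.starProjection e) +
            V.topologicalClosure.starProjection e := by abel
      rw [h3, inner_add_right, h1, h2, add_zero]
  have horth : inner ℂ (V.topologicalClosure.starProjection e)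
      ((W ⊓ Vᗮ).topologicalClosure.starProjection e) = 0 := by
    have h1 : (W ⊓ Vᗮ).topologicalClosure.starProjection e ∈ (W ⊓ Vᗮ).topologicalClosure :=
      Submodule.starProjection_apply_mem _ _
    have h2 : (W ⊓ Vᗮ).topologicalClosure.starProjection e ∈ V.topologicalClosureᗮ := by
      rw [Submodule.orthogonal_closure]
      exact (hUc.le h1).2
    exact (Submodule.mem_orthogonal _ _).1 h2 _ hPV
  have hsum : W.topologicalClosure.starProjection e = V.topologicalClosure.starProjection e +
      (W ⊓ Vᗮ).topologicalClosure.starProjection e := by
    rw [hU]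
    abel
  have h := norm_add_sq_eq_norm_sq_add_norm_sq_of_inner_eq_zero _ _ horth
  rw [← hsum] at h
  rw [sq, sq, sq]
  exact h

end Pool.Agent.Lib.MP_fed171_al.FD
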