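import Pool.Agent.Lib.MP_fed171_al.FD.Stm

/-!
# Project FD, piece lower: the lower bound
-/

namespace Pool.Agent.Lib.MP_fed171_al.FD

/-- The values of the extension by zero. -/
private noncomputable def lower_fn {X Y : Type} (f : X → Y) (ξ : L2 X) : Y → ℂ :=
  Function.extend f (fun x => (ξ x : ℂ)) (fun _ => 0)

private theorem lower_fn_apply {X Y : Type} (f : X → Y) (hf : Function.Injective f) (ξ : L2 X)
    (x : X) : lower_fn f ξ (f x) = ξ x := hf.extend_apply _ _ _

private theorem lower_fn_apply' {X Y : Type} (f : X → Y) (ξ : L2 X)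
    (y : Y) (h : y ∉ Set.range f) : lower_fn f ξ y = 0 :=
  Function.extend_apply' _ _ _ (fun ⟨a, ha⟩ => h ⟨a, ha⟩)

private theorem lower_mem {X Y : Type} (f : X → Y) (hf : Function.Injective f) (ξ : L2 X) :
    Memℓp (fun y : Y => lower_fn f ξ y) 2 := by
  have h := lp.memℓp ξ
  rw [memℓp_gen_iff (by norm_num)] at h ⊢
  have h1 : ∀ y ∉ Set.range f, ‖lower_fn f ξ y‖ ^ (2 : ENNReal).toReal = 0 := by
    intro y hy
    rw [lower_fn_apply' f ξ y hy]
    simp
  rw [← hf.summable_iff h1]
  refine h.congr fun x => ?_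
  simp only [Function.comp_apply, lower_fn_apply f hf ξ x]

/-- Extension by zero along an injective map, as a linear isometry. -/
private noncomputable def lower_ext {X Y : Type} (f : X → Y) (hf : Function.Injective f) :
    L2 X →ₗᵢ[ℂ] L2 Y where
  toFun ξ := ⟨fun y => lower_fn f ξ y, lower_mem f hf ξ⟩
  map_add' ξ η := by
    apply lp.ext
    funext y
    change lower_fn f (ξ + η) y = lower_fn f ξ y + lower_fn f η y
    by_cases h : y ∈ Set.range f
    · obtain ⟨x, rfl⟩ := h
      rw [lower_fn_apply f hf, lower_fn_apply f hf, lower_fn_apply f hf]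
      rfl
    · rw [lower_fn_apply' f _ y h, lower_fn_apply' f _ y h, lower_fn_apply' f _ y h, add_zero]
  map_smul' c ξ := by
    apply lp.ext
    funext y
    change lower_fn f (c • ξ) y = c • lower_fn f ξ y
    by_cases h : y ∈ Set.range f
    · obtain ⟨x, rfl⟩ := h
      rw [lower_fn_apply f hf, lower_fn_apply f hf]
      rfl
    · rw [lower_fn_apply' f _ y h, lower_fn_apply' f _ y h, smul_zero]
  norm_map' ξ := by
    have h2 : (0 : ℝ) < (2 : ENNReal).toReal := by norm_num
    have h3 : ‖(⟨fun y => lower_fn f ξ y, lower_mem f hf ξ⟩ : L2 Y)‖ ^ (2 : ENNReal).toReal =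
        ‖ξ‖ ^ (2 : ENNReal).toReal := by
      rw [lp.norm_rpow_eq_tsum h2, lp.norm_rpow_eq_tsum h2]
      change ∑' y, ‖lower_fn f ξ y‖ ^ (2 : ENNReal).toReal = _
      have h4 : Function.support (fun y => ‖lower_fn f ξ y‖ ^ (2 : ENNReal).toReal) ⊆
          Set.range f := by
        intro y hy
        by_contra h
        apply hy
        change ‖lower_fn f ξ y‖ ^ (2 : ENNReal).toReal = 0
        rw [lower_fn_apply' f ξ y h]
        simp
      rw [← hf.tsum_eq h4]
      refine tsum_congr fun x => ?_
      rw [lower_fn_apply f hf]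
    exact Real.rpow_left_injOn h2.ne' (norm_nonneg _) (norm_nonneg _) h3

private theorem lower_ext_apply {X Y : Type} (f : X → Y) (hf : Function.Injective f) (ξ : L2 X)
    (x : X) : lower_ext f hf ξ (f x) = ξ x := lower_fn_apply f hf ξ x

private theorem lower_ext_apply' {X Y : Type} (f : X → Y) (hf : Function.Injective f) (ξ : L2 X)
    (y : Y) (h : y ∉ Set.range f) : lower_ext f hf ξ y = 0 := lower_fn_apply' f ξ y h

private theorem lower_delta_self {X : Type} (x : X) : (delta x : L2 X) x = 1 := by
  let _ := Classical.decEq X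
  unfold delta
  exact lp.single_apply_self _ _ _

private theorem lower_delta_ne {X : Type} (x y : X) (h : y ≠ x) : (delta x : L2 X) y = 0 := by
  let _ := Classical.decEq X
  unfold delta
  exact lp.single_apply_ne _ _ _ h

private theorem lower_ext_delta {X Y : Type} (f : X → Y) (hf : Function.Injective f) (x : X) :
    lower_ext f hf (delta x) = delta (f x) := by
  apply lp.ext
  funext y
  by_cases h : y ∈ Set.range f
  · obtain ⟨x', rfl⟩ := h
    rw [lower_ext_apply]
    by_cases h1 : x' = x
    · rw [h1, lower_delta_self, lower_delta_self]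
    · rw [lower_delta_ne _ _ h1, lower_delta_ne _ _ (fun h2 => h1 (hf h2))]
  · rw [lower_ext_apply' f hf _ y h, lower_delta_ne]
    rintro rfl
    exact h ⟨x, rfl⟩

private theorem lower_ext_lam {A G : Type} [Group A] [Group G] (φ : A →* G)
    (hφ : Function.Injective φ) (x : A) (η : L2 A) :
    lower_ext φ hφ (lam x η) = lam (φ x) (lower_ext φ hφ η) := by
  apply lp.ext
  funext y
  change lower_ext φ hφ (lam x η) y = lower_ext φ hφ η ((φ x)⁻¹ * y)
  by_cases h : y ∈ Set.range φ
  · obtain ⟨a, rfl⟩ := h
    have h1 : (φ x)⁻¹ * φ a = φ (x⁻¹ * a) := by rw [map_mul, map_inv]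
    rw [lower_ext_apply, h1, lower_ext_apply]
    rfl
  · rw [lower_ext_apply' φ hφ _ y h, lower_ext_apply']
    rintro ⟨a, ha⟩
    exact h ⟨x * a, by rw [map_mul, ha, mul_inv_cancel_left]⟩

theorem p_lower : S_isom → S_lower := by
  intro hisom A G _ _ n M k r S g φ R hφ hc
  set V := Z S (Set.range g) with hV
  set SG : (Fin M × Fin n) ⊕ Fin r → G :=
    Sum.elim (fun p : Fin M × Fin n => φ p.1 (S p.2)) R with hSG
  set W := Z SG ∅ with hW
  -- the injective maps
  have hinj : ∀ m : Fin M, Function.Injective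
      (fun p : Fin n × A => ((Sum.inl (m, p.1) : (Fin M × Fin n) ⊕ Fin r), φ m p.2)) := by
    intro m p q h
    have h1 := (Prod.mk.inj h).1
    have h2 := (Prod.mk.inj h).2
    have h3 := (Prod.mk.inj (Sum.inl.inj h1)).2
    exact Prod.ext h3 (hφ m h2)
  have key : ∀ (m : Fin M) (i : Fin n),
      ‖V.topologicalClosure.starProjection (delta (i, (1 : A)))‖ ≤
      ‖W.topologicalClosure.starProjection
        (delta ((Sum.inl (m, i) : (Fin M × Fin n) ⊕ Fin r), (1 : G)))‖ := by
    intro m i
    have h1 := hisom _ _ (lower_ext _ (hinj m)) V W (delta (i, (1 : A))) ?_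
    · have h2 := lower_ext_delta _ (hinj m) (i, (1 : A))
      simp only [map_one] at h2
      rw [h2] at h1
      exact h1
    · rintro ξ ⟨b, hb, hb1, hb2⟩
      have hA : IsCocycleVia (φ m) (fun a => lower_ext (φ m) (hφ m) (b a)) := by
        intro x y
        change lower_ext (φ m) (hφ m) (b (x * y)) = _
        rw [hb x y, map_add, lower_ext_lam]
      have hB : ∀ l, (fun a => lower_ext (φ m) (hφ m) (b a)) (g l) = 0 := by
        intro l
        change lower_ext (φ m) (hφ m) (b (g l)) = _
        rw [hb2 (g l) ⟨l, rfl⟩, map_zero]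
      obtain ⟨c, hc1, hc2, hc3, hc4⟩ := hc m _ hA hB
      · refine ⟨c, hc1, ?_, fun x hx => hx.elim⟩
        rintro (⟨m', i'⟩ | j)
        · change coord _ _ = c (φ m' (S i'))
          by_cases hm : m' = m
          · subst hm
            rw [hc2, ← hb1 i']
            apply lp.ext
            funext y
            change lower_ext _ (hinj m') ξ ((Sum.inl (m', i') : (Fin M × Fin n) ⊕ Fin r), y) = _
            by_cases h : y ∈ Set.range (φ m')
            · obtain ⟨a, rfl⟩ := h
              rw [lower_ext_apply]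
              exact lower_ext_apply _ (hinj m') ξ (i', a)
            · rw [lower_ext_apply' (φ m') (hφ m') _ y h]
              apply lower_ext_apply'
              rintro ⟨p, hp⟩
              exact h ⟨p.2, (Prod.mk.inj hp).2⟩
          · rw [hc3 m' hm]
            apply lp.ext
            funext y
            change lower_ext _ (hinj m) ξ ((Sum.inl (m', i') : (Fin M × Fin n) ⊕ Fin r), y) = 0
            apply lower_ext_apply'
            rintro ⟨p, hp⟩
            exact hm ((Prod.mk.inj (Sum.inl.inj (Prod.mk.inj hp).1)).1).symm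
        · change coord _ _ = c (R j)
          rw [hc4]
          apply lp.ext
          funext y
          change lower_ext _ (hinj m) ξ ((Sum.inr j : (Fin M × Fin n) ⊕ Fin r), y) = 0
          apply lower_ext_apply'
          rintro ⟨p, hp⟩
          exact Sum.inl_ne_inr (Prod.mk.inj hp).1
  unfold vdim
  rw [Fintype.sum_sum_type, Fintype.sum_prod_type]
  have h1 : (M : ℝ) * ∑ i : Fin n, ‖V.topologicalClosure.starProjection (delta (i, (1 : A)))‖ ^ 2 ≤
      ∑ m : Fin M, ∑ i : Fin n, ‖W.topologicalClosure.starProjection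
        (delta ((Sum.inl (m, i) : (Fin M × Fin n) ⊕ Fin r), (1 : G)))‖ ^ 2 := by
    have h2 : (M : ℝ) * ∑ i : Fin n,
        ‖V.topologicalClosure.starProjection (delta (i, (1 : A)))‖ ^ 2 =
        ∑ m : Fin M, ∑ i : Fin n,
          ‖V.topologicalClosure.starProjection (delta (i, (1 : A)))‖ ^ 2 := by
      rw [Finset.sum_const, Finset.card_univ, Fintype.card_fin, nsmul_eq_mul]
    rw [h2]
    refine Finset.sum_le_sum fun m _ => Finset.sum_le_sum fun i _ => ?_
    exact pow_le_pow_left₀ (norm_nonneg _) (key m i) 2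
  have h3 : 0 ≤ ∑ j : Fin r, ‖W.topologicalClosure.starProjection
      (delta ((Sum.inr j : (Fin M × Fin n) ⊕ Fin r), (1 : G)))‖ ^ 2 :=
    Finset.sum_nonneg fun j _ => sq_nonneg _
  linarith

end Pool.Agent.Lib.MP_fed171_al.FD
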