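import Pool.Agent.Lib.MP_fed171_al.FD.Stm
import Pool.Agent.Lib.MP_fed171_al.FD.P.eval

set_option autoImplicit false

/-!
# Project FD (MP_fed171_al): piece MAIN
-/

namespace Pool.Agent.Lib.MP_fed171_al.FD

private theorem main_fin {Γ : Type} [Group Γ] {ι : Type} [Fintype ι] {S : ι → Γ}
    (h : Subgroup.closure (Set.range S) = ⊤) : FinGen Γ := by
  refine ⟨Fintype.card ι, S ∘ (Fintype.equivFin ι).symm, ?_⟩
  rw [Set.range_comp, Equiv.range_eq_univ, Set.image_univ, h]

/-- a cocycle that vanishes on generators vanishes -/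
private theorem main_van {A : Type} [Group A] {n : ℕ} {S : Fin n → A}
    (hS : Subgroup.closure (Set.range S) = ⊤) {b : A → L2 A} (hb : IsCocycle b)
    (h0 : ∀ i, b (S i) = 0) (x : A) : b x = 0 := by
  have hx : x ∈ Subgroup.closure (Set.range S) := by
    rw [hS]
    exact Subgroup.mem_top x
  induction hx using Subgroup.closure_induction with
  | mem x hx =>
    obtain ⟨i, rfl⟩ := hx
    exact h0 i
  | one => exact eval_one hb
  | mul x y _ _ hx hy => rw [hb x y, hx, hy, map_zero, add_zero]
  | inv x _ hx => rw [eval_inv hb, hx, map_zero, neg_zero]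

/-- the family of values of a cocycle -/
private theorem main_mem {A : Type} [Group A] {n k : ℕ} (S : Fin n → A) (g : Fin k → A)
    {b : A → L2 A} (hb : IsCocycle b) (hbg : ∀ l, b (g l) = 0) :
    ∃ ξ : L2 (Fin n × A), ξ ∈ Z S (Set.range g) ∧ ∀ i, coord i ξ = b (S i) := by
  classical
  have h : ∀ i, coord i (∑ j, eval_push j (b (S j))) = b (S i) := by
    intro i
    rw [map_sum, Finset.sum_eq_single i]
    · exact eval_coord_push_self i _
    · intro j _ hj
      exact eval_coord_push_ne j i (Ne.symm hj) _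
    · intro h
      exact absurd (Finset.mem_univ i) h
  refine ⟨∑ j, eval_push j (b (S j)), ⟨b, hb, h, ?_⟩, h⟩
  rintro _ ⟨l, rfl⟩
  exact hbg l

private theorem main_nonneg {A : Type} [Group A] {n : ℕ} (V : Submodule ℂ (L2 (Fin n × A))) :
    0 ≤ vdim V := by
  unfold vdim
  exact Finset.sum_nonneg fun _ _ => by positivity

section Ext

variable {A G : Type} [Group A] [Group G] (φ : A →* G) (hφ : Function.Injective φ)

/-- extension by zero along an injective homomorphism -/
private noncomputable def main_ext : L2 A →L[ℂ] L2 G :=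
  ContinuousLinearMap.adjoint (pull φ hφ)

private theorem main_ext_apply (v : L2 A) (a : A) : main_ext φ hφ v (φ a) = v a := by
  classical
  rw [← eval_inner_delta (φ a), main_ext, ContinuousLinearMap.adjoint_inner_right,
    ← eval_inner_delta a v]
  congr 1
  apply lp.ext
  funext y
  change (delta (φ a) : L2 G) (φ y) = (delta a : L2 A) y
  rw [eval_delta_apply, eval_delta_apply]
  by_cases h : y = a
  · subst h
    simp
  · rw [if_neg h, if_neg (fun h' => h (hφ h'))]

private theorem main_ext_zero (v : L2 A) (y : G) (hy : ∀ a, φ a ≠ y) :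
    main_ext φ hφ v y = 0 := by
  classical
  rw [← eval_inner_delta y, main_ext, ContinuousLinearMap.adjoint_inner_right]
  have h1 : (pull φ hφ (delta y) : L2 A) = 0 := by
    apply lp.ext
    funext a
    change (delta y : L2 G) (φ a) = 0
    rw [eval_delta_apply, if_neg (hy a)]
  rw [h1, inner_zero_left]

private theorem main_ext_lam (x : A) (v : L2 A) :
    main_ext φ hφ (lam x v) = lam (φ x) (main_ext φ hφ v) := by
  apply lp.ext
  funext y
  change main_ext φ hφ (lam x v) y = main_ext φ hφ v ((φ x)⁻¹ * y)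
  by_cases h : ∃ a, φ a = y
  · obtain ⟨a, rfl⟩ := h
    rw [← map_inv, ← map_mul, main_ext_apply, main_ext_apply]
    rfl
  · push Not at h
    rw [main_ext_zero φ hφ _ _ h, main_ext_zero]
    intro a ha
    refine h (x * a) ?_
    rw [map_mul, ha, mul_inv_cancel_left]

private theorem main_ext_inj (v : L2 A) (h : main_ext φ hφ v = 0) : v = 0 := by
  apply lp.ext
  funext a
  rw [← main_ext_apply φ hφ v a, h]
  rfl

end Ext

theorem p_main : S_group → S_lower → S_faith → S_ZBinv → S_bettiOf → S_facts → S_main := by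
  intro hgroup hlower hfaith hZB hbetti hfacts A _ hA hAfg k g hg b hb hbg hbx
  classical
  obtain ⟨n, S, hS⟩ := hAfg
  obtain ⟨x, hx⟩ := hbx
  have hx1 : x ≠ 1 := by
    rintro rfl
    exact hx (eval_one hb)
  have : Nontrivial A := ⟨⟨x, 1, hx1⟩⟩
  refine ⟨fun N C => ?_, ?_⟩
  · -- the dimension of `V` is positive
    have hV : 0 < vdim (Z S (Set.range g)) := by
      rcases (main_nonneg (Z S (Set.range g))).lt_or_eq with h | h
      · exact h
      · exfalso
        have hbot := hfaith A (Fin n) (Z S (Set.range g)) (hZB A (Fin n) S (Set.range g)).1 h.symm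
        obtain ⟨ξ, hξ, hξ'⟩ := main_mem S g hb hbg
        rw [hbot, Submodule.mem_bot] at hξ
        refine hx (main_van hS hb (fun i => ?_) x)
        rw [← hξ', hξ, map_zero]
    obtain ⟨M, hM⟩ : ∃ M : ℕ, (C + 1) / vdim (Z S (Set.range g)) < M := exists_nat_gt _
    have hM' : C < (M : ℝ) * vdim (Z S (Set.range g)) - 1 := by
      rw [div_lt_iff₀ hV] at hM
      linarith
    obtain ⟨G, _, φ, r, R, T, χ, hφ, hGtf, hgen, hT, hχ, hcoc⟩ :=
      hgroup A hA n S hS k g hg N M
    have hGnt : Nontrivial G := by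
      obtain ⟨y, hy⟩ := hχ (Multiplicative.ofAdd (fun _ => 1))
      refine ⟨⟨y, 1, ?_⟩⟩
      rintro rfl
      rw [map_one] at hy
      have h1 : (0 : Fin (N + 1) → ℤ) = fun _ => 1 := congrArg Multiplicative.toAdd hy
      exact zero_ne_one (congrFun h1 0)
    have hGinf : Infinite G := hfacts.2.2.2 G hGtf
    refine ⟨G, inferInstance, hGtf, hGnt, main_fin hgen, hfacts.2.1 G (N + 1) T χ hT hχ, ?_⟩
    rw [hfacts.2.2.1 G _ _ hgen, hbetti G _ _ hgen]
    have hlow := hlower A G n M k r S g φ R hφ (fun m b' hb' hbg' => by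
      obtain ⟨c, h1, h2, h3, h4, _⟩ := hcoc m b' hb' hbg'
      exact ⟨c, h1, h2, h3, h4⟩)
    linarith
  · obtain ⟨G, _, φ, r, R, T, χ, hφ, hGtf, hgen, hT, hχ, hcoc⟩ :=
      hgroup A hA n S hS k g hg 0 1
    obtain ⟨c, h1, h2, h3, h4, h5⟩ := hcoc 0 (fun a => main_ext (φ 0) (hφ 0) (b a))
      (fun u v => by
        change main_ext (φ 0) (hφ 0) (b (u * v)) = main_ext (φ 0) (hφ 0) (b u) +
          lam (φ 0 u) (main_ext (φ 0) (hφ 0) (b v))
        rw [hb u v, map_add, main_ext_lam])
      (fun l => by
        change main_ext (φ 0) (hφ 0) (b (g l)) = 0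
        rw [hbg l, map_zero])
    refine ⟨G, inferInstance, T 0, c, hGtf, ?_, main_fin hgen, ?_, h1, h5 0, φ 0 x, ?_⟩
    · exact (hφ 0).nontrivial
    · have hr : Set.range T = {T 0} := by
        ext y
        constructor
        · rintro ⟨i, rfl⟩
          have hi : i = 0 := Fin.ext (by have := i.isLt; simp only [Fin.val_zero]; omega)
          rw [hi]
          exact Set.mem_singleton _
        · rintro rfl
          exact ⟨0, rfl⟩
      rw [← hr]
      exact hT
    · rw [h2 x]
      intro h0
      exact hx (main_ext_inj (φ 0) (hφ 0) _ h0)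

end Pool.Agent.Lib.MP_fed171_al.FD
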