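import Pool.Agent.Lib.MP_fed171_al.FD.Stm2
import Pool.Agent.Lib.MP_fed171_al.FD.P.eval

set_option autoImplicit false

/-!
# Project FD (MP_fed171_al): groups of normal rank one without finite quotients
-/

namespace Pool.Agent.Lib.MP_fed171_al.FD

open Monoid

private theorem mainh_fin {Γ : Type} [Group Γ] {ι : Type} [Fintype ι] {S : ι → Γ}
    (h : Subgroup.closure (Set.range S) = ⊤) : FinGen Γ := by
  refine ⟨Fintype.card ι, S ∘ (Fintype.equivFin ι).symm, ?_⟩
  rw [Set.range_comp, Equiv.range_eq_univ, Set.image_univ, h]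

/-- a cocycle that vanishes on generators vanishes -/
private theorem mainh_van {A : Type} [Group A] {n : ℕ} {S : Fin n → A}
    (hS : Subgroup.closure (Set.range S) = ⊤) {b : A → L2 A} (hb : IsCocycle b)
    (h0 : ∀ i, b (S i) = 0) (x : A) : b x = 0 := by
  have hx : x ∈ Subgroup.closure (Set.range S) := by
    rw [hS]
    exact Subgroup.mem_top x
  induction hx using Subgroup.closure_induction with
  | mem x hx =>
    obtain ⟨i, rfl⟩ := hx
    exact h0 i
  | one => exact eval_one hb
  | mul x y _ _ hx hy => rw [hb x y, hx, hy, map_zero, add_zero]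
  | inv x _ hx => rw [eval_inv hb, hx, map_zero, neg_zero]

/-- the family of values of a cocycle -/
private theorem mainh_mem {A : Type} [Group A] {n k : ℕ} (S : Fin n → A) (g : Fin k → A)
    {b : A → L2 A} (hb : IsCocycle b) (hbg : ∀ l, b (g l) = 0) :
    ∃ ξ : L2 (Fin n × A), ξ ∈ Z S (Set.range g) ∧ ∀ i, coord i ξ = b (S i) := by
  classical
  have h : ∀ i, coord i (∑ j, eval_push j (b (S j))) = b (S i) := by
    intro i
    rw [map_sum, Finset.sum_eq_single i]
    · exact eval_coord_push_self i _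
    · intro j _ hj
      exact eval_coord_push_ne j i (Ne.symm hj) _
    · intro h
      exact absurd (Finset.mem_univ i) h
  refine ⟨∑ j, eval_push j (b (S j)), ⟨b, hb, h, ?_⟩, h⟩
  rintro _ ⟨l, rfl⟩
  exact hbg l

private theorem mainh_nonneg {A : Type} [Group A] {n : ℕ} (V : Submodule ℂ (L2 (Fin n × A))) :
    0 ≤ vdim V := by
  unfold vdim
  exact Finset.sum_nonneg fun _ _ => by positivity

theorem p_mainH : S_groupH → S_Hig → S_lower → S_faith → S_ZBinv → S_bettiOf → S_facts →
    S_mainH := by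
  intro hgroup hHig hlower hfaith hZB hbetti hfacts A _ hA hAfg k g hg b hb hbg hbx C
  classical
  obtain ⟨n, S, hS⟩ := hAfg
  obtain ⟨x, hx⟩ := hbx
  have hx1 : x ≠ 1 := by
    rintro rfl
    exact hx (eval_one hb)
  haveI : Nontrivial A := ⟨⟨x, 1, hx1⟩⟩
  -- the dimension of `V` is positive
  have hV : 0 < vdim (Z S (Set.range g)) := by
    rcases (mainh_nonneg (Z S (Set.range g))).lt_or_eq with h | h
    · exact h
    · exfalso
      have hbot := hfaith A (Fin n) (Z S (Set.range g)) (hZB A (Fin n) S (Set.range g)).1 h.symm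
      obtain ⟨ξ, hξ, hξ'⟩ := mainh_mem S g hb hbg
      rw [hbot, Submodule.mem_bot] at hξ
      refine hx (mainh_van hS hb (fun i => ?_) x)
      rw [← hξ', hξ, map_zero]
  obtain ⟨M, hM⟩ : ∃ M : ℕ, (C + 1) / vdim (Z S (Set.range g)) < M := exists_nat_gt _
  have hM' : C < (M : ℝ) * vdim (Z S (Set.range g)) - 1 := by
    rw [div_lt_iff₀ hV] at hM
    linarith
  obtain ⟨H, _, j, t, hj, hHtf, hHfg, ht, hHno⟩ := hHig
  obtain ⟨G, _, φ, r, R, i, hφ, hi, hGtf, hgen, hN, hcoc⟩ :=
    hgroup A hA n S hS k g hg M H j hj hHtf hHfg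
  haveI hHnt : Nontrivial H := hj.nontrivial
  haveI hGnt : Nontrivial G := hi.nontrivial
  haveI hGinf : Infinite G := hfacts.2.2.2 G hGtf
  have hnc : Subgroup.normalClosure {i t} = ⊤ := by
    refine hN _ Subgroup.normalClosure_normal ?_
    rintro _ ⟨h, rfl⟩
    have h1 : Subgroup.normalClosure {t} ≤
        Subgroup.comap i (Subgroup.normalClosure {i t}) := by
      refine Subgroup.normalClosure_le_normal ?_
      rintro _ rfl
      exact Subgroup.subset_normalClosure rfl
    rw [ht] at h1
    exact h1 (Subgroup.mem_top h)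
  have hnrk : nrk G = 1 := by
    have h1 : nrk G ≤ 1 := by
      refine Nat.sInf_le ⟨fun _ => i t, ?_⟩
      rw [Set.range_const]
      exact hnc
    have h2 : nrk G ≠ 0 := by
      intro h0
      obtain ⟨g₀, hg₀⟩ := hfacts.1 G (mainh_fin hgen)
      haveI : IsEmpty (Fin (nrk G)) := by rw [h0]; infer_instance
      rw [Set.range_eq_empty, Subgroup.normalClosure_empty] at hg₀
      exact bot_ne_top hg₀
    omega
  have hno : NoFin G := by
    intro N hNfi
    haveI := hNfi
    have hfi : (Subgroup.comap i N.normalCore).FiniteIndex := by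
      refine ⟨?_⟩
      rw [Subgroup.index_comap]
      exact (inferInstance : (N.normalCore.subgroupOf i.range).FiniteIndex).index_ne_zero
    have h1 : Subgroup.comap i N.normalCore = ⊤ := hHno _ hfi
    have h2 : N.normalCore = ⊤ := by
      refine hN _ (Subgroup.normalCore_normal N) ?_
      rintro _ ⟨h, rfl⟩
      have h3 : h ∈ Subgroup.comap i N.normalCore := by
        rw [h1]
        exact Subgroup.mem_top h
      exact h3
    rw [eq_top_iff, ← h2]
    exact Subgroup.normalCore_le N
  refine ⟨G, inferInstance, hGtf, hGnt, mainh_fin hgen, hnrk, hno, ?_⟩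
  rw [hfacts.2.2.1 G _ _ hgen, hbetti G _ _ hgen]
  have hlow := hlower A G n M k r S g φ R hφ (fun m b' hb' hbg' => by
    obtain ⟨c, h1, h2, h3, h4, _⟩ := hcoc m b' hb' hbg'
    exact ⟨c, h1, h2, h3, h4⟩)
  linarith

end Pool.Agent.Lib.MP_fed171_al.FD
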