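import Pool.Agent.Lib.MP_fed171_al.FD.Stm

/-!
# Project FD, piece `pp`

Ping-pong in the free product of a torsion-free group and the infinite cyclic group.
-/

namespace Pool.Agent.Lib.MP_fed171_al.FD

open Monoid

section General

open scoped Function Pointwise

/-- Ping-pong with all powers of the generators at once. -/
theorem pp_free {J : Type} [Nontrivial J] {G : Type} [Group G] (a : J → G)
    {α : Type} [MulAction G α] (X : J → Set α)
    (hne : ∀ i, (X i).Nonempty) (hdis : Pairwise (Disjoint on X))
    (hpp : ∀ i j, i ≠ j → ∀ n : ℤ, n ≠ 0 → ∀ x ∈ X j, a i ^ n • x ∈ X i) :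
    Function.Injective (FreeGroup.lift a) := by
  have h1 : FreeGroup.lift a =
      (CoprodI.lift fun i => FreeGroup.lift fun _ => a i).comp
        (@freeGroupEquivCoprodI J).toMonoidHom := by
    ext i
    simp
  rw [h1, MonoidHom.coe_comp]
  refine Function.Injective.comp ?_ (MulEquiv.injective freeGroupEquivCoprodI)
  change Function.Injective (CoprodI.lift fun i : J => FreeGroup.lift fun _ => a i)
  refine CoprodI.lift_injective_of_ping_pong
    (f := fun i : J => (FreeGroup.lift fun _ : Unit => a i)) ?_ X hne hdis ?_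
  · right
    obtain ⟨i, -⟩ := exists_pair_ne J
    refine ⟨i, ?_⟩
    rw [FreeGroup.freeGroupUnitEquivInt.cardinal_eq, Cardinal.mk_denumerable]
    exact Cardinal.natCast_le_aleph0
  · intro i j hij h hh
    obtain ⟨n, rfl⟩ : ∃ n : ℤ, h = FreeGroup.of () ^ n :=
      ⟨FreeGroup.freeGroupUnitEquivInt h, (FreeGroup.freeGroupUnitEquivInt.symm_apply_apply h).symm⟩
    have hn : n ≠ 0 := by
      rintro rfl
      exact hh (zpow_zero _)
    rw [map_zpow, FreeGroup.lift_apply_of]
    rintro y ⟨x, hx, rfl⟩
    exact hpp i j hij n hn x hx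

end General

section Words

variable {M : Bool → Type} [∀ i, Group (M i)] [∀ i, DecidableEq (M i)]

theorem pp_other (i j : Bool) (hij : j ≠ i) (w : CoprodI.Word M)
    (h : (CoprodI.Word.equivPair i w).head ≠ 1) : (CoprodI.Word.equivPair j w).head = 1 := by
  by_cases hf : w.fstIdx = some i
  · have h2 : w.fstIdx ≠ some j := by
      rw [hf]
      intro h3
      exact hij (Option.some.inj h3).symm
    rw [CoprodI.Word.equivPair_eq_of_fstIdx_ne h2]
  · exact absurd (by rw [CoprodI.Word.equivPair_eq_of_fstIdx_ne hf]) h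

theorem pp_head (i : Bool) (m : M i) (w : CoprodI.Word M) :
    (CoprodI.Word.equivPair i (CoprodI.of m • w)).head =
      m * (CoprodI.Word.equivPair i w).head := by
  rw [CoprodI.Word.equivPair_smul_same]

theorem pp_main {J : Type} [Nontrivial J] (β β' : J → Bool) (hβ : ∀ j, β' j ≠ β j)
    (p : ∀ j, M (β j)) (c : ∀ j, M (β' j))
    (hc : ∀ j (n : ℤ), n ≠ 0 → c j ^ n ≠ 1)
    (hdis : ∀ j j', j ≠ j' → ∀ w : CoprodI.Word M, (CoprodI.Word.equivPair (β j) w).head = p j →
      (CoprodI.Word.equivPair (β j') w).head = p j' → False)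
    (a : J → CoprodI M)
    (ha : ∀ j, a j = CoprodI.of (p j) * CoprodI.of (c j) * (CoprodI.of (p j))⁻¹) :
    Function.Injective (FreeGroup.lift a) := by
  refine pp_free a (α := CoprodI.Word M)
    (fun j => {w | (CoprodI.Word.equivPair (β j) w).head = p j}) ?_ ?_ ?_
  · intro j
    refine ⟨CoprodI.of (p j) • CoprodI.Word.empty, ?_⟩
    change (CoprodI.Word.equivPair (β j) (CoprodI.of (p j) • CoprodI.Word.empty)).head = p j
    rw [pp_head, CoprodI.Word.equivPair_eq_of_fstIdx_ne (w := CoprodI.Word.empty)
      (by simp [CoprodI.Word.fstIdx])]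
    exact mul_one _
  · intro j j' hjj
    rw [Function.onFun, Set.disjoint_left]
    intro w h1 h2
    exact hdis j j' hjj w h1 h2
  · intro j j' hjj n hn x hx
    change (CoprodI.Word.equivPair (β j) (a j ^ n • x)).head = p j
    have hx1 : (CoprodI.Word.equivPair (β j) x).head ≠ p j := fun h => hdis j j' hjj x h hx
    rw [ha j, conj_zpow, ← map_zpow, ← map_inv, mul_smul, mul_smul, pp_head]
    have h1 : (CoprodI.Word.equivPair (β j) (CoprodI.of (p j)⁻¹ • x)).head ≠ 1 := by
      rw [pp_head]
      intro h
      exact hx1 (inv_mul_eq_one.mp h).symm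
    have h2 := pp_other (β j) (β' j) (hβ j) _ h1
    have h3 : (CoprodI.Word.equivPair (β' j)
        (CoprodI.of (c j ^ n) • CoprodI.of (p j)⁻¹ • x)).head ≠ 1 := by
      rw [pp_head, h2, mul_one]
      exact hc j n hn
    rw [pp_other (β' j) (β j) (hβ j).symm _ h3, mul_one]

end Words

/-- The factor of the conjugating letter. -/
def pp_b {k : ℕ} : Option (Fin (k + 1)) → Bool
  | none => true
  | some _ => false

/-- The factor of the conjugated letter. -/
def pp_b' {k : ℕ} : Option (Fin (k + 1)) → Bool
  | none => false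
  | some _ => true

/-- The conjugating letters. -/
def pp_p {A : Type} [Group A] {k : ℕ} (g : Fin (k + 1) → A) :
    ∀ j : Option (Fin (k + 1)), Fam A (pp_b j)
  | none => (g 0 : A)
  | some l => (Multiplicative.ofAdd ((l : ℕ) + 1 : ℤ) : Multiplicative ℤ)

/-- The conjugated letters. -/
def pp_c {A : Type} [Group A] {k : ℕ} (g : Fin (k + 1) → A) :
    ∀ j : Option (Fin (k + 1)), Fam A (pp_b' j)
  | none => (Multiplicative.ofAdd (1 : ℤ) : Multiplicative ℤ)
  | some l => (g l : A)

theorem pp_tf {A : Type} [Group A] (hA : TorsionFree A) (x : A) (hx : x ≠ 1) (n : ℤ)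
    (hn : n ≠ 0) : x ^ n ≠ 1 := by
  intro h
  rcases Int.natAbs_eq n with h1 | h1
  · rw [h1, zpow_natCast] at h
    exact hx (hA x n.natAbs (Int.natAbs_pos.mpr hn) h)
  · rw [h1, zpow_neg, inv_eq_one, zpow_natCast] at h
    exact hx (hA x n.natAbs (Int.natAbs_pos.mpr hn) h)

theorem pp_z (m n : ℤ) (hm : m ≠ 0) (hn : n ≠ 0) :
    (Multiplicative.ofAdd m : Multiplicative ℤ) ^ n ≠ 1 := by
  intro h
  rw [← ofAdd_zsmul] at h
  have h2 : n • m = 0 := congrArg Multiplicative.toAdd h
  rw [smul_eq_mul] at h2
  rcases mul_eq_zero.mp h2 with h3 | h3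
  · exact hn h3
  · exact hm h3

theorem p_pp : S_pp := by
  intro A _ hA k g hg
  classical
  have hs : ∀ l : Fin (k + 1), ((l : ℕ) + 1 : ℤ) ≠ 0 := fun l => by omega
  have hp : ∀ j, pp_p g j ≠ 1 := by
    intro j
    cases j with
    | none => exact hg 0
    | some l =>
      change (Multiplicative.ofAdd ((l : ℕ) + 1 : ℤ) : Multiplicative ℤ) ≠ 1
      intro h
      exact pp_z _ 1 (hs l) one_ne_zero (by rw [zpow_one]; exact h)
  refine pp_main (M := Fam A) pp_b pp_b' ?_ (pp_p g) (pp_c g) ?_ ?_ (uu g) ?_
  · intro j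
    cases j with
    | none => exact Bool.false_ne_true
    | some l => exact Bool.false_ne_true.symm
  · intro j n hn
    cases j with
    | none => exact pp_z 1 n one_ne_zero hn
    | some l => exact pp_tf hA (g l) (hg l) n hn
  · intro j j' hjj w h1 h2
    cases j with
    | none =>
      cases j' with
      | none => exact hjj rfl
      | some l' =>
        have h3 : (CoprodI.Word.equivPair true w).head ≠ 1 := by
          intro h
          exact hp none (h1.symm.trans h)
        have h4 := pp_other true false Bool.false_ne_true w h3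
        exact hp (some l') (h2.symm.trans h4)
    | some l =>
      cases j' with
      | none =>
        have h3 : (CoprodI.Word.equivPair true w).head ≠ 1 := by
          intro h
          exact hp none (h2.symm.trans h)
        have h4 := pp_other true false Bool.false_ne_true w h3
        exact hp (some l) (h1.symm.trans h4)
      | some l' =>
        have h3 : (Multiplicative.ofAdd ((l : ℕ) + 1 : ℤ) : Multiplicative ℤ) =
            Multiplicative.ofAdd ((l' : ℕ) + 1 : ℤ) := h1.symm.trans h2
        have h4 : ((l : ℕ) + 1 : ℤ) = ((l' : ℕ) + 1 : ℤ) := Multiplicative.ofAdd.injective h3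
        apply hjj
        congr 1
        apply Fin.ext
        omega
  · intro j
    cases j with
    | none => rfl
    | some l => rfl

end Pool.Agent.Lib.MP_fed171_al.FD
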