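import Pool.Agent.Lib.MP_fed171_al.FD.Stm2
import Pool.Agent.Lib.MP_fed171_al.FD.P.faith

set_option autoImplicit false

/-!
# Project FD, piece rel: the relative form of the bound for the Betti number
-/

namespace Pool.Agent.Lib.MP_fed171_al.FD

section aux

variable {Γ C : Type} [Group Γ] [Group C]

/-- The families of the values of the cocycles of `C` with values in the functions on `Γ`. -/
private def rel_W (φ : C →* Γ) {κ : Type} (T : κ → C) : Submodule ℂ (L2 (κ × Γ)) where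
  carrier := {ξ | ∃ b : C → L2 Γ, IsCocycleVia φ b ∧ ∀ j, coord j ξ = b (T j)}
  add_mem' := by
    rintro ξ η ⟨b, hb, h1⟩ ⟨c, hc, h3⟩
    refine ⟨b + c, ?_, ?_⟩
    · intro x y
      simp only [Pi.add_apply, hb x y, hc x y, map_add]
      abel
    · intro i
      simp only [map_add, Pi.add_apply, h1 i, h3 i]
  zero_mem' := ⟨0, fun _ _ => by simp, fun _ => by simp⟩
  smul_mem' := by
    rintro c ξ ⟨b, hb, h1⟩
    refine ⟨c • b, ?_, ?_⟩
    · intro x y
      simp only [Pi.smul_apply, hb x y, map_smul, smul_add]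
    · intro i
      simp only [map_smul, Pi.smul_apply, h1 i]

private theorem rel_resInj (φ : C →* Γ) (hφ : Function.Injective φ) (κ : Type) :
    Function.Injective (fun p : κ × C => (p.1, φ p.2)) :=
  fun _ _ h => Prod.ext (Prod.mk.inj h).1 (hφ (Prod.mk.inj h).2)

/-- Restriction to `C` in every coordinate. -/
private noncomputable def rel_res (φ : C →* Γ) (hφ : Function.Injective φ) (κ : Type) :
    L2 (κ × Γ) →L[ℂ] L2 (κ × C) :=
  pull (fun p : κ × C => (p.1, φ p.2)) (rel_resInj φ hφ κ)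

private theorem rel_pull_lam (φ : C →* Γ) (hφ : Function.Injective φ) (x : C) (η : L2 Γ) :
    pull φ hφ (lam (φ x) η) = lam x (pull φ hφ η) := by
  ext y
  show (η : L2 Γ) ((φ x)⁻¹ * φ y) = (η : L2 Γ) (φ (x⁻¹ * y))
  rw [map_mul, map_inv]

private theorem rel_res_mem (φ : C →* Γ) (hφ : Function.Injective φ) {κ : Type} (T : κ → C)
    (ξ : L2 (κ × Γ)) (h : ξ ∈ rel_W φ T) : rel_res φ hφ κ ξ ∈ Z T ∅ := by
  obtain ⟨b, hb, h1⟩ := h
  refine ⟨fun x => pull φ hφ (b x), ?_, ?_, fun x hx => hx.elim⟩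
  · intro x y
    show pull φ hφ (b (x * y)) = pull φ hφ (b x) + lam x (pull φ hφ (b y))
    rw [hb x y, map_add, rel_pull_lam]
  · intro j
    show coord j (rel_res φ hφ κ ξ) = pull φ hφ (b (T j))
    rw [← h1 j]
    ext y
    rfl

private theorem rel_closure (φ : C →* Γ) (hφ : Function.Injective φ) {κ : Type} (T : κ → C)
    (ξ : L2 (κ × Γ)) (h : ξ ∈ (rel_W φ T).topologicalClosure) :
    rel_res φ hφ κ ξ ∈ (Z T ∅).topologicalClosure := by
  have h1 : (rel_W φ T).topologicalClosure ≤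
      ((Z T ∅).topologicalClosure).comap (rel_res φ hφ κ).toLinearMap := by
    refine Submodule.topologicalClosure_minimal _ (fun v hv => ?_) ?_
    · exact (Z T ∅).le_topologicalClosure (rel_res_mem φ hφ T v hv)
    · exact (Z T ∅).isClosed_topologicalClosure.preimage (rel_res φ hφ κ).continuous
  exact h1 h

private theorem rel_coord (φ : C →* Γ) (hφ : Function.Injective φ) {κ : Type} (T : κ → C)
    (j : κ) : ‖(rel_W φ T).topologicalClosure.starProjection (delta (j, (1 : Γ)))‖ ≤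
      ‖(Z T ∅).topologicalClosure.starProjection (delta (j, (1 : C)))‖ := by
  set w := (rel_W φ T).topologicalClosure.starProjection (delta (j, (1 : Γ))) with hw
  have hP : w ∈ (rel_W φ T).topologicalClosure := Submodule.starProjection_apply_mem _ _
  have hmem := rel_closure φ hφ T w hP
  have h1 : inner ℂ w w = inner ℂ (delta (j, (1 : Γ))) w := by
    conv_lhs => rw [hw]
    rw [Submodule.inner_starProjection_left_eq_right, Submodule.starProjection_eq_self_iff.2]
    exact Submodule.starProjection_apply_mem _ _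
  have h2 : inner ℂ (delta (j, (1 : Γ))) w = inner ℂ (delta (j, (1 : C))) (rel_res φ hφ κ w) := by
    rw [faith_delta_inner, faith_delta_inner]
    show (w : L2 (κ × Γ)) (j, 1) = (w : L2 (κ × Γ)) (j, φ 1)
    rw [map_one]
  have h3 : inner ℂ (delta (j, (1 : C))) (rel_res φ hφ κ w) =
      inner ℂ ((Z T ∅).topologicalClosure.starProjection (delta (j, (1 : C))))
        (rel_res φ hφ κ w) := by
    rw [Submodule.inner_starProjection_left_eq_right, Submodule.starProjection_eq_self_iff.2 hmem]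
  have h4 := norm_inner_le_norm (𝕜 := ℂ)
    ((Z T ∅).topologicalClosure.starProjection (delta (j, (1 : C)))) (rel_res φ hφ κ w)
  rw [← h3, ← h2, ← h1] at h4
  have h5 : ‖inner ℂ w w‖ = ‖w‖ * ‖w‖ := by
    rw [inner_self_eq_norm_sq_to_K, norm_pow]
    simp [sq]
  have h6 : ‖rel_res φ hφ κ w‖ ≤ ‖w‖ := norm_comp_le _ (rel_resInj φ hφ κ) w
  rw [h5] at h4
  have h7 : ‖w‖ * ‖w‖ ≤
      ‖(Z T ∅).topologicalClosure.starProjection (delta (j, (1 : C)))‖ * ‖w‖ :=
    h4.trans (mul_le_mul_of_nonneg_left h6 (norm_nonneg _))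
  rcases (norm_nonneg w).eq_or_lt with h8 | h8
  · rw [← h8]
    exact norm_nonneg _
  · exact le_of_mul_le_mul_right h7 h8

end aux

theorem p_rel : S_eval → S_inj → S_mono → S_Zclosed → S_ZBinv → S_bettiOf → S_rel := by
  intro h1 h2 h3 h5 h6 h7 Γ C _ _ _ _ φ ι κ _ _ S T hφ hS hT hg
  obtain ⟨E, hE, hEe⟩ := h1 Γ ι κ S (fun j => φ (T j))
    (fun j => by rw [hS]; exact Subgroup.mem_top _)
  have hinj : ∀ ξ ∈ Z S ∅, E ξ = 0 → ξ = 0 := by
    rintro ξ ⟨b, hb, hbS, -⟩ hξ
    have hb0 : ∀ x, b x = 0 := by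
      refine hg b hb fun j => ?_
      rw [← hEe ξ b hb hbS j, hξ, map_zero]
    ext ⟨i, x⟩
    have h8 : coord i ξ = 0 := by rw [hbS i, hb0]
    have h9 : (coord i ξ : L2 Γ) x = (0 : L2 Γ) x := by rw [h8]
    exact h9
  have e1 := h2 Γ ι κ E (Z S ∅) hE (h6 Γ ι S ∅).1 (h5 Γ ι S ∅ hS) hinj
  have e2 : vdim ((Z S ∅).map E.toLinearMap) ≤ vdim (rel_W φ T) := by
    refine h3 Γ κ _ _ ?_
    rintro _ ⟨ξ, ⟨b, hb, hbS, -⟩, rfl⟩
    refine ⟨fun x => b (φ x), ?_, fun j => hEe ξ b hb hbS j⟩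
    intro x y
    show b (φ (x * y)) = b (φ x) + lam (φ x) (b (φ y))
    rw [map_mul, hb]
  have e3 : vdim (rel_W φ T) ≤ vdim (Z T ∅) := by
    unfold vdim
    refine Finset.sum_le_sum fun j _ => ?_
    exact pow_le_pow_left₀ (norm_nonneg _) (rel_coord φ hφ T j) 2
  rw [h7 Γ ι S hS, h7 C κ T hT]
  linarith

end Pool.Agent.Lib.MP_fed171_al.FD
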