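import Pool.Agent.Lib.MP_fed171_al.FD.Stm

set_option autoImplicit false

namespace Pool.Agent.Lib.MP_fed171_al.FD

theorem p_rigid : S_eval → S_inj → S_mono → S_compl → S_Zclosed → S_ZBinv → S_bettiOf →
    S_rigid := by
  intro h1 h2 h3 h4 h5 h6 h7 Γ _ _ ι κ _ _ S g hS hg
  obtain ⟨T, hT, hTe⟩ := h1 Γ ι κ S g (fun j => by rw [hS]; exact Subgroup.mem_top _)
  have hinj : ∀ ξ ∈ Z S ∅, T ξ = 0 → ξ = 0 := by
    rintro ξ ⟨b, hb, hbS, -⟩ hξ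
    have hb0 : ∀ x, b x = 0 := by
      refine hg b hb fun j => ?_
      rw [← hTe ξ b hb hbS j, hξ, map_zero]
    ext ⟨i, x⟩
    have h8 : coord i ξ = 0 := by rw [hbS i, hb0]
    have h9 : (coord i ξ : L2 Γ) x = (0 : L2 Γ) x := by rw [h8]
    exact h9
  have e1 := h2 Γ ι κ T (Z S ∅) hT (h6 Γ ι S ∅).1 (h5 Γ ι S ∅ hS) hinj
  have e2 : vdim ((Z S ∅).map T.toLinearMap) ≤ vdim (⊤ : Submodule ℂ (L2 (κ × Γ))) :=
    h3 Γ κ _ _ le_top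
  have e3 := h4 Γ κ (⊥ : Submodule ℂ (L2 (κ × Γ)))
  rw [Submodule.bot_orthogonal_eq_top] at e3
  have e4 : 0 ≤ vdim (⊥ : Submodule ℂ (L2 (κ × Γ))) :=
    Finset.sum_nonneg fun i _ => sq_nonneg _
  rw [h7 Γ ι S hS]
  linarith

end Pool.Agent.Lib.MP_fed171_al.FD
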