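import Pool.Agent.Lib.MP_fed171_al.FD.Stm

/-!
# Project FD (MP_fed171_al): rank and nullity by the mean ergodic theorem
-/

namespace Pool.Agent.Lib.MP_fed171_al.FD

open Filter
open scoped Topology

section General

variable {E F : Type} [NormedAddCommGroup E] [InnerProductSpace ℂ E] [CompleteSpace E]
  [NormedAddCommGroup F] [InnerProductSpace ℂ F] [CompleteSpace F]

/-- The operator `1 - T† T`. -/
noncomputable def rn_N (T : E →L[ℂ] F) : E →L[ℂ] E :=
  1 - (ContinuousLinearMap.adjoint T).comp T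

theorem rn_N_apply (T : E →L[ℂ] F) (v : E) :
    rn_N T v = v - ContinuousLinearMap.adjoint T (T v) := rfl

theorem rn_norm (T : E →L[ℂ] F) (hT : ‖T‖ ≤ 1) : ‖rn_N T‖ ≤ 1 := by
  refine ContinuousLinearMap.opNorm_le_bound _ zero_le_one fun v => ?_
  rw [one_mul, rn_N_apply]
  have h1 := norm_sub_sq (𝕜 := ℂ) v (ContinuousLinearMap.adjoint T (T v))
  have h2 : inner ℂ v (ContinuousLinearMap.adjoint T (T v)) = inner ℂ (T v) (T v) :=
    ContinuousLinearMap.adjoint_inner_right T v (T v)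
  have h3 : RCLike.re (inner ℂ (T v) (T v)) = ‖T v‖ ^ 2 := inner_self_eq_norm_sq (T v)
  rw [h2, h3] at h1
  have h4 : ‖ContinuousLinearMap.adjoint T (T v)‖ ≤ ‖T v‖ := by
    have h5 : ‖ContinuousLinearMap.adjoint T‖ ≤ 1 := by
      rw [LinearIsometryEquiv.norm_map]
      exact hT
    have h6 := (ContinuousLinearMap.adjoint T).le_of_opNorm_le h5 (T v)
    rwa [one_mul] at h6
  have h7 : ‖ContinuousLinearMap.adjoint T (T v)‖ ^ 2 ≤ ‖T v‖ ^ 2 := by
    gcongr
  refine le_of_sq_le_sq ?_ (norm_nonneg v)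
  nlinarith [sq_nonneg ‖T v‖]

theorem rn_fixed (T : E →L[ℂ] F) (v : E) : rn_N T v = v ↔ T v = 0 := by
  rw [rn_N_apply]
  constructor
  · intro h
    have h1 : ContinuousLinearMap.adjoint T (T v) = 0 := by
      have := sub_eq_self.1 h
      exact this
    have h2 : inner ℂ v (ContinuousLinearMap.adjoint T (T v)) = inner ℂ (T v) (T v) :=
      ContinuousLinearMap.adjoint_inner_right T v (T v)
    rw [h1, inner_zero_right] at h2
    exact inner_self_eq_zero.1 h2.symm
  · intro h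
    rw [h, map_zero, sub_zero]

theorem rn_eqLocus (T : E →L[ℂ] F) :
    (rn_N T).eqLocus (1 : E →L[ℂ] E) = (LinearMap.ker T.toLinearMap).topologicalClosure := by
  have hc : IsClosed ((LinearMap.ker T.toLinearMap : Submodule ℂ E) : Set E) := T.isClosed_ker
  rw [hc.submodule_topologicalClosure_eq]
  ext v
  have h1 : v ∈ (rn_N T).eqLocus (1 : E →L[ℂ] E) ↔ rn_N T v = v := Iff.rfl
  rw [h1, rn_fixed]
  exact Iff.rfl

theorem rn_proj_congr (K K' : Submodule ℂ E) [K.HasOrthogonalProjection]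
    [K'.HasOrthogonalProjection] (h : K = K') (e : E) :
    (K.orthogonalProjectionOnto e : E) = K'.starProjection e := by
  subst h
  rfl

theorem rn_inner_proj (K : Submodule ℂ E) [K.HasOrthogonalProjection] (e : E) :
    inner ℂ e (K.starProjection e) = ((‖K.starProjection e‖ ^ 2 : ℝ) : ℂ) := by
  have h1 : K.starProjection (K.starProjection e) = K.starProjection e :=
    Submodule.starProjection_eq_self_iff.2 (Submodule.starProjection_apply_mem K e)
  have h2 : inner ℂ (K.starProjection e) (K.starProjection e) =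
      inner ℂ e (K.starProjection (K.starProjection e)) :=
    Submodule.inner_starProjection_left_eq_right K e (K.starProjection e)
  rw [h1] at h2
  rw [← h2, inner_self_eq_norm_sq_to_K]
  push_cast
  rfl

theorem rn_lim (T : E →L[ℂ] F) (hT : ‖T‖ ≤ 1) (e : E) :
    Tendsto (fun n : ℕ => inner ℂ e ((n : ℂ)⁻¹ • ∑ k ∈ Finset.range n, (rn_N T ^ k) e)) atTop
      (𝓝 (((‖(LinearMap.ker T.toLinearMap).topologicalClosure.starProjection e‖ ^ 2 : ℝ)) : ℂ)) := by
  have h1 := ContinuousLinearMap.tendsto_birkhoffAverage_orthogonalProjection (rn_N T)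
    (rn_norm T hT) e
  rw [rn_proj_congr _ _ (rn_eqLocus T)] at h1
  have h2 : Tendsto (fun n : ℕ => inner ℂ e (birkhoffAverage ℂ (rn_N T) _root_.id n e)) atTop
      (𝓝 (inner ℂ e ((LinearMap.ker T.toLinearMap).topologicalClosure.starProjection e))) :=
    Tendsto.inner tendsto_const_nhds h1
  rw [rn_inner_proj] at h2
  refine h2.congr fun n => ?_
  have h3 : birkhoffAverage ℂ (rn_N T) _root_.id n e =
      (n : ℂ)⁻¹ • ∑ k ∈ Finset.range n, (rn_N T ^ k) e := by
    unfold birkhoffAverage birkhoffSum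
    congr 1
    refine Finset.sum_congr rfl fun k _ => ?_
    rw [ContinuousLinearMap.coe_pow']
    rfl
  rw [h3]

theorem rn_comm (T : E →L[ℂ] F) (k : ℕ) (v : E) :
    (rn_N (ContinuousLinearMap.adjoint T) ^ k) (T v) = T ((rn_N T ^ k) v) := by
  induction k generalizing v with
  | zero => rfl
  | succ k ih =>
    rw [pow_succ, pow_succ]
    change (rn_N (ContinuousLinearMap.adjoint T) ^ k)
      (rn_N (ContinuousLinearMap.adjoint T) (T v)) = T ((rn_N T ^ k) (rn_N T v))
    rw [← ih]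
    congr 1
    rw [rn_N_apply, rn_N_apply, ContinuousLinearMap.adjoint_adjoint, map_sub]

/-- The operators `R_k = ∑_(l<k) N^l T†`. -/
noncomputable def rn_R (T : E →L[ℂ] F) (k : ℕ) : F →L[ℂ] E :=
  ∑ l ∈ Finset.range k, (rn_N T ^ l).comp (ContinuousLinearMap.adjoint T)

theorem rn_R_succ (T : E →L[ℂ] F) (k : ℕ) (w : F) :
    rn_R T (k + 1) w = rn_R T k w + (rn_N T ^ k) (ContinuousLinearMap.adjoint T w) := by
  unfold rn_R
  rw [Finset.sum_range_succ]
  rfl

theorem rn_left (T : E →L[ℂ] F) (k : ℕ) (v : E) :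
    (rn_N T ^ k) v = v - rn_R T k (T v) := by
  induction k with
  | zero =>
    unfold rn_R
    simp
  | succ k ih =>
    rw [rn_R_succ, pow_succ]
    change (rn_N T ^ k) (rn_N T v) = _
    rw [rn_N_apply, map_sub, ih]
    abel

theorem rn_right (T : E →L[ℂ] F) (k : ℕ) (w : F) :
    (rn_N (ContinuousLinearMap.adjoint T) ^ k) w = w - T (rn_R T k w) := by
  induction k with
  | zero =>
    unfold rn_R
    simp
  | succ k ih =>
    rw [rn_R_succ, pow_succ]
    change (rn_N (ContinuousLinearMap.adjoint T) ^ k)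
      (rn_N (ContinuousLinearMap.adjoint T) w) = _
    rw [rn_N_apply, ContinuousLinearMap.adjoint_adjoint, map_sub, ih, rn_comm, map_add]
    abel

end General

section Equivariance

variable {Γ : Type} [Group Γ] {ι κ : Type}

theorem rn_equi_N (ha : S_adj) (T : L2 (ι × Γ) →L[ℂ] L2 (κ × Γ)) (hT : Equi T) :
    Equi (rn_N T) := by
  intro γ ξ
  rw [rn_N_apply, rn_N_apply, hT, ha Γ ι κ T hT, map_sub]

theorem rn_equi_pow (N : L2 (ι × Γ) →L[ℂ] L2 (ι × Γ)) (hN : Equi N) (k : ℕ) :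
    Equi (N ^ k) := by
  induction k with
  | zero =>
    intro γ ξ
    rfl
  | succ k ih =>
    intro γ ξ
    rw [pow_succ]
    change (N ^ k) (N (rho γ ξ)) = rho γ ((N ^ k) (N ξ))
    rw [hN, ih]

theorem rn_equi_R (ha : S_adj) (T : L2 (ι × Γ) →L[ℂ] L2 (κ × Γ)) (hT : Equi T) (k : ℕ) :
    Equi (rn_R T k) := by
  induction k with
  | zero =>
    intro γ ξ
    unfold rn_R
    simp
  | succ k ih =>
    intro γ ξ
    rw [rn_R_succ, rn_R_succ, ih, ha Γ ι κ T hT,
      rn_equi_pow _ (rn_equi_N ha T hT) k, map_add]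

theorem rn_delta (x : ι) : inner ℂ (delta x : L2 ι) (delta x) = (1 : ℂ) := by
  classical
  unfold delta
  rw [lp.inner_single_left]
  simp

theorem rn_key (ht : S_trace) (ha : S_adj) [Fintype ι] [Fintype κ]
    (T : L2 (ι × Γ) →L[ℂ] L2 (κ × Γ)) (hT : Equi T) (k : ℕ) :
    ∑ i : ι, inner ℂ (delta (i, (1 : Γ))) ((rn_N T ^ k) (delta (i, (1 : Γ)))) =
      ∑ j : κ, inner ℂ (delta (j, (1 : Γ)))
        ((rn_N (ContinuousLinearMap.adjoint T) ^ k) (delta (j, (1 : Γ)))) +
        ((Fintype.card ι : ℂ) - (Fintype.card κ : ℂ)) := by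
  have h1 : ∑ i : ι, inner ℂ (delta (i, (1 : Γ))) ((rn_N T ^ k) (delta (i, (1 : Γ)))) =
      (Fintype.card ι : ℂ) -
        ∑ i : ι, inner ℂ (delta (i, (1 : Γ))) (rn_R T k (T (delta (i, (1 : Γ))))) := by
    simp only [rn_left, inner_sub_right, rn_delta, Finset.sum_sub_distrib, Finset.sum_const,
      Finset.card_univ, nsmul_eq_mul, mul_one]
  have h2 : ∑ j : κ, inner ℂ (delta (j, (1 : Γ)))
        ((rn_N (ContinuousLinearMap.adjoint T) ^ k) (delta (j, (1 : Γ)))) =
      (Fintype.card κ : ℂ) -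
        ∑ j : κ, inner ℂ (delta (j, (1 : Γ))) (T (rn_R T k (delta (j, (1 : Γ))))) := by
    simp only [rn_right, inner_sub_right, rn_delta, Finset.sum_sub_distrib, Finset.sum_const,
      Finset.card_univ, nsmul_eq_mul, mul_one]
  rw [h1, h2, ht Γ ι κ T (rn_R T k) hT (rn_equi_R ha T hT k)]
  ring

/-- The average of the traces of the powers. -/
theorem rn_avg {X : Type} [Fintype ι] (e : ι → L2 X) (N : L2 X →L[ℂ] L2 X) (n : ℕ) :
    ∑ i : ι, inner ℂ (e i) ((n : ℂ)⁻¹ • ∑ k ∈ Finset.range n, (N ^ k) (e i)) =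
      (n : ℂ)⁻¹ * ∑ k ∈ Finset.range n, ∑ i : ι, inner ℂ (e i) ((N ^ k) (e i)) := by
  simp only [inner_smul_right, inner_sum]
  rw [← Finset.mul_sum, Finset.sum_comm]

theorem rn_contr (ht : S_trace) (ha : S_adj) [Fintype ι] [Fintype κ]
    (T : L2 (ι × Γ) →L[ℂ] L2 (κ × Γ)) (hT : Equi T) (hn : ‖T‖ ≤ 1) :
    vdim (LinearMap.ker T.toLinearMap) = vdim (LinearMap.ker
      (ContinuousLinearMap.adjoint T).toLinearMap) +
        ((Fintype.card ι : ℝ) - (Fintype.card κ : ℝ)) := by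
  have hn' : ‖ContinuousLinearMap.adjoint T‖ ≤ 1 := by
    rw [LinearIsometryEquiv.norm_map]
    exact hn
  have l1 : Tendsto (fun n : ℕ => ∑ i : ι, inner ℂ (delta (i, (1 : Γ)))
      ((n : ℂ)⁻¹ • ∑ k ∈ Finset.range n, (rn_N T ^ k) (delta (i, (1 : Γ))))) atTop
      (𝓝 ((vdim (LinearMap.ker T.toLinearMap) : ℝ) : ℂ)) := by
    unfold vdim
    rw [Complex.ofReal_sum]
    exact tendsto_finset_sum _ fun i _ => rn_lim T hn (delta (i, (1 : Γ)))
  have l2 : Tendsto (fun n : ℕ => ∑ j : κ, inner ℂ (delta (j, (1 : Γ)))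
      ((n : ℂ)⁻¹ • ∑ k ∈ Finset.range n,
        (rn_N (ContinuousLinearMap.adjoint T) ^ k) (delta (j, (1 : Γ))))) atTop
      (𝓝 ((vdim (LinearMap.ker (ContinuousLinearMap.adjoint T).toLinearMap) : ℝ) : ℂ)) := by
    unfold vdim
    rw [Complex.ofReal_sum]
    exact tendsto_finset_sum _ fun j _ =>
      rn_lim (ContinuousLinearMap.adjoint T) hn' (delta (j, (1 : Γ)))
  have l3 := l2.add_const ((Fintype.card ι : ℂ) - (Fintype.card κ : ℂ))
  have l4 : Tendsto (fun n : ℕ => ∑ i : ι, inner ℂ (delta (i, (1 : Γ)))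
      ((n : ℂ)⁻¹ • ∑ k ∈ Finset.range n, (rn_N T ^ k) (delta (i, (1 : Γ))))) atTop
      (𝓝 (((vdim (LinearMap.ker (ContinuousLinearMap.adjoint T).toLinearMap) : ℝ) : ℂ) +
        ((Fintype.card ι : ℂ) - (Fintype.card κ : ℂ)))) := by
    refine l3.congr' ?_
    filter_upwards [eventually_ge_atTop 1] with n hn1
    have hn0 : (n : ℂ) ≠ 0 := by
      exact_mod_cast (by omega : n ≠ 0)
    rw [rn_avg (fun j : κ => (delta (j, (1 : Γ)) : L2 (κ × Γ))),
      rn_avg (fun i : ι => (delta (i, (1 : Γ)) : L2 (ι × Γ)))]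
    simp only [rn_key ht ha T hT, Finset.sum_add_distrib, Finset.sum_const, Finset.card_range,
      nsmul_eq_mul, mul_add]
    field_simp
  have h5 := tendsto_nhds_unique l1 l4
  have h6 : ((vdim (LinearMap.ker T.toLinearMap) : ℝ) : ℂ) =
      (((vdim (LinearMap.ker (ContinuousLinearMap.adjoint T).toLinearMap) +
        ((Fintype.card ι : ℝ) - (Fintype.card κ : ℝ)) : ℝ)) : ℂ) := by
    rw [h5]
    push_cast
    ring
  exact Complex.ofReal_injective h6

theorem p_rn : S_trace → S_adj → S_compl → S_rn := by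
  intro ht ha hc Γ _ ι κ _ _ T hT
  set c : ℂ := (((‖T‖ + 1)⁻¹ : ℝ) : ℂ) with hcdef
  have hpos : 0 < ‖T‖ + 1 := by positivity
  have hc0 : c ≠ 0 := by
    rw [hcdef]
    exact_mod_cast (inv_pos.2 hpos).ne'
  have hT' : Equi (c • T) := by
    intro γ ξ
    change c • T (rho γ ξ) = rho γ (c • T ξ)
    rw [hT, map_smul]
  have hn : ‖c • T‖ ≤ 1 := by
    rw [norm_smul, hcdef, Complex.norm_real, Real.norm_eq_abs, abs_of_pos (inv_pos.2 hpos),
      inv_mul_le_iff₀ hpos]
    linarith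
  have hker : LinearMap.ker (c • T).toLinearMap = LinearMap.ker T.toLinearMap := by
    ext v
    rw [LinearMap.mem_ker, LinearMap.mem_ker]
    change c • T v = 0 ↔ T v = 0
    rw [smul_eq_zero]
    exact ⟨fun h => h.resolve_left hc0, Or.inr⟩
  have hran : LinearMap.range (c • T).toLinearMap = LinearMap.range T.toLinearMap := by
    ext w
    rw [LinearMap.mem_range, LinearMap.mem_range]
    constructor
    · rintro ⟨v, hv⟩
      refine ⟨c • v, ?_⟩
      rw [map_smul]
      exact hv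
    · rintro ⟨v, hv⟩
      refine ⟨c⁻¹ • v, ?_⟩
      change c • T (c⁻¹ • v) = w
      rw [map_smul, smul_smul, mul_inv_cancel₀ hc0, one_smul]
      exact hv
  have h1 := rn_contr ht ha (c • T) hT' hn
  have h2 : (LinearMap.range (c • T).toLinearMap)ᗮ =
      LinearMap.ker (ContinuousLinearMap.adjoint (c • T)).toLinearMap :=
    ContinuousLinearMap.orthogonal_range (c • T)
  rw [← h2, hc Γ κ, hker, hran] at h1
  rw [h1]
  ring

end Equivariance

end Pool.Agent.Lib.MP_fed171_al.FD
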