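import Pool.Agent.Lib.MP_fed171_al.FD.Stm

/-!
# Project FD: amalgams of torsion-free groups are torsion-free
-/

namespace Pool.Agent.Lib.MP_fed171_al.FD

open Monoid

section TF

variable {ι : Type} {G : ι → Type} {H : Type} [∀ i, Group (G i)] [Group H] (φ : ∀ i, H →* G i)

/-- the product in the pushout of a list of letters -/
private def tf_pr (L : List (Σ i, G i)) : PushoutI φ :=
  (L.map fun g => PushoutI.of (φ := φ) g.1 g.2).prod

private def tf_Red (L : List (Σ i, G i)) : Prop := ∀ g ∈ L, g.2 ∉ (φ g.1).range

private def tf_Ch (L : List (Σ i, G i)) : Prop := L.IsChain fun a b => a.1 ≠ b.1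

private theorem tf_key (hφ : ∀ i, Function.Injective (φ i)) (L : List (Σ i, G i)) (hL : L ≠ [])
    (hr : tf_Red φ L) (hc : tf_Ch L) : tf_pr φ L ∉ (PushoutI.base φ).range := by
  intro h
  let w : CoprodI.Word G := ⟨L, fun l hl h1 => hr l hl (h1 ▸ one_mem _), hc⟩
  have hw : PushoutI.Reduced φ w := hr
  have he : PushoutI.ofCoprodI w.prod = tf_pr φ L := by
    simp [w, CoprodI.Word.prod, tf_pr, map_list_prod, Function.comp_def]
  have h2 := hw.eq_empty_of_mem_range hφ (by rw [he]; exact h)
  exact hL (by simpa [w, CoprodI.Word.empty] using congrArg CoprodI.Word.toList h2)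

private theorem tf_rep (L : List (Σ i, G i)) (n : ℕ) :
    tf_pr φ (List.replicate n L).flatten = tf_pr φ L ^ n := by
  unfold tf_pr
  induction n with
  | zero => simp
  | succ n ih => rw [List.replicate_succ, List.flatten_cons, List.map_append, List.prod_append, ih, pow_succ']

private theorem tf_repRed (L : List (Σ i, G i)) (hr : tf_Red φ L) (n : ℕ) :
    tf_Red φ (List.replicate n L).flatten := by
  intro g hg
  obtain ⟨l, hl, hgl⟩ := List.mem_flatten.1 hg
  exact hr g ((List.eq_of_mem_replicate hl) ▸ hgl)

private theorem tf_repCh (a b : Σ i, G i) (M : List (Σ i, G i)) (hab : a.1 ≠ b.1)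
    (hc : tf_Ch (a :: (M ++ [b]))) (n : ℕ) :
    tf_Ch (List.replicate n (a :: (M ++ [b]))).flatten := by
  induction n with
  | zero => simp [tf_Ch]
  | succ n ih =>
    rw [List.replicate_succ, List.flatten_cons]
    unfold tf_Ch at *
    refine List.IsChain.append hc ih ?_
    intro x hx y hy
    have hx' : x = b := by
      have : (a :: (M ++ [b])).getLast? = some b := by
        rw [← List.cons_append, List.getLast?_append]
        simp
      rw [this] at hx
      simpa using hx.symm
    have hy' : y = a := by
      cases n with
      | zero => simp at hy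
      | succ n =>
        rw [List.replicate_succ, List.flatten_cons] at hy
        simpa using hy.symm
    rw [hx', hy']
    exact fun h => hab h.symm

private theorem tf_main (hφ : ∀ i, Function.Injective (φ i)) (ht : ∀ i, TorsionFree (G i))
    (n : ℕ) (hn : 0 < n) : ∀ (r : ℕ) (L : List (Σ i, G i)), L.length ≤ r → L ≠ [] →
    tf_Red φ L → tf_Ch L → tf_pr φ L ^ n ≠ 1 := by
  intro r
  induction r with
  | zero =>
    intro L hL hne
    exact absurd (List.length_eq_zero_iff.1 (Nat.le_zero.1 hL)) hne
  | succ r ih =>
    intro L hL hne hr hc h1
    obtain ⟨a, L', rfl⟩ := List.exists_cons_of_ne_nil hne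
    rcases List.eq_nil_or_concat L' with rfl | ⟨M, b, rfl⟩
    · -- one letter
      obtain ⟨i, a⟩ := a
      have hp : tf_pr φ [⟨i, a⟩] = PushoutI.of i a := by simp [tf_pr]
      rw [hp, ← map_pow] at h1
      have h2 : a ^ n = 1 := PushoutI.of_injective hφ i (by rw [h1, map_one])
      have h3 := ht i a n hn h2
      exact hr ⟨i, a⟩ (by simp) (h3 ▸ one_mem _)
    · by_cases hab : a.1 = b.1
      · -- same factor
        obtain ⟨i, a⟩ := a
        obtain ⟨j, b⟩ := b
        obtain rfl : i = j := hab
        cases M with
        | nil =>
          simp [tf_Ch] at hc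
        | cons c M' =>
          have hprod : tf_pr φ (⟨i, a⟩ :: ((c :: M') ++ [⟨i, b⟩])) =
              (PushoutI.of i b)⁻¹ * (PushoutI.of i (b * a) * tf_pr φ (c :: M')) * PushoutI.of i b := by
            simp only [tf_pr, List.map_cons, List.map_append, List.prod_cons, List.prod_append,
              List.map_nil, List.prod_nil, map_mul, mul_one]
            group
          rw [List.concat_eq_append, hprod] at h1
          have h1' : (PushoutI.of i (b * a) * tf_pr φ (c :: M')) ^ n = 1 := by
            have h4 := conj_pow (a := (PushoutI.of (φ := φ) i b)⁻¹)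
              (b := PushoutI.of i (b * a) * tf_pr φ (c :: M')) (i := n)
            rw [inv_inv] at h4
            rw [h4] at h1
            have h5 := congrArg (fun z => PushoutI.of (φ := φ) i b * z * (PushoutI.of (φ := φ) i b)⁻¹) h1
            simpa [mul_assoc] using h5
          have hcc : tf_Ch (⟨i, a⟩ :: c :: M') := by
            have : (⟨i, a⟩ :: c :: M') ++ [(⟨i, b⟩ : Σ i, G i)] = ⟨i, a⟩ :: ((c :: M').concat ⟨i, b⟩) := by simp
            unfold tf_Ch at hc ⊢
            rw [← this] at hc
            exact hc.left_of_append
          have hrc : tf_Red φ (c :: M') := by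
            intro g hg
            refine hr g ?_
            simp only [List.concat_eq_append, List.mem_cons, List.mem_append] at hg ⊢
            tauto
          by_cases hba : b * a ∈ (φ i).range
          · obtain ⟨h, hh⟩ := hba
            have hc2 : PushoutI.of i (b * a) * tf_pr φ (c :: M') =
                tf_pr φ (⟨c.1, φ c.1 h * c.2⟩ :: M') := by
              simp only [tf_pr, List.map_cons, List.prod_cons, map_mul]
              rw [← mul_assoc, ← map_mul, ← hh, PushoutI.of_apply_eq_base, PushoutI.of_apply_eq_base]
            rw [hc2] at h1'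
            refine ih _ ?_ (by simp) ?_ ?_ h1'
            · simp only [List.length_cons, List.concat_eq_append, List.length_append, List.length_nil] at hL ⊢
              omega
            · intro g hg
              rcases List.mem_cons.1 hg with rfl | hg
              · intro hmem
                exact hrc c (by simp) ((Subgroup.mul_mem_cancel_left _ (MonoidHom.mem_range.2 ⟨h, rfl⟩)).1 hmem)
              · exact hrc g (List.mem_cons_of_mem _ hg)
            · unfold tf_Ch at hcc ⊢
              rw [List.isChain_cons] at hcc
              have h6 := hcc.2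
              rw [List.isChain_cons] at h6 ⊢
              exact h6
          · have hc2 : PushoutI.of i (b * a) * tf_pr φ (c :: M') =
                tf_pr φ (⟨i, b * a⟩ :: c :: M') := by
              simp only [tf_pr, List.map_cons, List.prod_cons]
            rw [hc2] at h1'
            refine ih _ ?_ (by simp) ?_ ?_ h1'
            · simp only [List.length_cons, List.concat_eq_append, List.length_append, List.length_nil] at hL ⊢
              omega
            · intro g hg
              rcases List.mem_cons.1 hg with rfl | hg
              · exact hba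
              · exact hrc g hg
            · unfold tf_Ch at hcc ⊢
              rw [List.isChain_cons] at hcc ⊢
              exact hcc
      · -- different factors
        rw [List.concat_eq_append] at hr hc h1 hne
        refine tf_key φ hφ (List.replicate n (a :: (M ++ [b]))).flatten ?_ (tf_repRed φ _ hr n)
          (tf_repCh a b M hab hc n) ?_
        · obtain ⟨k, rfl⟩ := Nat.exists_eq_succ_of_ne_zero hn.ne'
          simp [List.replicate_succ]
        · rw [tf_rep, h1]
          exact one_mem _

end TF

theorem p_tf : S_word → S_tf := by
  intro hw ι _ G H _ _ φ hφ ht x n hn hx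
  rcases hw ι G H φ hφ x with ⟨h, rfl⟩ | ⟨w, hw0, hr, rfl⟩
  · obtain ⟨i⟩ := ‹Nonempty ι›
    rw [← PushoutI.of_apply_eq_base φ i, ← map_pow] at hx
    have h2 : (φ i h) ^ n = 1 := PushoutI.of_injective hφ i (by rw [hx, map_one])
    rw [← PushoutI.of_apply_eq_base φ i, ht i _ n hn h2, map_one]
  · exfalso
    have he : PushoutI.ofCoprodI w.prod = tf_pr φ w.toList := by
      simp [CoprodI.Word.prod, tf_pr, map_list_prod, Function.comp_def]
    rw [he] at hx
    refine tf_main φ hφ ht n hn w.toList.length w.toList le_rfl ?_ hr w.chain_ne hx
    intro h0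
    exact hw0 (CoprodI.Word.ext (by simpa [CoprodI.Word.empty] using h0))

end Pool.Agent.Lib.MP_fed171_al.FD
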