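import Pool.Agent.Lib.MP_fed171_al.FD.Stm

/-!
# Project FD (MP_fed171_al): free products of torsion-free groups are torsion-free
-/

namespace Pool.Agent.Lib.MP_fed171_al.FD

open Monoid

theorem p_tfC : S_tf → S_tfC := by
  intro hS ι G _ hG
  rcases isEmpty_or_nonempty ι with hι | hι
  · have h1 : ∀ x : CoprodI G, x = 1 := by
      intro x
      refine CoprodI.induction_on (motive := fun x => x = 1) x rfl (fun i _ => (hι.false i).elim) ?_
      intro x y hx hy
      rw [hx, hy, one_mul]
    exact fun x _ _ _ => h1 x
  · let φ : ∀ i, Unit →* G i := fun _ => 1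
    have hφ : ∀ i, Function.Injective (φ i) := fun i => Function.injective_of_subsingleton _
    have htf : TorsionFree (PushoutI φ) := hS ι G Unit φ hφ hG
    let L : PushoutI φ →* CoprodI G :=
      PushoutI.lift (fun i => CoprodI.of) 1 (fun i => by
        ext x
        simp [φ])
    have hL : ∀ x : CoprodI G, L (PushoutI.ofCoprodI x) = x := by
      intro x
      have h : L.comp PushoutI.ofCoprodI = MonoidHom.id (CoprodI G) := by
        refine CoprodI.ext_hom _ _ fun i => ?_
        ext g
        simp [L]
      exact DFunLike.congr_fun h x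
    intro x n hn hx
    have h1 : (PushoutI.ofCoprodI x : PushoutI φ) ^ n = 1 := by
      rw [← map_pow, hx, map_one]
    have h2 := htf _ n hn h1
    rw [← hL x, h2, map_one]

end Pool.Agent.Lib.MP_fed171_al.FD
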