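import Mathlib
import Pool.Agent.Lib.MP_fed171_al.FD.Stm

/-!
# Project FD: the trace property of equivariant operators
-/

set_option autoImplicit false

namespace Pool.Agent.Lib.MP_fed171_al.FD

open scoped InnerProductSpace

theorem trace_inner {X : Type} (x : X) (ξ : L2 X) : inner ℂ (delta x) ξ = ξ x := by
  unfold delta
  let _ := Classical.decEq X
  rw [lp.inner_single_left]
  simp

theorem trace_single {X : Type} (x : X) (c : ℂ) :
    (letI := Classical.decEq X; (lp.single 2 x c : L2 X)) = c • delta x := by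
  unfold delta
  let _ := Classical.decEq X
  rw [← lp.single_smul]
  simp

theorem trace_delta {Γ : Type} [Group Γ] {κ : Type} (j : κ) (γ : Γ) :
    (delta (j, γ) : L2 (κ × Γ)) = rho γ⁻¹ (delta (j, (1 : Γ))) := by
  let _ := Classical.decEq (κ × Γ)
  ext p
  unfold rho
  rw [pull_apply]
  unfold delta
  rw [lp.single_apply, lp.single_apply]
  by_cases h : p = (j, γ)
  · subst h
    simp
  · have h' : ((p.1, p.2 * γ⁻¹) : κ × Γ) ≠ (j, 1) := by
      intro h'
      rw [Prod.mk.injEq] at h'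
      exact h (Prod.ext h'.1 (mul_inv_eq_one.1 h'.2))
    rw [Pi.single_eq_of_ne h, Pi.single_eq_of_ne h']

/-- the expansion of a value of an equivariant operator -/
theorem trace_hasSum {Γ : Type} [Group Γ] {ι κ : Type} (R : L2 (κ × Γ) →L[ℂ] L2 (ι × Γ))
    (hR : Equi R) (ξ : L2 (κ × Γ)) (i : ι) :
    HasSum (fun p : κ × Γ => ξ p * R (delta (p.1, (1 : Γ))) (i, p.2⁻¹)) (R ξ (i, 1)) := by
  let _ := Classical.decEq (κ × Γ)
  have h := lp.hasSum_single (E := fun _ : κ × Γ => ℂ) (p := 2) (by norm_num) ξ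
  have h2 := ((innerSL ℂ (delta (i, (1 : Γ)))).comp R).hasSum h
  have e1 : ((innerSL ℂ (delta (i, (1 : Γ)))).comp R) ξ = R ξ (i, 1) := by
    rw [ContinuousLinearMap.comp_apply, innerSL_apply_apply, trace_inner]
  rw [e1] at h2
  have e4 : (fun p : κ × Γ => ξ p * R (delta (p.1, (1 : Γ))) (i, p.2⁻¹)) =
      (fun b => ((innerSL ℂ (delta (i, (1 : Γ)))).comp R) (lp.single 2 b (ξ b))) := ?_
  · rw [e4]
    exact h2
  funext p
  have e2 : (lp.single 2 p (ξ p) : L2 (κ × Γ)) = ξ p • delta p := trace_single p (ξ p)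
  rw [ContinuousLinearMap.comp_apply, innerSL_apply_apply, e2, map_smul, inner_smul_right,
    trace_inner]
  congr 1
  have e3 : (delta p : L2 (κ × Γ)) = rho p.2⁻¹ (delta (p.1, (1 : Γ))) := trace_delta p.1 p.2
  rw [e3, hR]
  unfold rho
  rw [pull_apply, one_mul]

theorem trace_sum {Γ : Type} [Group Γ] {ι κ : Type} [Fintype κ]
    (R : L2 (κ × Γ) →L[ℂ] L2 (ι × Γ)) (hR : Equi R) (ξ : L2 (κ × Γ)) (i : ι) :
    R ξ (i, 1) = ∑ j : κ, ∑' γ : Γ, ξ (j, γ) * R (delta (j, (1 : Γ))) (i, γ⁻¹) := by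
  have h := trace_hasSum R hR ξ i
  have h1 := h.prod_fiberwise (fun j => (h.summable.prod_factor j).hasSum)
  exact h1.unique (hasSum_fintype _)

theorem p_trace : S_trace := by
  intro Γ _ ι κ _ _ T R hT hR
  have h1 : ∀ i : ι, inner ℂ (delta (i, (1 : Γ))) (R (T (delta (i, (1 : Γ))))) =
      ∑ j : κ, ∑' γ : Γ, T (delta (i, (1 : Γ))) (j, γ) * R (delta (j, (1 : Γ))) (i, γ⁻¹) := by
    intro i
    rw [trace_inner, trace_sum R hR]
  have h2 : ∀ j : κ, inner ℂ (delta (j, (1 : Γ))) (T (R (delta (j, (1 : Γ))))) =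
      ∑ i : ι, ∑' γ : Γ, R (delta (j, (1 : Γ))) (i, γ) * T (delta (i, (1 : Γ))) (j, γ⁻¹) := by
    intro j
    rw [trace_inner, trace_sum T hT]
  rw [Finset.sum_congr rfl (fun i _ => h1 i), Finset.sum_congr rfl (fun j _ => h2 j),
    Finset.sum_comm]
  refine Finset.sum_congr rfl fun j _ => Finset.sum_congr rfl fun i _ => ?_
  rw [← (Equiv.inv Γ).tsum_eq]
  refine tsum_congr fun γ => ?_
  simp only [Equiv.inv_apply, inv_inv]
  exact mul_comm _ _

end Pool.Agent.Lib.MP_fed171_al.FD
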