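import Pool.Agent.Lib.MP_fed171_al.FD.Stm

/-!
# Project FD: elements of a pushout are base elements or products of reduced words
-/

namespace Pool.Agent.Lib.MP_fed171_al.FD

open Monoid

theorem word_notMem {ι : Type} {G : ι → Type} {H : Type} [∀ i, Group (G i)] [Group H]
    {φ : ∀ i, H →* G i} (d : PushoutI.NormalWord.Transversal φ) (i : ι) (g : G i)
    (hg : g ∈ d.set i) (h1 : g ≠ 1) : g ∉ (φ i).range := by
  intro hr
  have h := (d.compl i).1
    (a₁ := ((⟨g, hr⟩ : ((φ i).range : Set (G i))), (⟨1, d.one_mem i⟩ : d.set i)))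
    (a₂ := ((⟨1, one_mem _⟩ : ((φ i).range : Set (G i))), (⟨g, hg⟩ : d.set i))) (by simp)
  exact h1 (congrArg (fun p => (p.1 : G i)) h)

theorem word_main {ι : Type} {G : ι → Type} {H : Type} [∀ i, Group (G i)] [Group H]
    {φ : ∀ i, H →* G i} (d : PushoutI.NormalWord.Transversal φ) (h : H) (w : CoprodI.Word G)
    (hw : ∀ i g, ⟨i, g⟩ ∈ w.toList → g ∈ d.set i) :
    PushoutI.base φ h * PushoutI.ofCoprodI w.prod ∈ (PushoutI.base φ).range ∨
      ∃ w' : CoprodI.Word G, w' ≠ CoprodI.Word.empty ∧ PushoutI.Reduced φ w' ∧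
        PushoutI.ofCoprodI w'.prod = PushoutI.base φ h * PushoutI.ofCoprodI w.prod := by
  induction w using CoprodI.Word.consRecOn with
  | empty =>
    left
    exact ⟨h, by simp⟩
  | cons i g w h1 hg1 _ =>
    right
    have hgr : g ∉ (φ i).range := word_notMem d i g (hw _ _ List.mem_cons_self) hg1
    have hgr' : φ i h * g ∉ (φ i).range := fun hc =>
      hgr ((Subgroup.mul_mem_cancel_left _ (MonoidHom.mem_range.2 ⟨h, rfl⟩)).1 hc)
    have hne : φ i h * g ≠ 1 := fun hc => hgr' (hc ▸ one_mem _)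
    refine ⟨CoprodI.Word.cons (φ i h * g) w h1 hne, ?_, ?_, ?_⟩
    · intro hc
      have := congrArg CoprodI.Word.toList hc
      simp [CoprodI.Word.cons, CoprodI.Word.empty] at this
    · intro p hp
      simp only [CoprodI.Word.cons, List.mem_cons] at hp
      rcases hp with rfl | hp
      · exact hgr'
      · obtain ⟨j, x⟩ := p
        refine word_notMem d j x (hw _ _ (List.mem_cons_of_mem _ hp)) ?_
        exact w.ne_one _ hp
    · simp only [CoprodI.Word.prod_cons, map_mul, PushoutI.ofCoprodI_of,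
        PushoutI.of_apply_eq_base, mul_assoc]

theorem p_word : S_word := by
  intro ι G H _ _ φ hφ x
  obtain ⟨d⟩ := PushoutI.NormalWord.transversal_nonempty φ hφ
  let _ := Classical.decEq ι
  let _ := fun i => Classical.decEq (G i)
  obtain ⟨w, rfl⟩ := (PushoutI.NormalWord.equiv (d := d)).symm.surjective x
  exact word_main d w.head w.toWord w.normalized

end Pool.Agent.Lib.MP_fed171_al.FD
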