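import Pool.Agent.Lib.MP_fed171_al.FD.Stm

/-!
# Project FD (MP_fed171_al): piece ZCL, the space `Z S K` is closed
-/

namespace Pool.Agent.Lib.MP_fed171_al.FD

theorem zclosed_aux {Γ : Type} [Group Γ] {ι : Type} (S : ι → Γ) (K : Set Γ)
    (E : Γ → L2 (ι × Γ) →L[ℂ] L2 Γ)
    (hE : ∀ (ξ : L2 (ι × Γ)) (b : Γ → L2 Γ), IsCocycle b → (∀ i, coord i ξ = b (S i)) →
      ∀ x, E x ξ = b x) :
    (Z S K : Set (L2 (ι × Γ))) =
      (⋂ x : Γ, ⋂ y : Γ, {ξ | E (x * y) ξ = E x ξ + lam x (E y ξ)}) ∩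
        ((⋂ i : ι, {ξ | coord i ξ = E (S i) ξ}) ∩ (⋂ x ∈ K, {ξ | E x ξ = 0})) := by
  ext ξ
  simp only [Set.mem_inter_iff, Set.mem_iInter, Set.mem_setOf_eq, SetLike.mem_coe]
  constructor
  · rintro ⟨b, hb, h1, h2⟩
    have hx : ∀ x, E x ξ = b x := hE ξ b hb h1
    refine ⟨fun x y => ?_, fun i => ?_, fun x hxK => ?_⟩
    · rw [hx, hx, hx]
      exact hb x y
    · rw [hx]
      exact h1 i
    · rw [hx]
      exact h2 x hxK
  · rintro ⟨h1, h2, h3⟩
    exact ⟨fun x => E x ξ, h1, h2, h3⟩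

/-- `Z S K` is closed. -/
theorem p_Zclosed : S_eval → S_Zclosed := by
  intro hev Γ _ ι _ S K hS
  have hT : ∀ x : Γ, ∃ E : L2 (ι × Γ) →L[ℂ] L2 Γ,
      ∀ (ξ : L2 (ι × Γ)) (b : Γ → L2 Γ), IsCocycle b → (∀ i, coord i ξ = b (S i)) →
        E ξ = b x := by
    intro x
    obtain ⟨T, -, hT⟩ := hev Γ ι Unit S (fun _ => x) (fun _ => by rw [hS]; trivial)
    exact ⟨(coord ()).comp T, fun ξ b hb h => hT ξ b hb h ()⟩
  choose E hE using hT
  rw [zclosed_aux S K E fun ξ b hb h x => hE x ξ b hb h]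
  refine IsClosed.inter ?_ (IsClosed.inter ?_ ?_)
  · refine isClosed_iInter fun x => isClosed_iInter fun y => ?_
    exact isClosed_eq (E (x * y)).continuous
      ((E x).continuous.add ((lam x).continuous.comp (E y).continuous))
  · refine isClosed_iInter fun i => ?_
    exact isClosed_eq (coord i).continuous (E (S i)).continuous
  · refine isClosed_iInter fun x => isClosed_iInter fun _ => ?_
    exact isClosed_eq (E x).continuous continuous_const

end Pool.Agent.Lib.MP_fed171_al.FD
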