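import Pool.Agent.Lib.MP_fed171_al.FD.Stm2

/-!
# Project FD (MP_fed171_al): free groups of finite rank embed in the free group of rank two
-/

namespace Pool.Agent.Lib.MP_fed171_al.FD

open Monoid

/-- The homomorphism to the free group of rank two. -/
private noncomputable def ff_fwd : CoprodI (Fam (Multiplicative ℤ)) →* FreeGroup Bool :=
  CoprodI.lift (fun i => match i with
    | true => (zpowersHom (FreeGroup Bool) (FreeGroup.of true) : Multiplicative ℤ →* FreeGroup Bool)
    | false => (zpowersHom (FreeGroup Bool) (FreeGroup.of false) : Multiplicative ℤ →* FreeGroup Bool))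

/-- Its inverse. -/
private noncomputable def ff_bwd : FreeGroup Bool →* CoprodI (Fam (Multiplicative ℤ)) :=
  FreeGroup.lift (fun i => if i then inA (A := Multiplicative ℤ) (Multiplicative.ofAdd (1 : ℤ))
    else inS (A := Multiplicative ℤ) (Multiplicative.ofAdd (1 : ℤ)))

private theorem ff_comp : ff_bwd.comp ff_fwd = MonoidHom.id _ := by
  apply CoprodI.ext_hom
  intro i
  cases i with
  | true =>
    have h : (((ff_bwd.comp ff_fwd).comp (CoprodI.of (M := Fam (Multiplicative ℤ)) (i := true)) :
        Multiplicative ℤ →* CoprodI (Fam (Multiplicative ℤ)))) =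
        ((MonoidHom.id _).comp (CoprodI.of (M := Fam (Multiplicative ℤ)) (i := true)) :
        Multiplicative ℤ →* CoprodI (Fam (Multiplicative ℤ))) := by
      apply MonoidHom.ext_mint
      show ff_bwd (ff_fwd (CoprodI.of (M := Fam (Multiplicative ℤ)) (i := true)
        (Multiplicative.ofAdd (1 : ℤ)))) = _
      have : ff_fwd (CoprodI.of (M := Fam (Multiplicative ℤ)) (i := true)
        (Multiplicative.ofAdd (1 : ℤ))) = FreeGroup.of true := by
        unfold ff_fwd
        rw [CoprodI.lift_of]
        exact zpow_one (FreeGroup.of true : FreeGroup Bool)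
      rw [this]
      unfold ff_bwd
      rw [FreeGroup.lift_apply_of]
      rfl
    exact h
  | false =>
    have h : (((ff_bwd.comp ff_fwd).comp (CoprodI.of (M := Fam (Multiplicative ℤ)) (i := false)) :
        Multiplicative ℤ →* CoprodI (Fam (Multiplicative ℤ)))) =
        ((MonoidHom.id _).comp (CoprodI.of (M := Fam (Multiplicative ℤ)) (i := false)) :
        Multiplicative ℤ →* CoprodI (Fam (Multiplicative ℤ))) := by
      apply MonoidHom.ext_mint
      show ff_bwd (ff_fwd (CoprodI.of (M := Fam (Multiplicative ℤ)) (i := false)
        (Multiplicative.ofAdd (1 : ℤ)))) = _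
      have : ff_fwd (CoprodI.of (M := Fam (Multiplicative ℤ)) (i := false)
        (Multiplicative.ofAdd (1 : ℤ))) = FreeGroup.of false := by
        unfold ff_fwd
        rw [CoprodI.lift_of]
        exact zpow_one (FreeGroup.of false : FreeGroup Bool)
      rw [this]
      unfold ff_bwd
      rw [FreeGroup.lift_apply_of]
      rfl
    exact h

private theorem ff_inj : Function.Injective ff_fwd := by
  apply Function.LeftInverse.injective (g := ff_bwd)
  intro x
  exact DFunLike.congr_fun ff_comp x

theorem p_FF : S_pp → S_FF := by
  classical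
  intro hpp L _
  rcases isEmpty_or_nonempty L with hL | hL
  · exact ⟨1, fun x y _ => Subsingleton.elim x y⟩
  · have hT : TorsionFree (Multiplicative ℤ) := by
      intro x n hn h
      have h1 : n • (Multiplicative.toAdd x) = 0 := by
        rw [← toAdd_pow, h, toAdd_one]
      have h2 : Multiplicative.toAdd x = 0 := by
        rcases smul_eq_zero.1 h1 with h3 | h3
        · omega
        · exact h3
      exact Multiplicative.toAdd.injective (by rw [h2, toAdd_one])
    have h1 := hpp (Multiplicative ℤ) hT (Fintype.card L) (fun _ => Multiplicative.ofAdd (1 : ℤ))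
      (fun l h => by
        have := congrArg Multiplicative.toAdd h
        simp at this)
    refine ⟨(ff_fwd.comp (FreeGroup.lift (uu fun _ => Multiplicative.ofAdd (1 : ℤ)))).comp
      (FreeGroup.map fun l => some (Fin.castSucc (Fintype.equivFin L l))), ?_⟩
    refine (ff_inj.comp h1).comp (FreeGroup.map_injective ?_)
    intro a b hab
    exact (Fintype.equivFin L).injective (Fin.castSucc_injective _ (Option.some.inj hab))

end Pool.Agent.Lib.MP_fed171_al.FD
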