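import Pool.Agent.Lib.MP_fed171_al.FD.Stm

/-!
# Project FD, piece Hn: the group `H × ℤ^n`
-/

set_option autoImplicit false

namespace Pool.Agent.Lib.MP_fed171_al.FD

theorem hn_top {n : ℕ} (K : Subgroup (Multiplicative (Fin n → ℤ)))
    (h : ∀ i, Multiplicative.ofAdd (Pi.single i (1 : ℤ)) ∈ K) : K = ⊤ := by
  rw [eq_top_iff]
  intro x _
  have h1 : x = ∏ i, Multiplicative.ofAdd (Pi.single i (1 : ℤ) : Fin n → ℤ) ^
      (Multiplicative.toAdd x i) := by
    have h2 : Multiplicative.toAdd x = ∑ i, (Multiplicative.toAdd x i) • (Pi.single i (1 : ℤ) :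
        Fin n → ℤ) := by
      conv_lhs => rw [← Finset.univ_sum_single (Multiplicative.toAdd x)]
      refine Finset.sum_congr rfl fun i _ => ?_
      rw [← Pi.single_smul, smul_eq_mul, mul_one]
    calc x = Multiplicative.ofAdd (Multiplicative.toAdd x) := rfl
      _ = Multiplicative.ofAdd (∑ i, (Multiplicative.toAdd x i) • (Pi.single i (1 : ℤ) :
        Fin n → ℤ)) := by rw [← h2]
      _ = _ := by
        rw [ofAdd_sum]
        exact Finset.prod_congr rfl fun i _ => ofAdd_zsmul _ _
  rw [h1]
  exact K.prod_mem fun i _ => K.zpow_mem (h i) _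

theorem hn_closure {H : Type} [Group H] {n : ℕ} (K : Subgroup (H × Multiplicative (Fin n → ℤ)))
    (h1 : ∀ x : H, (x, 1) ∈ K)
    (h2 : ∀ i, ((1 : H), Multiplicative.ofAdd (Pi.single i (1 : ℤ))) ∈ K) : K = ⊤ := by
  have h3 : K.comap (MonoidHom.inr H (Multiplicative (Fin n → ℤ))) = ⊤ := hn_top _ h2
  rw [eq_top_iff]
  rintro ⟨x, y⟩ _
  have h4 : ((1 : H), y) ∈ K := by
    have : y ∈ K.comap (MonoidHom.inr H (Multiplicative (Fin n → ℤ))) := by
      rw [h3]; exact Subgroup.mem_top _
    exact this
  have h5 : (x, y) = (x, 1) * ((1 : H), y) := by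
    rw [Prod.mk_mul_mk, mul_one, one_mul]
  rw [h5]
  exact K.mul_mem (h1 x) h4

theorem p_Hn : S_H → S_Hn := by
  intro hH L _ n
  obtain ⟨H, _, j, t, χ, hj, htf, ⟨m, S, hS⟩, ht, hχ, hχj⟩ := hH L
  let T : Fin (n + 1) → H × Multiplicative (Fin n → ℤ) :=
    Fin.cons (t, 1) (fun i => ((1 : H), Multiplicative.ofAdd (Pi.single i (1 : ℤ))))
  let X : H × Multiplicative (Fin n → ℤ) →* Multiplicative (Fin (n + 1) → ℤ) :=
    { toFun := fun p => Multiplicative.ofAdd
        (Fin.cons (Multiplicative.toAdd (χ p.1)) (Multiplicative.toAdd p.2) : Fin (n + 1) → ℤ)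
      map_one' := by
        rw [Prod.fst_one, Prod.snd_one, map_one]
        refine congrArg Multiplicative.ofAdd (funext fun i => ?_)
        refine Fin.cases ?_ (fun i => ?_) i
        · rfl
        · rfl
      map_mul' := by
        intro p q
        rw [Prod.fst_mul, Prod.snd_mul, map_mul, ← ofAdd_add]
        refine congrArg Multiplicative.ofAdd (funext fun i => ?_)
        refine Fin.cases ?_ (fun i => ?_) i
        · rfl
        · rfl }
  refine ⟨H × Multiplicative (Fin n → ℤ), inferInstance, (MonoidHom.inl H _).comp j, T, X,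
    ?_, ?_, ?_, ?_, ?_, ?_⟩
  · intro x y h
    exact hj (congrArg Prod.fst h)
  · rintro ⟨x, y⟩ k hk h
    have h1 : x ^ k = 1 := congrArg Prod.fst h
    have h2 : y ^ k = 1 := congrArg Prod.snd h
    have h3 : y = 1 := by
      refine congrArg Multiplicative.ofAdd (funext fun i => ?_ : Multiplicative.toAdd y = 0)
      have h4 : k • Multiplicative.toAdd y = 0 := congrArg Multiplicative.toAdd h2
      have h5 := congrFun h4 i
      rw [Pi.smul_apply, nsmul_eq_mul, Pi.zero_apply] at h5
      rcases mul_eq_zero.1 h5 with h6 | h6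
      · have : k = 0 := by exact_mod_cast h6
        omega
      · exact h6
    rw [htf x k hk h1, h3]
    rfl
  · let S' : Fin m ⊕ Fin n → H × Multiplicative (Fin n → ℤ) :=
      Sum.elim (fun i => (S i, 1)) (fun i => ((1 : H), Multiplicative.ofAdd (Pi.single i (1 : ℤ))))
    have h1 : Subgroup.closure (Set.range S') = ⊤ := by
      apply hn_closure
      · intro x
        have h2 : Subgroup.closure (Set.range S) ≤
            (Subgroup.closure (Set.range S')).comap
              (MonoidHom.inl H (Multiplicative (Fin n → ℤ))) := by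
          rw [Subgroup.closure_le]
          rintro _ ⟨i, rfl⟩
          exact Subgroup.subset_closure ⟨Sum.inl i, rfl⟩
        rw [hS] at h2
        exact h2 (Subgroup.mem_top x)
      · intro i
        exact Subgroup.subset_closure ⟨Sum.inr i, rfl⟩
    refine ⟨Fintype.card (Fin m ⊕ Fin n), S' ∘ (Fintype.equivFin _).symm, ?_⟩
    rw [Set.range_comp, Equiv.range_eq_univ, Set.image_univ, h1]
  · apply hn_closure
    · intro x
      have h2 : Subgroup.normalClosure {t} ≤ (Subgroup.normalClosure (Set.range T)).comap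
          (MonoidHom.inl H (Multiplicative (Fin n → ℤ))) := by
        apply Subgroup.normalClosure_le_normal
        rw [Set.singleton_subset_iff]
        exact Subgroup.subset_normalClosure ⟨0, rfl⟩
      rw [ht] at h2
      exact h2 (Subgroup.mem_top x)
    · intro i
      exact Subgroup.subset_normalClosure ⟨i.succ, rfl⟩
  · intro v
    refine ⟨(t ^ (Multiplicative.toAdd v 0), Multiplicative.ofAdd (Fin.tail (Multiplicative.toAdd v))), ?_⟩
    show Multiplicative.ofAdd (Fin.cons (Multiplicative.toAdd (χ (t ^ (Multiplicative.toAdd v 0))))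
      (Fin.tail (Multiplicative.toAdd v)) : Fin (n + 1) → ℤ) = v
    rw [map_zpow, hχ, ← ofAdd_zsmul, toAdd_ofAdd, smul_eq_mul, mul_one, Fin.cons_self_tail]
    rfl
  · intro w
    show Multiplicative.ofAdd (Fin.cons (Multiplicative.toAdd (χ (j w)))
      (Multiplicative.toAdd (1 : Multiplicative (Fin n → ℤ))) : Fin (n + 1) → ℤ) = 1
    rw [hχj w]
    refine congrArg Multiplicative.ofAdd (funext fun i => ?_)
    refine Fin.cases ?_ (fun i => ?_) i
    · rfl
    · rfl

end Pool.Agent.Lib.MP_fed171_al.FD
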