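import Pool.Agent.Lib.MP_fed171_al.FD.Stm

/-!
# Invariance of the spaces of cocycles and of inner cocycles under the right translations
-/

namespace Pool.Agent.Lib.MP_fed171_al.FD

section

variable {Γ : Type} [Group Γ]

/-- Right translation by `γ` on `ℓ²(Γ)`. -/
noncomputable def zbinv_r (γ : Γ) : L2 Γ →L[ℂ] L2 Γ :=
  pull (fun x => x * γ) (fun _ _ h => mul_right_cancel h)

theorem zbinv_r_lam (γ x : Γ) (f : L2 Γ) :
    zbinv_r γ (lam x f) = lam x (zbinv_r γ f) := by
  ext y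
  simp only [zbinv_r, lam, pull_apply]
  rw [mul_assoc]

theorem zbinv_coord {ι : Type} (γ : Γ) (i : ι) (ξ : L2 (ι × Γ)) :
    coord i (rho γ ξ) = zbinv_r γ (coord i ξ) := by
  ext y
  simp only [zbinv_r, rho, coord, pull_apply]

theorem zbinv_lam_mul (x y : Γ) (f : L2 Γ) : lam (x * y) f = lam x (lam y f) := by
  ext z
  simp only [lam, pull_apply]
  rw [mul_inv_rev, mul_assoc]

end

theorem p_ZBinv : S_ZBinv := by
  intro Γ _ ι S K
  refine ⟨?_, ?_, ?_⟩
  · intro γ ξ hξ
    obtain ⟨b, hb, h1, h2⟩ := hξ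
    refine ⟨fun x => zbinv_r γ (b x), ?_, ?_, ?_⟩
    · intro x y
      simp only [hb x y, map_add, zbinv_r_lam]
    · intro i
      rw [zbinv_coord, h1 i]
    · intro x hx
      simp only [h2 x hx, map_zero]
  · intro γ ξ hξ
    obtain ⟨c, hc⟩ := hξ
    refine ⟨zbinv_r γ c, fun i => ?_⟩
    rw [zbinv_coord, hc i, map_sub, zbinv_r_lam]
  · intro ξ hξ
    obtain ⟨c, hc⟩ := hξ
    refine ⟨fun x => lam x c - c, ?_, hc, ?_⟩
    · intro x y
      simp only [zbinv_lam_mul, map_sub]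
      abel
    · intro x hx
      exact absurd hx (Set.notMem_empty x)

end Pool.Agent.Lib.MP_fed171_al.FD
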